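import Pool.Agent.Helper69.CR.St

/-!
# MP_3dd6d4_an, project CR, module PF: partial fractions of `m_n` and its Laplace transform
-/

set_option autoImplicit false

open MeasureTheory Set Filter Topology

noncomputable section

namespace Helper69.CR

private lemma prod_neg_PF (n : ℕ) :
    ∏ k ∈ Finset.range n, ((k : ℂ) + (-(n : ℂ))) = (-1) ^ n * (n.factorial : ℂ) := by
  rw [← Finset.prod_range_reflect]
  have h1 : ∀ j ∈ Finset.range n, (((n - 1 - j : ℕ) : ℂ) + (-(n : ℂ))) = (-1) * (((j + 1 : ℕ)) : ℂ) := by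
    intro j hj
    have hj' : j < n := Finset.mem_range.1 hj
    have h2 : ((n - 1 - j : ℕ) : ℂ) = (n : ℂ) - 1 - j := by
      rw [Nat.cast_sub (by omega), Nat.cast_sub (by omega)]
      push_cast
      ring
    rw [h2]
    push_cast
    ring
  rw [Finset.prod_congr rfl h1, Finset.prod_mul_distrib, Finset.prod_const, Finset.card_range,
    ← Nat.cast_prod, Finset.prod_range_add_one_eq_factorial]

private lemma prod_pos_PF (n : ℕ) :
    (∏ k ∈ Finset.range n, ((k : ℂ) + 1 - (-(n : ℂ)))) * (n.factorial : ℂ) = ((2 * n).factorial : ℂ) := by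
  have h1 : ∏ k ∈ Finset.range n, ((k : ℂ) + 1 - (-(n : ℂ))) =
      (((n + 1).ascFactorial n : ℕ) : ℂ) := by
    rw [Nat.ascFactorial_eq_prod_range, Nat.cast_prod]
    refine Finset.prod_congr rfl fun k _ => ?_
    push_cast
    ring
  rw [h1, mul_comm, ← Nat.cast_mul, Nat.factorial_mul_ascFactorial, two_mul]

private lemma mm_neg_PF (n : ℕ) :
    mm n (-(n : ℂ)) = (-1) ^ n * ((2 * n).factorial : ℂ) / ((n.factorial : ℂ) ^ 2) := by
  have hf : (n.factorial : ℂ) ≠ 0 := by exact_mod_cast n.factorial_ne_zero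
  have hs : ((-1 : ℂ)) ^ n * (-1) ^ n = 1 := by
    rw [← mul_pow]; norm_num
  have hs0 : ((-1 : ℂ)) ^ n ≠ 0 := pow_ne_zero _ (by norm_num)
  unfold mm
  rw [Finset.prod_div_distrib, prod_neg_PF, div_eq_div_iff (mul_ne_zero hs0 hf) (pow_ne_zero _ hf)]
  rw [← prod_pos_PF n]
  linear_combination (-(∏ k ∈ Finset.range n, ((k : ℂ) + 1 - (-(n : ℂ)))) * (n.factorial : ℂ) ^ 2) * hs

private lemma pc_succ_PF (n i : ℕ) (hi : i < n) :
    ((pc (n + 1) i : ℝ) : ℂ) * ((n : ℂ) - i) = ((pc n i : ℝ) : ℂ) * ((n : ℂ) + 1 + i) := by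
  have h : pc (n + 1) i * ((n : ℝ) - i) = pc n i * ((n : ℝ) + 1 + i) := by
    unfold pc
    obtain ⟨m, rfl⟩ : ∃ m, n = m + 1 + i := ⟨n - 1 - i, by omega⟩
    have e1 : m + 1 + i + 1 - 1 - i = m + 1 := by omega
    have e2 : m + 1 + i - 1 - i = m := by omega
    have e3 : m + 1 + i + 1 + i = (m + 1 + i + i) + 1 := by omega
    rw [e1, e2, e3, Nat.factorial_succ (m + 1 + i + i), Nat.factorial_succ m]
    have h1 : (i.factorial : ℝ) ≠ 0 := by exact_mod_cast i.factorial_ne_zero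
    have h2 : (m.factorial : ℝ) ≠ 0 := by exact_mod_cast m.factorial_ne_zero
    have h3 : (m : ℝ) + 1 ≠ 0 := by positivity
    push_cast
    field_simp
    ring
  exact_mod_cast h

private lemma pc_last_PF (n : ℕ) :
    ((pc (n + 1) n : ℝ) : ℂ) = (2 * (n : ℂ) + 1) * mm n (-(n : ℂ)) := by
  rw [mm_neg_PF]
  unfold pc
  have e1 : n + 1 - 1 - n = 0 := by omega
  have e2 : n + 1 + n = 2 * n + 1 := by omega
  rw [e1, e2, Nat.factorial_succ (2 * n)]
  push_cast
  have h1 : (n.factorial : ℂ) ≠ 0 := by exact_mod_cast n.factorial_ne_zero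
  field_simp
  simp

private lemma pf_PF (n : ℕ) : ∀ z : ℂ, (∀ i < n, z + (i : ℂ) ≠ 0) →
    mm n z = (-1) ^ n + ∑ i ∈ Finset.range n, ((pc n i : ℝ) : ℂ) / (z + i) := by
  induction n with
  | zero => intro z _; simp [mm]
  | succ n ih =>
    intro z hz
    have hzn : z + (n : ℂ) ≠ 0 := hz n (Nat.lt_succ_self n)
    have hz' : ∀ i < n, z + (i : ℂ) ≠ 0 := fun i hi => hz i (Nat.lt_succ_of_lt hi)
    have hnn : ∀ i < n, -(n : ℂ) + (i : ℂ) ≠ 0 := by
      intro i hi h
      have h1 : (i : ℂ) = (n : ℂ) := by linear_combination h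
      have h2 : i = n := by exact_mod_cast h1
      omega
    have hA := ih z hz'
    have hB := ih (-(n : ℂ)) hnn
    have hstep : mm (n + 1) z = mm n z * (((n : ℂ) + 1 - z) / ((n : ℂ) + z)) := by
      unfold mm
      rw [Finset.prod_range_succ]
    rw [hstep, hA, Finset.sum_range_succ, pc_last_PF, hB]
    have hterm : ∀ i ∈ Finset.range n,
        ((pc n i : ℝ) : ℂ) / (z + i) * (((n : ℂ) + 1 - z) / ((n : ℂ) + z)) =
          ((pc (n + 1) i : ℝ) : ℂ) / (z + i) +
            ((pc n i : ℝ) : ℂ) / (-(n : ℂ) + i) * ((2 * (n : ℂ) + 1) / (z + n)) := by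
      intro i hi
      have hi' := Finset.mem_range.1 hi
      have h1 := hz' i hi'
      have h2 := hnn i hi'
      have h3 := pc_succ_PF n i hi'
      have h4 : (n : ℂ) - i ≠ 0 := by
        intro h
        apply h2
        linear_combination -h
      have h5 : ((pc (n + 1) i : ℝ) : ℂ) = ((pc n i : ℝ) : ℂ) * ((n : ℂ) + 1 + i) / ((n : ℂ) - i) := by
        rw [eq_div_iff h4, h3]
      have h6 : (n : ℂ) + z ≠ 0 := by rwa [add_comm] at hzn
      rw [h5]
      have h7 : -(n : ℂ) + i = -((n : ℂ) - i) := by ring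
      have h8 : z + (n : ℂ) = (n : ℂ) + z := by ring
      rw [h7, h8]
      field_simp
      ring
    have h6 : (n : ℂ) + z ≠ 0 := by rwa [add_comm] at hzn
    rw [add_mul, Finset.sum_mul, Finset.sum_congr rfl hterm, Finset.sum_add_distrib,
      ← Finset.sum_mul]
    have h8 : z + (n : ℂ) = (n : ℂ) + z := by ring
    rw [h8]
    have h9 : (-1 : ℂ) ^ n * (((n : ℂ) + 1 - z) / ((n : ℂ) + z)) =
        (-1) ^ (n + 1) + (-1) ^ n * ((2 * (n : ℂ) + 1) / ((n : ℂ) + z)) := by
      rw [pow_succ]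
      field_simp
      ring
    rw [h9]
    ring

private lemma lap_PF (n : ℕ) (z : ℂ) (hz : 0 < z.re) :
    IntegrableOn (fun v : ℝ => ((pp n (Real.exp (-v)) : ℝ) : ℂ) * Complex.exp (-(v : ℂ) * z)) (Ioi 0) ∧
    ∫ v in Ioi (0 : ℝ), ((pp n (Real.exp (-v)) : ℝ) : ℂ) * Complex.exp (-(v : ℂ) * z) =
      ∑ i ∈ Finset.range n, ((pc n i : ℝ) : ℂ) / (z + i) := by
  have hfun : (fun v : ℝ => ((pp n (Real.exp (-v)) : ℝ) : ℂ) * Complex.exp (-(v : ℂ) * z)) =
      fun v : ℝ => ∑ i ∈ Finset.range n, ((pc n i : ℝ) : ℂ) * Complex.exp (-(z + i) * (v : ℂ)) := by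
    funext v
    unfold pp
    rw [Complex.ofReal_sum, Finset.sum_mul]
    refine Finset.sum_congr rfl fun i _ => ?_
    rw [Complex.ofReal_mul, Complex.ofReal_pow, Complex.ofReal_exp, ← Complex.exp_nat_mul, mul_assoc,
      ← Complex.exp_add]
    congr 2
    push_cast
    ring
  have hre : ∀ i : ℕ, (-(z + (i : ℂ))).re < 0 := by
    intro i
    simp only [Complex.neg_re, Complex.add_re, Complex.natCast_re]
    have : (0 : ℝ) ≤ i := Nat.cast_nonneg i
    linarith
  have hint : ∀ i ∈ Finset.range n, IntegrableOn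
      (fun v : ℝ => ((pc n i : ℝ) : ℂ) * Complex.exp (-(z + i) * (v : ℂ))) (Ioi 0) := by
    intro i _
    exact (integrableOn_exp_mul_complex_Ioi (hre i) 0).const_mul _
  rw [hfun]
  refine ⟨?_, ?_⟩
  · exact integrable_finset_sum _ hint
  · rw [integral_finset_sum _ hint]
    refine Finset.sum_congr rfl fun i _ => ?_
    rw [integral_const_mul, integral_exp_mul_complex_Ioi (hre i) 0]
    simp only [Complex.ofReal_zero, mul_zero, Complex.exp_zero]
    rw [neg_div_neg_eq, mul_one_div]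

theorem hPF : StPF := by
  refine ⟨?_, ?_, ?_, ?_⟩
  · intro n z hz
    refine pf_PF n z fun i _ h => ?_
    have h1 := congrArg Complex.re h
    simp only [Complex.add_re, Complex.natCast_re, Complex.zero_re] at h1
    have : (0 : ℝ) ≤ i := Nat.cast_nonneg i
    linarith
  · intro n z hz
    exact lap_PF n z hz
  · intro n
    unfold mm
    refine Finset.prod_eq_one fun k _ => ?_
    have h1 : (k : ℂ) + 1 - 1 / 2 = (k : ℂ) + 1 / 2 := by ring
    have h2 : (k : ℂ) + 1 / 2 ≠ 0 := by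
      intro h
      have h3 := congrArg Complex.re h
      have h4 : ((k : ℂ) + 1 / 2).re = (k : ℝ) + 1 / 2 := by
        have h5 : ((k : ℂ) + 1 / 2) = (((k : ℝ) + 1 / 2 : ℝ) : ℂ) := by push_cast; ring
        rw [h5, Complex.ofReal_re]
      rw [h4, Complex.zero_re] at h3
      have : (0 : ℝ) ≤ k := Nat.cast_nonneg k
      linarith
    rw [h1, div_self h2]
  · intro n a
    unfold mm Cn
    push_cast
    rfl

end Helper69.CR
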