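import Pool.Agent.Helper85.BP.Defs
import Pool.Agent.Helper68.BA.Defs

/-!
# MP_3dd6d4_an, project CR (critical mode, `2 ≤ p ≤ 4`, all `n`, SHARP constant): statements

Plan and proofs: the docstrings below and /team-store/MP_3dd6d4-CRIT24-plan.md.
Leader of this file: helper69.  Every module `M_XX.lean` proves `theorem hXX : StXX` (possibly from
other `StYY` as hypotheses, as said in its row).

Notation.  `p_k(s) = Σ_{i<k} (-1)^i (k+i)!/(i!²(k-1-i)!) s^i`  (= `pp k s`),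
`L_j(s) = Σ_{i≤j} (-1)^i (j+i)!/(i!²(j-i)!) s^i` (shifted Legendre, `LL j s`),
`m_n(z) = ∏_{k=1}^n (k-z)/(k-1+z)` (`mm n z`).
`B_n f(y) = (-1)^n f(y) + ∫_0^∞ p_n(e^{-u}) f(y+u) du` (`Bop n f y`), `y = log t = 2 log r`.
-/

set_option autoImplicit false

open MeasureTheory Set Filter Topology

noncomputable section

namespace Helper69.CR

open Helper85.BP

/-! ### definitions -/

/-- coefficient of `s^i` in `p_k`. -/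
def pc (k i : ℕ) : ℝ :=
  (-1) ^ i * ((k + i).factorial : ℝ) / ((i.factorial : ℝ) ^ 2 * ((k - 1 - i).factorial : ℝ))

/-- `p_k(s)`; `pp 0 s = 0`, `pp 1 s = 1`, `pp 2 s = 2 - 6 s`. -/
def pp (k : ℕ) (s : ℝ) : ℝ := ∑ i ∈ Finset.range k, pc k i * s ^ i

/-- coefficient of `s^i` in `L_j`. -/
def lc (j i : ℕ) : ℝ :=
  (-1) ^ i * ((j + i).factorial : ℝ) / ((i.factorial : ℝ) ^ 2 * ((j - i).factorial : ℝ))

/-- shifted Legendre polynomial `L_j(s) = P_j(1-2s)`. -/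
def LL (j : ℕ) (s : ℝ) : ℝ := ∑ i ∈ Finset.range (j + 1), lc j i * s ^ i

/-- `m_n(z) = ∏_{k=1}^n (k-z)/(k-1+z)`. -/
def mm (n : ℕ) (z : ℂ) : ℂ := ∏ k ∈ Finset.range n, (((k : ℂ) + 1 - z) / ((k : ℂ) + z))

/-- the sharp constant `C_n(a) = ∏_{k=1}^n (k-a)/(k-1+a)`, `a = 1/p`. -/
def Cn (n : ℕ) (a : ℝ) : ℝ := ∏ k ∈ Finset.range n, (((k : ℝ) + 1 - a) / ((k : ℝ) + a))

/-- the operator `B_n`. -/
def Bop (n : ℕ) (f : ℝ → ℂ) (y : ℝ) : ℂ :=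
  (-1) ^ n * f y + ∫ u in Ioi (0 : ℝ), ((pp n (Real.exp (-u)) : ℝ) : ℂ) * f (y + u)

/-- the adjoint of `B_n` on `L²`, conjugated by `e^{y/2}`; acts on real functions. -/
def Bst (n : ℕ) (H : ℝ → ℝ) (y : ℝ) : ℝ :=
  (-1) ^ n * H y + ∫ u in Ioi (0 : ℝ), pp n (Real.exp (-u)) * Real.exp (-u / 2) * H (y - u)

/-- `T_d^* H (y) = (-1)^n p_n(e^{-d}) H(y) + ∫_0^∞ p_n(e^{-v}) p_n(e^{-v}e^{-d}) e^{-v/2} H(y-v) dv`. -/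
def Tst (n : ℕ) (d : ℝ) (H : ℝ → ℝ) (y : ℝ) : ℝ :=
  (-1) ^ n * pp n (Real.exp (-d)) * H y +
    ∫ v in Ioi (0 : ℝ), pp n (Real.exp (-v)) * pp n (Real.exp (-v) * Real.exp (-d)) *
      Real.exp (-v / 2) * H (y - v)

/-- `κ_{1/2}(x) = (-1)^n p_n(x) + ∫_0^∞ p_n(e^{-v}) p_n(e^{-v}x) e^{-v/2} dv`. -/
def kap (n : ℕ) (x : ℝ) : ℝ :=
  (-1) ^ n * pp n x +
    ∫ v in Ioi (0 : ℝ), pp n (Real.exp (-v)) * pp n (Real.exp (-v) * x) * Real.exp (-v / 2)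

/-- `c ‖c‖^{w-1}` (so modulus `‖c‖^{Re w}`), `0` at `c = 0`. -/
def pw (w c : ℂ) : ℂ := c * (‖c‖ : ℂ) ^ (w - 1)

/-- `φ_t(y) = e^{-y/4} G(y) e^{it(y/4 - log|G(y)|)}`. -/
def ph (t : ℝ) (G : ℝ → ℂ) (y : ℝ) : ℂ :=
  (Real.exp (-y / 4) : ℂ) * (G y * Complex.exp (Complex.I * ((t * (y / 4 - Real.log ‖G y‖) : ℝ) : ℂ)))

/-- `k_d(y) = Re(G(y) conj G(y+d)) Ŵ(log|G(y)| - log|G(y+d)| + d/4)`. -/
def kd (W : ℝ → ℝ) (G : ℝ → ℂ) (d y : ℝ) : ℝ :=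
  (G y * (starRingEnd ℂ) (G (y + d))).re * Wh 1 W (Real.log ‖G y‖ - Real.log ‖G (y + d)‖ + d / 4)

/-- the weight of the strip. -/
def Wn (n : ℕ) (θ τ : ℝ) : ℝ :=
  P1 θ τ / ‖mm n (1 / 4 - Complex.I * (τ : ℂ) / 4)‖ ^ 2

/-! ### the algebraic input -/

/-- (QPOS), proved on paper by helper35; Lean in helper35's modules. -/
def StQ : Prop := ∀ n : ℕ, 1 ≤ n → ∀ j < n, ∀ T : ℝ, 0 ≤ T → T ≤ 1 →
  ∃ q : ℕ → ℝ, (∀ k, 0 ≤ q k) ∧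
    ∀ s : ℝ, pp n s * LL j (s * T) = ∑ k ∈ Finset.range (2 * n), q k * pp k s

/-- The functions `n_k(x)`. -/
structure NN (n : ℕ) (ν : ℕ → ℝ → ℝ) : Prop where
  zero : ∀ x, ν 0 x = 0
  cont : ∀ k, Continuous (ν k)
  exp : ∀ s x : ℝ, pp n s * pp n (s * x) = ∑ k ∈ Finset.range (2 * n), ν k x * pp k s
  alt : ∀ x : ℝ, (-1) ^ n * pp n x = ∑ k ∈ Finset.range (2 * n), (-1) ^ k * ν k x
  pos : ∀ k l : ℕ, k < 2 * n → l < 2 * n → ∀ T : ℝ, 0 ≤ T → T ≤ 1 →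
    0 ≤ ∫ x in (0 : ℝ)..T, ν k x * ν l x

/-- MODULE KR (60 lines). `Bop` is `(-1)^n Sop (ker 0 n 0)`.
Proof: `rc 0 n j = -(-1)^n pc n j` for `j < n` (numerator `∏_{i<n}(1+i+j) = (n+j)!/j!`, denominator
`∏_{i≠j}(j-i) = j! (-1)^{n-1-j} (n-1-j)!`), `ker 0 n 0 u = Σ rc 0 n j e^{-ju}`; `integral_const_mul`. -/
def StKR : Prop := (∀ n j : ℕ, j < n → Pool.Agent.Helper68.BA.rc 0 n j = -(-1) ^ n * pc n j) ∧
  ∀ (n : ℕ) (f : ℝ → ℂ) (y : ℝ),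
    Bop n f y = (-1) ^ n * Pool.Agent.Helper68.BA.Sop (Pool.Agent.Helper68.BA.ker 0 n 0) f y

/-- MODULE IS2 (120 lines; may use `StKR`). The two `L²` isometries.
Proof: `Pool.Agent.Helper68.BA.IS.Sop_isometry` (file Helper22/BAM/IS.lean) with `ε = 0`, `β0 = 1/2`, `K = n`, `r = rc 0 n`;
its hypothesis `hC` is `rc_cauchy 0 _ n j` (Helper16/BAM/KB.lean).
(1) `f = e^{-y/2} R`, `Bop n f (y) = (-1)^n e^{-y/2} Sop (ker 0 n (1/2)) R (y)`.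
(2) `Bst n H (y) = (-1)^n Sop (ker 0 n (1/2)) (fun x => H (-x)) (-y)` (as complex numbers), reflect. -/
def StIS2 : Prop :=
  (∀ (n : ℕ) (f : ℝ → ℂ), Continuous f → HasCompactSupport f →
    Integrable (fun y => ‖Bop n f y‖ ^ 2 * Real.exp y) ∧
      ∫ y, ‖Bop n f y‖ ^ 2 * Real.exp y = ∫ y, ‖f y‖ ^ 2 * Real.exp y) ∧
  (∀ (n : ℕ) (H : ℝ → ℝ), Continuous H → HasCompactSupport H →
    Continuous (Bst n H) ∧ Integrable (fun y => Bst n H y ^ 2) ∧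
      ∫ y, Bst n H y ^ 2 = ∫ y, H y ^ 2)

/-- MODULE A1 (70 lines). `∫_0^1 p_n(sx) p_n(tx) dx = Σ_{j<n} (2j+1) L_j(s) L_j(t)`.
Proof: coefficient of `s^i t^k`: `pc n i * pc n k / (i+k+1)` against `Σ_{j<n} (2j+1) lc j i lc j k`; induction
on `n`: for `i,k ≤ n`: `pc n i = lc n i (n-i)` (also for `i = n`, where it is `0`: use the polynomial
up to `i ≤ n`), `pc (n+1) i = lc n i (n+1+i)`, and `(n+1+i)(n+1+k) - (n-i)(n-k) = (2n+1)(i+k+1)`. -/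
def StA1 : Prop := ∀ (n : ℕ) (s t : ℝ),
  ∫ x in (0 : ℝ)..1, pp n (s * x) * pp n (t * x) =
    ∑ j ∈ Finset.range n, (2 * (j : ℝ) + 1) * LL j s * LL j t

/-- MODULE A2 (120 lines; may use `StKR`). Moments, independence and spanning of the `p_k`, `1 ≤ k`.
(1) `∫_0^1 p_n(s) s^i ds = (-1)^{n-1}` for `i < n`: `Σ_j pc n j/(i+j+1)`, `rc_cauchy 0` (Helper16/BAM/KB.lean) and `StKR`;
    stated for finite sums.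
(2) `Σ_{k<M} a k p_k(s) = 0` for all `s` implies `a k = 0` for `1 ≤ k < M` (degree of `p_k` is `k-1`,
    `pc k (k-1) ≠ 0`).
(3) every `s^i p_n(s)`, `i < n`, is a combination of the `p_k`, `1 ≤ k < 2n` (all polynomials of degree `< m` are
    combinations of `p_1..p_m`, induction on `m`). -/
def StA2 : Prop :=
  (∀ n i : ℕ, i < n → ∑ j ∈ Finset.range n, pc n j / ((i : ℝ) + j + 1) = (-1) ^ (n + 1)) ∧
  (∀ (M : ℕ) (a : ℕ → ℝ), (∀ s : ℝ, ∑ k ∈ Finset.range M, a k * pp k s = 0) →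
    ∀ k, 1 ≤ k → k < M → a k = 0) ∧
  (∀ n i : ℕ, i < n → ∃ a : ℕ → ℝ, a 0 = 0 ∧
    ∀ s : ℝ, pp n s * s ^ i = ∑ k ∈ Finset.range (2 * n), a k * pp k s)

/-- MODULE A3 (150 lines; from `StQ`, `StA1`, `StA2`). Existence of the functions `n_k`.
Proof: `ν k x = Σ_{i<n} pc n i a_{ik} x^i` with `a_{ik}` from A2(3).  `alt`: integrate `exp` over `s ∈ [0,1]`
and use A2(1) with `i = 0` on the right, A2(1) on the left: `Σ ν_k (-1)^{k+1} = (-1)^{n+1} p_n(x)`.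
`pos`: put `S_kl = ∫_0^T ν_k ν_l`; then for all `s,t`
`Σ_{k,l} S_kl p_k(s) p_l(t) = p_n(s) p_n(t) ∫_0^T p_n(sx) p_n(tx) dx = p_n(s) p_n(t) T Σ_{j<n} (2j+1) L_j(sT) L_j(tT)`
(A1 at `sT, tT`, substitution `x = Tx'`) `= T Σ_j (2j+1) (Σ_k q_k p_k(s)) (Σ_l q_l p_l(t))`; by A2(2) (twice)
`S_kl = T Σ_j (2j+1) q^j_k q^j_l ≥ 0` for `k,l ≥ 1`; for `k = 0` or `l = 0` it is `0`. -/
def StA3 : Prop := ∀ n : ℕ, 1 ≤ n → ∃ ν : ℕ → ℝ → ℝ, NN n ν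

/-- MODULE PF (90 lines; may use `StKR`). Partial fractions of `m_n` and its Laplace transform.
Proof: `rc_poly 0 n` (Helper16/BAM/KB.lean or Helper68/BA) evaluated at `X = -z`, divided by `∏ (-z-i)`, and
`StKR`; `∫_0^∞ e^{-v(z+i)} dv = 1/(z+i)` (`integral_cexp_neg..`/`integral_exp_mul_complex_Ioi`). -/
def StPF : Prop :=
  (∀ (n : ℕ) (z : ℂ), 0 < z.re →
    mm n z = (-1) ^ n + ∑ i ∈ Finset.range n, ((pc n i : ℝ) : ℂ) / (z + i)) ∧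
  (∀ (n : ℕ) (z : ℂ), 0 < z.re →
    IntegrableOn (fun v : ℝ => ((pp n (Real.exp (-v)) : ℝ) : ℂ) * Complex.exp (-(v : ℂ) * z)) (Ioi 0) ∧
    ∫ v in Ioi (0 : ℝ), ((pp n (Real.exp (-v)) : ℝ) : ℂ) * Complex.exp (-(v : ℂ) * z) =
      ∑ i ∈ Finset.range n, ((pc n i : ℝ) : ℂ) / (z + i)) ∧
  (∀ n : ℕ, mm n (1 / 2) = 1) ∧
  (∀ (n : ℕ) (a : ℝ), mm n (a : ℂ) = ((Cn n a : ℝ) : ℂ))

/-- MODULE KP (120 lines; may use `StPF`). The kernel `κ_{1/2}`.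
Proof (b): `kap n x = Σ_i pc n i x^i [(-1)^n + ∫ p_n(e^{-v}) e^{-v(i+1/2)} dv] = Σ_i pc n i Cn n (i+1/2) x^i`
(`StPF` at `z = i+1/2`), and `(-1)^i ∏_{k<n} (k+1-(i+1/2))/(k+i+1/2) > 0` for `i < n` (exactly `i` negative factors).
(a): insert `exp` and `alt` of `NN`, and `(-1)^k + ∫ p_k(e^{-v}) e^{-v/2} dv = mm k (1/2) = 1`. -/
def StKP : Prop := ∀ n : ℕ, 1 ≤ n →
  (∃ c : ℕ → ℝ, (∀ i, 0 ≤ c i) ∧ 0 < c 0 ∧ ∀ x : ℝ, kap n x = ∑ i ∈ Finset.range n, c i * x ^ i) ∧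
  ∀ ν : ℕ → ℝ → ℝ, NN n ν → ∀ x : ℝ, kap n x = ∑ k ∈ Finset.range (2 * n), ν k x

/-- MODULE PR (200 lines). The bilinear product formula, paired with `H`.
Proof: for `f` continuous with compact support, for every `y` (all integrands bounded with compact support)
`|B f(y)|² = |f(y)|² + 2(-1)^n ∫_d p_n(e^{-d}) Re(f(y) conj f(y+d)) + ∫∫_{u,u'>0} p_n(e^{-u}) p_n(e^{-u'}) f(y+u) conj f(y+u')`,
and the double integral is `2 Re` of the part `u < u'`, where `u = v`, `u' = v+d`.  With `f = e^{-y/4} g`: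
`f(y) conj f(y+d) = e^{-y/2-d/4} g(y) conj g(y+d)`.  Multiply by `e^{y/2} H(y)`, integrate in `y` (Fubini) and
substitute `y+v → y`. -/
def StPR : Prop := ∀ (n : ℕ) (g : ℝ → ℂ) (H : ℝ → ℝ), Continuous g → HasCompactSupport g →
  Continuous H → HasCompactSupport H →
  ∫ y, Real.exp (y / 2) * ‖Bop n (fun x => (Real.exp (-x / 4) : ℂ) * g x) y‖ ^ 2 * H y =
    (∫ y, ‖g y‖ ^ 2 * H y) +
      2 * ∫ d in Ioi (0 : ℝ), Real.exp (-d / 4) *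
        ∫ y, (g y * (starRingEnd ℂ) (g (y + d))).re * Tst n d H y

/-- MODULE AV (150 lines; from `StPR`). Average over `t`.
Proof: `StPR` with `g(y) = G(y) e^{it(y/4-log|G(y)|)}` (continuous, also at the zeros of `G`; `|g| = |G|`),
`Re(g(y) conj g(y+d)) = Re(G(y) conj G(y+d) e^{-itr}) = Re(..) cos(tr) + Im(..) sin(tr)`, `r = log|G(y)|-log|G(y+d)|+d/4`;
multiply by `W t`, integrate, Fubini; the `sin` part vanishes since `W` is even. -/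
def StAV : Prop := ∀ (n : ℕ) (W : ℝ → ℝ) (G : ℝ → ℂ) (H : ℝ → ℝ), Adm 1 W → Continuous G →
  HasCompactSupport G → Continuous H → HasCompactSupport H →
  Integrable (fun t => W t * ∫ y, Real.exp (y / 2) * ‖Bop n (ph t G) y‖ ^ 2 * H y) ∧
  ∫ t, W t * (∫ y, Real.exp (y / 2) * ‖Bop n (ph t G) y‖ ^ 2 * H y) =
    Wh 1 W 0 * (∫ y, ‖G y‖ ^ 2 * H y) +
      2 * ∫ d in Ioi (0 : ℝ), Real.exp (-d / 4) * ∫ y, kd W G d y * Tst n d H y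

/-- MODULE KD (90 lines). `‖k_d‖_2 ≤ Ŵ(d/4) ‖G‖_4²`.
Proof: `Wh_ptw` (Helper85/BPM/K2.lean), `β = 1`, `r = d/4`, `t = log|G(y)| - log|G(y+d)|`:
`|k_d(y)| ≤ ½ Aw(d/4) |G(y)|² + ½ Aw(-d/4) |G(y+d)|²` (if `G(y) G(y+d) = 0` the left side is `0`),
`½(Aw(r)+Aw(-r)) = Wh(r)` (cosine even, sine odd), and `∫(a u(y)²+b u(y+d)²)² ≤ (a+b)² ∫ u⁴`.
Also: `k_d` is measurable, bounded, with compact support. -/
def StKD : Prop := ∀ (W : ℝ → ℝ) (G : ℝ → ℂ) (d : ℝ), Adm 1 W → Continuous G → HasCompactSupport G →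
  Integrable (fun y => kd W G d y ^ 2) ∧ AEStronglyMeasurable (kd W G d) ∧
    ∫ y, kd W G d y ^ 2 ≤ Wh 1 W (d / 4) ^ 2 * ∫ y, ‖G y‖ ^ 4

/-- MODULE LY (70 lines). Layer cake. Proof: `ρ(d) = ∫_0^∞ 1[λ < ρ(d)] dλ`, Fubini; `{d > 0 : ρ(d) > λ}` is
empty, `Ioi D` or `Ici D` (`D ≥ 0`). -/
def StLY : Prop := ∀ (ρ φ : ℝ → ℝ), (∀ d, 0 < d → 0 ≤ ρ d) → MonotoneOn ρ (Ioi 0) →
  Continuous φ → IntegrableOn φ (Ioi 0) → IntegrableOn (fun d => ρ d * φ d) (Ioi 0) →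
  (∀ D, 0 ≤ D → 0 ≤ ∫ d in Ioi D, φ d) → 0 ≤ ∫ d in Ioi (0 : ℝ), ρ d * φ d

/-- MODULE TS (200 lines; from `StLY`, `StIS2`, `StKP`). The square function bound.
Proof: `Tst n d H = Σ_k ν_k(e^{-d}) Bst k H` (`NN.exp`, `NN.alt`), so `∫ (Tst n d H)² = Σ_{k,l} ν_k ν_l ⟨Bst k H, Bst l H⟩`,
`|⟨..⟩| ≤ ∫H²` (`StIS2`), `∫ ρ(d) e^{-d} ν_k(e^{-d}) ν_l(e^{-d}) ≥ 0` by `StLY` (tails: `x = e^{-d}` in `NN.pos`), and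
`Σ_k ν_k(e^{-d}) = kap n (e^{-d})`. -/
def StTS : Prop := ∀ (n : ℕ) (ν : ℕ → ℝ → ℝ) (ρ : ℝ → ℝ) (H : ℝ → ℝ), 1 ≤ n → NN n ν →
  (∀ d, 0 < d → 0 ≤ ρ d) → MonotoneOn ρ (Ioi 0) → IntegrableOn (fun d => ρ d * Real.exp (-d)) (Ioi 0) →
  Continuous H → HasCompactSupport H →
  (∀ d, 0 ≤ d → Continuous (Tst n d H) ∧ Integrable (fun y => Tst n d H y ^ 2)) ∧
  IntegrableOn (fun d => ρ d * Real.exp (-d) * ∫ y, Tst n d H y ^ 2) (Ioi 0) ∧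
  ∫ d in Ioi (0 : ℝ), ρ d * Real.exp (-d) * (∫ y, Tst n d H y ^ 2) ≤
    (∫ y, H y ^ 2) * ∫ d in Ioi (0 : ℝ), ρ d * Real.exp (-d) * kap n (Real.exp (-d)) ^ 2

/-- MODULE SC (120 lines; may use `StPF`, `StKP`). The scalar identity.
Proof: `mm n z = (-1)^n + Σ c_i/(z+i)`, `z = 1/4-it/4`, product with the conjugate `z' = 1/2 - z`... :
`1 + (-1)^n Σ c_i (1/(z+i)+1/(z'+i)) + Σ c_i c_j /((z+j)(z'+i))` and
`1/((z+j)(z'+i)) = (1/(z+j)+1/(z'+i)) / (i+j+1/2)`; each term is the corresponding integral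
(`∫_0^∞ e^{-d(z+j)} dd = 1/(z+j)`, `∫_0^∞ e^{-v(i+j+1/2)} dv = 1/(i+j+1/2)`). Second part: Fubini. -/
def StSC : Prop := ∀ (n : ℕ), 1 ≤ n →
  (∀ t : ℝ, ‖mm n (1 / 4 - Complex.I * (t : ℂ) / 4)‖ ^ 2 =
    1 + 2 * ∫ d in Ioi (0 : ℝ), Real.exp (-d / 4) * Real.cos (t * d / 4) * kap n (Real.exp (-d))) ∧
  ∀ W : ℝ → ℝ, Adm 1 W →
    IntegrableOn (fun d => Real.exp (-d / 4) * Wh 1 W (d / 4) * kap n (Real.exp (-d))) (Ioi 0) ∧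
    Wh 1 W 0 + 2 * ∫ d in Ioi (0 : ℝ), Real.exp (-d / 4) * Wh 1 W (d / 4) * kap n (Real.exp (-d)) =
      ∫ t, W t * ‖mm n (1 / 4 - Complex.I * (t : ℂ) / 4)‖ ^ 2

/-- MODULE WA (180 lines). The weight is admissible (model: `adm24`, Helper85/BPM/W2.lean).
Proof: with `Γ(z+1) = zΓ(z)`: `‖mm n (1/4-iτ/4)‖⁻² = |Γ(n+1/4+iτ/4)|² |Γ(3/4+iτ/4)|² / (|Γ(1/4+iτ/4)|² |Γ(n+3/4+iτ/4)|²)`,
`|Γ(1/4+iτ/4)|² |Γ(3/4+iτ/4)|² = 2π²/cosh(πτ/2)`, `|Γ(a+iτ/4)/Γ(a+1/2+iτ/4)|²` is `PD` (Beta integral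
`∫_0^1 x^{a-1+iτ/4}(1-x)^{-1/2} dx`, times its conjugate), `a = n+1/4`, `|Γ(3/4+iτ/4)|⁴` is `PD` (`PD_gamma`), and
`(1+τ²) P1 θ τ cosh(πτ/2) = (sin πθ/4) ((1+τ²)/cosh(πτ/2)) (1+(1-cos πθ)Q)`, `Q = 1/(cosh πτ+cos πθ)` `PD`
(`W2_Q`, `W2_threehalf`).  `‖mm‖ ≥ 1` gives `Wn ≤ P1` (integrability: `W2_int`).
Also `‖mm n (a)‖ ≥ 1` for `0 < Re a ≤ 1/2`. -/
def StWA : Prop :=
  (∀ (n : ℕ) (a : ℂ), 0 < a.re → a.re ≤ 1 / 2 → 1 ≤ ‖mm n a‖) ∧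
  ∀ (n : ℕ) (θ : ℝ), 0 < θ → θ < 1 → Adm 1 (Wn n θ)

/-- MODULE T4 (150 lines; from `StA3, StKP, StAV, StKD, StTS, StSC, StWA`). The `L⁴` square function estimate.
Proof: `StAV` with `W = Wn n θ`; `∫‖G‖²H ≤ ‖G‖_4² ‖H‖_2`; for `d > 0`:
`∫ k_d Tst n d H ≤ ‖k_d‖_2 ‖Tst n d H‖_2 ≤ Ŵ(d/4) ‖G‖_4² ‖Tst n d H‖_2` (`StKD`);
`∫ e^{-d/4} Ŵ(d/4) ‖Tst‖_2 dd ≤ (∫ e^{-d/4} Ŵ κ)^{1/2} (∫ e^{-d/4} Ŵ κ^{-1} ‖Tst‖²)^{1/2}`, `κ = kap n (e^{-d}) > 0`;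
the last integral is `∫ ρ e^{-d} ‖Tst‖²` with `ρ(d) = e^{3d/4} Ŵ(d/4)/κ`, nondecreasing because `κ` is nonincreasing in `d`
(`StKP`) and `(e^r Ŵ(r))' = e^r Aw 1 W r ≥ 0` (`Wh_ptw`); `StTS` gives `≤ ‖H‖² ∫ e^{-d/4} Ŵ κ`.  Total
`≤ ‖G‖_4² ‖H‖_2 (Ŵ(0) + 2∫ e^{-d/4} Ŵ κ) = ‖G‖_4² ‖H‖_2 ∫ W ‖mm‖² = θ ‖G‖_4² ‖H‖_2` (`StSC`, `P_mass`). -/
def StT4 : Prop := ∀ (n : ℕ) (θ : ℝ) (G : ℝ → ℂ) (H : ℝ → ℝ), 1 ≤ n → 0 < θ → θ < 1 →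
  Continuous G → HasCompactSupport G → Continuous H → HasCompactSupport H →
  Integrable (fun t => Wn n θ t * ∫ y, Real.exp (y / 2) * ‖Bop n (ph t G) y‖ ^ 2 * H y) ∧
  ∫ t, Wn n θ t * (∫ y, Real.exp (y / 2) * ‖Bop n (ph t G) y‖ ^ 2 * H y) ≤
    θ * Real.sqrt (∫ y, ‖G y‖ ^ 4) * Real.sqrt (∫ y, H y ^ 2)

/-- `a(z) = 1/2 - z/4`. -/
def az (z : ℂ) : ℂ := 1 / 2 - z / 4

/-- `f_z(y) = e^{-a(z)y} pw (p a(z)) (F y)`. -/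
def fz (p : ℝ) (F : ℝ → ℂ) (z : ℂ) (y : ℝ) : ℂ :=
  Complex.exp (-(az z) * y) * pw (p * az z) (F y)

/-- `g_z(y) = χ(y) e^{a(z)y} pw (p(1-a(z))) (conj (h y))`. -/
def gz (p : ℝ) (χ : ℝ → ℝ) (h : ℝ → ℂ) (z : ℂ) (y : ℝ) : ℂ :=
  ((χ y : ℝ) : ℂ) * Complex.exp (az z * y) * pw (p * (1 - az z)) ((starRingEnd ℂ) (h y))

/-- `Φ(z) = ∫ B_n f_z · g_z`. -/
def Phi (n : ℕ) (p : ℝ) (χ : ℝ → ℝ) (F h : ℝ → ℂ) (z : ℂ) : ℂ :=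
  ∫ y, Bop n (fz p F z) y * gz p χ h z y

/-- MODULE PZ (200 lines). `Φ` is continuous and bounded on the closed strip, holomorphic inside, and `pw`, `f_z`
are continuous in `y`.
Proof: for fixed `y` the integrands are entire in `z` (or zero when `F = 0`/`h = 0`), bounded uniformly for
`0 ≤ Re z ≤ 1`, locally uniformly Lipschitz; compact supports; `hasDerivAt_integral_of_dominated_loc_of_deriv_le`
or: continuity by dominated convergence and holomorphy by `differentiableOn_integral`-type results /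
Morera; `‖pw w c‖ = ‖c‖^{Re w}`. -/
def StPZ : Prop :=
  (∀ w : ℂ, 0 < w.re → Continuous (pw w)) ∧
  (∀ w c : ℂ, c ≠ 0 → ‖pw w c‖ = ‖c‖ ^ w.re) ∧
  ∀ (n : ℕ) (p : ℝ) (χ : ℝ → ℝ) (F h : ℝ → ℂ), 2 < p → p < 4 → Continuous χ → HasCompactSupport χ →
    Continuous F → HasCompactSupport F → Continuous h →
    ContinuousOn (Phi n p χ F h) {z : ℂ | 0 ≤ z.re ∧ z.re ≤ 1} ∧
    DifferentiableOn ℂ (Phi n p χ F h) {z : ℂ | 0 < z.re ∧ z.re < 1} ∧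
    ∃ C : ℝ, ∀ z : ℂ, 0 ≤ z.re → z.re ≤ 1 → ‖Phi n p χ F h z‖ ≤ C

/-- MODULE ST (200 lines; from `StT4`, `StPZ`, `StIS2`, `StWA`, `StPF`). Stein interpolation, `2 < p < 4`.
Proof: `θ = 2-4/p`, `F(y) = e^{y/p} f(y)`, `h₀ = Bop n f`, `h(y) = e^{y/p} h₀(y)`, `χ` a continuous cutoff `0 ≤ χ ≤ 1`,
`I = ∫ χ |h|^p`, `N = ∫ |F|^p`; `Φ(θ) = I`.  `H(z) = Φ(z)²/mm n (a(z))²` in `poisson_mul4` (Helper85/BS_P.lean),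
`‖mm‖ ≥ 1`.  `Re z = 0`: `|Φ|² ≤ ∫ ‖B f_z‖² e^y ∫ |g_z|² e^{-y} ≤ N I` (`StIS2`).  `Re z = 1`: `f_z = ph τ G`,
`G = pw (p/4) ∘ F`, `|Φ|² ≤ (∫ e^{y/2} ‖B f_z‖² H)(∫ χ |h|^p)`, `H = χ|h|^{p/2}`, `∫H² ≤ I`, `∫‖G‖⁴ = N`; `StT4` gives
`θ⁻¹ ∫ P1 |H(1+iτ)| ≤ N^{1/2} I^{3/2}`.  So `I²/C² ≤ (NI)^{1-θ} (N^{1/2} I^{3/2})^θ`, `C = Cn n (1/p)`, i.e. `I ≤ C^p N`
(`1-θ/2 = 2/p`; `0 < I < ∞`).  Then `χ ↑ 1` (monotone convergence). -/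
def StST : Prop := ∀ (n : ℕ) (p : ℝ) (f : ℝ → ℂ), 1 ≤ n → 2 < p → p < 4 → Continuous f →
  HasCompactSupport f →
  ∫⁻ y, ENNReal.ofReal (‖Bop n f y‖ ^ p * Real.exp y) ≤
    ENNReal.ofReal (Cn n (1 / p) ^ p) * ∫⁻ y, ENNReal.ofReal (‖f y‖ ^ p * Real.exp y)

/-- MODULE EN (150 lines; from `StST`, `StIS2`). End points and general `f`.
Proof: `p = 2`: `StIS2` (`Cn n (1/2) = 1`); `p = 4`: Fatou as `p ↑ 4` (right side: dominated convergence, `f` bounded with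
compact support); general `f`: `f_R = χ_R f`, `Bop n f_R y → Bop n f y` (dominated by `C‖f(y+u)‖`), Fatou, `|f_R| ≤ |f|`. -/
def StEN : Prop := ∀ (n : ℕ) (p : ℝ) (f : ℝ → ℂ), 1 ≤ n → 2 ≤ p → p ≤ 4 → Continuous f →
  (∀ y, IntegrableOn (fun u => f (y + u)) (Ioi 0)) →
  ∫⁻ y, ENNReal.ofReal (‖Bop n f y‖ ^ p * Real.exp y) ≤
    ENNReal.ofReal (Cn n (1 / p) ^ p) * ∫⁻ y, ENNReal.ofReal (‖f y‖ ^ p * Real.exp y)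

/-- MODULE NU (60 lines). `C_n(1/p) ≤ n^{1-2/p}(p-1)`, and `Cn` is the quotient of rising factorials.
Proof: induction on `n`; `(n+1-a)/(n+a) ≤ ((n+1)/n)^{1-2a}` for `0 < a ≤ 1/2`, `n ≥ 1`: with `x = 1-2a ∈ [0,1)`,
`log((2n+1+x)/(2n+1-x))` is convex in `x`, `0` at `0` and `log((n+1)/n)` at `x = 1`. -/
def StNU : Prop := ∀ (n : ℕ) (p : ℝ), 1 ≤ n → 2 ≤ p → Cn n (1 / p) ≤ (n : ℝ) ^ (1 - 2 / p) * (p - 1)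

end Helper69.CR
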