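import Pool.Agent.Helper69.CR.St
import Pool.Agent.Helper5.BAM.C

/-!
# MP_3dd6d4_an, project CR, module A2: moments, independence and spanning of the `p_k`
-/

set_option autoImplicit false

noncomputable section

namespace Helper69.CR

open Polynomial

theorem pc_ne_zero_A2 (k i : ℕ) : pc k i ≠ 0 := by
  unfold pc
  positivity

/-- `p_k` as a polynomial -/
def PP_A2 (k : ℕ) : ℝ[X] := ∑ i ∈ Finset.range k, C (pc k i) * X ^ i

theorem eval_PP_A2 (k : ℕ) (s : ℝ) : (PP_A2 k).eval s = pp k s := by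
  unfold PP_A2 pp
  rw [eval_finsetSum]
  refine Finset.sum_congr rfl fun i _ => ?_
  rw [eval_mul, eval_C, eval_pow, eval_X]

theorem coeff_PP_A2 (k j : ℕ) : (PP_A2 k).coeff j = if j < k then pc k j else 0 := by
  unfold PP_A2
  rw [finsetSum_coeff]
  simp only [coeff_C_mul_X_pow]
  rw [Finset.sum_ite_eq]
  simp only [Finset.mem_range]

theorem indep_A2 (M : ℕ) : ∀ a : ℕ → ℝ, (∀ s : ℝ, ∑ k ∈ Finset.range M, a k * pp k s = 0) →
    ∀ k, 1 ≤ k → k < M → a k = 0 := by
  induction M with
  | zero => intro a _ k _ hk; exact absurd hk (Nat.not_lt_zero k)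
  | succ M ih =>
    intro a h k hk1 hk
    have hM : 1 ≤ M := by omega
    have hP : ∑ k ∈ Finset.range (M + 1), C (a k) * PP_A2 k = 0 := by
      refine Polynomial.funext fun s => ?_
      rw [eval_finsetSum, eval_zero, ← h s]
      refine Finset.sum_congr rfl fun i _ => ?_
      rw [eval_mul, eval_C, eval_PP_A2]
    have hc := congrArg (fun P : ℝ[X] => P.coeff (M - 1)) hP
    simp only [finsetSum_coeff, coeff_C_mul, coeff_PP_A2, coeff_zero] at hc
    rw [Finset.sum_range_succ] at hc
    have h0 : ∑ x ∈ Finset.range M, a x * (if M - 1 < x then pc x (M - 1) else 0) = 0 := by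
      refine Finset.sum_eq_zero fun x hx => ?_
      have hx' := Finset.mem_range.1 hx
      rw [if_neg (by omega), mul_zero]
    rw [h0, zero_add, if_pos (by omega)] at hc
    have haM : a M = 0 := (mul_eq_zero.1 hc).resolve_right (pc_ne_zero_A2 _ _)
    rcases Nat.lt_or_ge k M with hkM | hkM
    · refine ih a (fun s => ?_) k hk1 hkM
      have h1 := h s
      rw [Finset.sum_range_succ, haM, zero_mul, add_zero] at h1
      exact h1
    · have : k = M := by omega
      rw [this]
      exact haM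

theorem span_A2 (m : ℕ) : ∀ Q : ℝ[X], (∀ j, m ≤ j → Q.coeff j = 0) → ∃ a : ℕ → ℝ, a 0 = 0 ∧
    ∀ s : ℝ, Q.eval s = ∑ k ∈ Finset.range (m + 1), a k * pp k s := by
  induction m with
  | zero =>
    intro Q hQ
    have h0 : Q = 0 := by
      ext j
      rw [hQ j (Nat.zero_le j), coeff_zero]
    refine ⟨fun _ => 0, rfl, fun s => ?_⟩
    rw [h0, eval_zero]
    simp
  | succ m ih =>
    intro Q hQ
    obtain ⟨a, ha0, ha⟩ := ih (Q - C (Q.coeff m / pc (m + 1) m) * PP_A2 (m + 1)) (by
      intro j hj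
      rw [coeff_sub, coeff_C_mul, coeff_PP_A2]
      rcases Nat.eq_or_lt_of_le hj with h | h
      · rw [← h, if_pos (Nat.lt_succ_self m), div_mul_cancel₀ _ (pc_ne_zero_A2 _ _), sub_self]
      · rw [hQ j h, if_neg (by omega), mul_zero, sub_zero])
    refine ⟨fun k => if k = m + 1 then Q.coeff m / pc (m + 1) m else a k, ?_, fun s => ?_⟩
    · show (if 0 = m + 1 then Q.coeff m / pc (m + 1) m else a 0) = 0
      rw [if_neg (by omega)]
      exact ha0
    · rw [Finset.sum_range_succ]
      beta_reduce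
      rw [if_pos rfl]
      have h1 : ∑ x ∈ Finset.range (m + 1),
          (if x = m + 1 then Q.coeff m / pc (m + 1) m else a x) * pp x s =
          ∑ x ∈ Finset.range (m + 1), a x * pp x s := by
        refine Finset.sum_congr rfl fun x hx => ?_
        have hx' := Finset.mem_range.1 hx
        rw [if_neg (by omega)]
      rw [h1, ← ha s, eval_sub, eval_mul, eval_C, eval_PP_A2, sub_add_cancel]

theorem hA2 (hKR : StKR) : StA2 := by
  refine ⟨fun n i hi => ?_, fun M a h => indep_A2 M a h, fun n i hi => ?_⟩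
  · have h := Pool.Agent.Helper68.BA.rc_cauchy 0 le_rfl n i hi
    have h1 : ∑ j ∈ Finset.range n, Pool.Agent.Helper68.BA.rc 0 n j / (2 * 0 + 1 + (j : ℝ) + i) =
        -(-1) ^ n * ∑ j ∈ Finset.range n, pc n j / ((i : ℝ) + j + 1) := by
      rw [Finset.mul_sum]
      refine Finset.sum_congr rfl fun j hj => ?_
      rw [hKR.1 n j (Finset.mem_range.1 hj), mul_div_assoc]
      congr 2
      ring
    rw [h1] at h
    have h2 : ((-1 : ℝ) ^ n) * (-1) ^ n = 1 := by
      rw [← mul_pow]
      simp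
    calc ∑ j ∈ Finset.range n, pc n j / ((i : ℝ) + j + 1)
        = ((-1) ^ n * (-1) ^ n) * ∑ j ∈ Finset.range n, pc n j / ((i : ℝ) + j + 1) := by
          rw [h2, one_mul]
      _ = -(-1) ^ n * (-(-1) ^ n * ∑ j ∈ Finset.range n, pc n j / ((i : ℝ) + j + 1)) := by ring
      _ = (-1) ^ (n + 1) := by rw [h, mul_one, pow_succ]; ring
  · obtain ⟨a, ha0, ha⟩ := span_A2 (2 * n - 1) (PP_A2 n * X ^ i) (by
      intro j hj
      rw [coeff_mul_X_pow', coeff_PP_A2]
      rw [if_pos (by omega), if_neg (by omega)])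
    refine ⟨a, ha0, fun s => ?_⟩
    have h1 := ha s
    rw [eval_mul, eval_pow, eval_X, eval_PP_A2] at h1
    rw [h1]
    have h2 : 2 * n - 1 + 1 = 2 * n := by omega
    rw [h2]

end Helper69.CR
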