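import Pool.Agent.Helper69.CR.St

set_option autoImplicit false

open MeasureTheory Set Filter Topology

namespace Helper69.CR

private theorem pp_zero_A3 (s : ℝ) : pp 0 s = 0 := by
  unfold pp
  simp

private theorem pp_cont_A3 (k : ℕ) : Continuous (pp k) := by
  unfold pp
  fun_prop

/-- the integral of `p_k s^i` as a finite sum. -/
private theorem int_A3 (k i : ℕ) :
    ∫ s in (0 : ℝ)..1, pp k s * s ^ i = ∑ j ∈ Finset.range k, pc k j / ((i : ℝ) + j + 1) := by
  have h1 : ∀ s : ℝ, pp k s * s ^ i = ∑ j ∈ Finset.range k, pc k j * s ^ (j + i) := by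
    intro s
    unfold pp
    rw [Finset.sum_mul]
    refine Finset.sum_congr rfl fun j _ => ?_
    rw [pow_add]
    ring
  simp_rw [h1]
  rw [intervalIntegral.integral_finsetSum
    (fun j _ => (Continuous.intervalIntegrable (by fun_prop) _ _))]
  refine Finset.sum_congr rfl fun j _ => ?_
  rw [intervalIntegral.integral_const_mul, integral_pow]
  simp only [one_pow, ne_eq, Nat.add_eq_zero_iff, one_ne_zero, and_false, not_false_eq_true,
    zero_pow, sub_zero, Nat.cast_add]
  rw [mul_one_div]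
  congr 1
  ring

/-- the alternating sum of the coefficients. -/
private theorem alt_A3 (h2 : StA2) {n i : ℕ} (hi : i < n) {a : ℕ → ℝ} (ha0 : a 0 = 0)
    (ha : ∀ s : ℝ, pp n s * s ^ i = ∑ k ∈ Finset.range (2 * n), a k * pp k s) :
    ∑ k ∈ Finset.range (2 * n), (-1) ^ k * a k = (-1) ^ n := by
  obtain ⟨hm, -, -⟩ := h2
  have h3 : ∫ s in (0 : ℝ)..1, pp n s * s ^ i = (-1) ^ (n + 1) := by
    rw [int_A3, hm n i hi]
  have h4 : ∫ s in (0 : ℝ)..1, ∑ k ∈ Finset.range (2 * n), a k * pp k s =
      ∑ k ∈ Finset.range (2 * n), a k * (-1) ^ (k + 1) := by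
    rw [intervalIntegral.integral_finsetSum
      (fun k _ => ((pp_cont_A3 k).const_mul _ |>.intervalIntegrable _ _))]
    refine Finset.sum_congr rfl fun k _ => ?_
    rcases Nat.eq_zero_or_pos k with rfl | hk
    · simp [ha0]
    · rw [intervalIntegral.integral_const_mul]
      have h5 := int_A3 k 0
      simp only [pow_zero, mul_one] at h5
      rw [h5, hm k 0 hk]
  simp_rw [ha] at h3
  rw [h4] at h3
  have h6 : ∑ k ∈ Finset.range (2 * n), (-1 : ℝ) ^ k * a k =
      -∑ k ∈ Finset.range (2 * n), a k * (-1) ^ (k + 1) := by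
    rw [← Finset.sum_neg_distrib]
    refine Finset.sum_congr rfl fun k _ => ?_
    rw [pow_succ]
    ring
  rw [h6, h3, pow_succ]
  ring

/-- independence, bilinear form. -/
private theorem indep_A3 (h2 : StA2) {M : ℕ} {A B : ℕ → ℕ → ℝ}
    (h : ∀ s t : ℝ, ∑ k ∈ Finset.range M, ∑ l ∈ Finset.range M, A k l * (pp k s * pp l t) =
      ∑ k ∈ Finset.range M, ∑ l ∈ Finset.range M, B k l * (pp k s * pp l t)) :
    ∀ k l : ℕ, 1 ≤ k → k < M → 1 ≤ l → l < M → A k l = B k l := by
  obtain ⟨-, hi, -⟩ := h2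
  intro k l hk hkM hl hlM
  have h3 : ∀ t : ℝ, ∑ l ∈ Finset.range M, (A k l - B k l) * pp l t = 0 := by
    intro t
    refine hi M (fun k => ∑ l ∈ Finset.range M, (A k l - B k l) * pp l t) ?_ k hk hkM
    intro s
    have h4 : ∑ k ∈ Finset.range M, (∑ l ∈ Finset.range M, (A k l - B k l) * pp l t) * pp k s =
        ∑ k ∈ Finset.range M, ∑ l ∈ Finset.range M, A k l * (pp k s * pp l t) -
          ∑ k ∈ Finset.range M, ∑ l ∈ Finset.range M, B k l * (pp k s * pp l t) := by
      rw [← Finset.sum_sub_distrib]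
      refine Finset.sum_congr rfl fun k _ => ?_
      rw [← Finset.sum_sub_distrib, Finset.sum_mul]
      refine Finset.sum_congr rfl fun l _ => ?_
      ring
    rw [h4, h s t, sub_self]
  have h5 : A k l - B k l = 0 := hi M (fun l => A k l - B k l) h3 l hl hlM
  linarith

/-- the product of two expansions. -/
private theorem prod_A3 {M : ℕ} (a b : ℕ → ℝ) (s t : ℝ) :
    (∑ k ∈ Finset.range M, a k * pp k s) * (∑ l ∈ Finset.range M, b l * pp l t) =
      ∑ k ∈ Finset.range M, ∑ l ∈ Finset.range M, (a k * b l) * (pp k s * pp l t) := by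
  rw [Finset.sum_mul_sum]
  refine Finset.sum_congr rfl fun k _ => Finset.sum_congr rfl fun l _ => ?_
  ring

/-- the key identity. -/
private theorem key_A3 (h1 : StA1) {n : ℕ} {ν : ℕ → ℝ → ℝ} (hc : ∀ k, Continuous (ν k))
    (hexp : ∀ s x : ℝ, pp n s * pp n (s * x) = ∑ k ∈ Finset.range (2 * n), ν k x * pp k s)
    {q : ℕ → ℕ → ℝ} {T : ℝ}
    (hq : ∀ j < n, ∀ s : ℝ, pp n s * LL j (s * T) = ∑ k ∈ Finset.range (2 * n), q j k * pp k s)
    (s t : ℝ) :
    ∑ k ∈ Finset.range (2 * n), ∑ l ∈ Finset.range (2 * n),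
      (∫ x in (0 : ℝ)..T, ν k x * ν l x) * (pp k s * pp l t) =
    ∑ k ∈ Finset.range (2 * n), ∑ l ∈ Finset.range (2 * n),
      (T * ∑ j ∈ Finset.range n, (2 * (j : ℝ) + 1) * (q j k * q j l)) * (pp k s * pp l t) := by
  have hL : ∑ k ∈ Finset.range (2 * n), ∑ l ∈ Finset.range (2 * n),
      (∫ x in (0 : ℝ)..T, ν k x * ν l x) * (pp k s * pp l t) =
      ∫ x in (0 : ℝ)..T, (pp n s * pp n (s * x)) * (pp n t * pp n (t * x)) := by
    have h3 : ∀ x : ℝ, (pp n s * pp n (s * x)) * (pp n t * pp n (t * x)) =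
        ∑ k ∈ Finset.range (2 * n), ∑ l ∈ Finset.range (2 * n),
          (ν k x * ν l x) * (pp k s * pp l t) := by
      intro x
      rw [hexp s x, hexp t x, prod_A3]
    simp_rw [h3]
    rw [intervalIntegral.integral_finsetSum]
    · refine Finset.sum_congr rfl fun k _ => ?_
      rw [intervalIntegral.integral_finsetSum]
      · refine Finset.sum_congr rfl fun l _ => ?_
        rw [intervalIntegral.integral_mul_const]
      · intro l _
        exact (((hc k).mul (hc l)).mul_const _).intervalIntegrable _ _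
    · intro k _
      refine Continuous.intervalIntegrable ?_ _ _
      exact continuous_finsetSum _ fun l _ => ((hc k).mul (hc l)).mul_const _
  have hR : ∫ x in (0 : ℝ)..T, (pp n s * pp n (s * x)) * (pp n t * pp n (t * x)) =
      T * ∑ j ∈ Finset.range n, (2 * (j : ℝ) + 1) *
        ((pp n s * LL j (s * T)) * (pp n t * LL j (t * T))) := by
    have h3 : ∫ x in (0 : ℝ)..T, (pp n s * pp n (s * x)) * (pp n t * pp n (t * x)) =
        T * ∫ y in (0 : ℝ)..1, (pp n s * pp n (s * (T * y))) * (pp n t * pp n (t * (T * y))) := by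
      have h4 := intervalIntegral.mul_integral_comp_mul_left
        (f := fun x : ℝ => (pp n s * pp n (s * x)) * (pp n t * pp n (t * x))) (a := 0) (b := 1) T
      rw [h4]
      simp
    rw [h3]
    have h5 : ∫ y in (0 : ℝ)..1,
        (pp n s * pp n (s * (T * y))) * (pp n t * pp n (t * (T * y))) =
        (pp n s * pp n t) * ∫ y in (0 : ℝ)..1, pp n ((s * T) * y) * pp n ((t * T) * y) := by
      rw [← intervalIntegral.integral_const_mul]
      refine intervalIntegral.integral_congr fun y _ => ?_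
      simp only [mul_assoc]
      ring
    rw [h5, h1 n (s * T) (t * T), Finset.mul_sum]
    congr 1
    refine Finset.sum_congr rfl fun j _ => ?_
    ring
  rw [hL, hR]
  have h6 : ∀ j ∈ Finset.range n, (2 * (j : ℝ) + 1) *
      ((pp n s * LL j (s * T)) * (pp n t * LL j (t * T))) =
      ∑ k ∈ Finset.range (2 * n), ∑ l ∈ Finset.range (2 * n),
        ((2 * (j : ℝ) + 1) * (q j k * q j l)) * (pp k s * pp l t) := by
    intro j hj
    rw [hq j (Finset.mem_range.1 hj) s, hq j (Finset.mem_range.1 hj) t, prod_A3, Finset.mul_sum]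
    refine Finset.sum_congr rfl fun k _ => ?_
    rw [Finset.mul_sum]
    refine Finset.sum_congr rfl fun l _ => ?_
    ring
  rw [Finset.sum_congr rfl h6, Finset.sum_comm, Finset.mul_sum]
  refine Finset.sum_congr rfl fun k _ => ?_
  rw [Finset.sum_comm, Finset.mul_sum]
  refine Finset.sum_congr rfl fun l _ => ?_
  rw [← Finset.sum_mul]
  ring

theorem hA3 (hQ : StQ) (h1 : StA1) (h2 : StA2) : StA3 := by
  intro n hn
  have h3 := h2.2.2 n
  choose! a ha0 ha using h3
  let ν : ℕ → ℝ → ℝ := fun k x => ∑ i ∈ Finset.range n, pc n i * a i k * x ^ i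
  have hz : ∀ x, ν 0 x = 0 := by
    intro x
    refine Finset.sum_eq_zero fun i hi => ?_
    rw [ha0 i (Finset.mem_range.1 hi)]
    ring
  have hc : ∀ k, Continuous (ν k) := by
    intro k
    exact continuous_finsetSum _ fun i _ => continuous_const.mul (continuous_pow i)
  have hexp : ∀ s x : ℝ, pp n s * pp n (s * x) =
      ∑ k ∈ Finset.range (2 * n), ν k x * pp k s := by
    intro s x
    have e1 : pp n (s * x) = ∑ i ∈ Finset.range n, pc n i * (s * x) ^ i := rfl
    rw [e1, Finset.mul_sum]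
    have e2 : ∀ i ∈ Finset.range n, pp n s * (pc n i * (s * x) ^ i) =
        ∑ k ∈ Finset.range (2 * n), (pc n i * a i k * x ^ i) * pp k s := by
      intro i hi
      have e3 : pp n s * (pc n i * (s * x) ^ i) = (pc n i * x ^ i) * (pp n s * s ^ i) := by
        rw [mul_pow]
        ring
      rw [e3, ha i (Finset.mem_range.1 hi) s, Finset.mul_sum]
      refine Finset.sum_congr rfl fun k _ => ?_
      ring
    rw [Finset.sum_congr rfl e2, Finset.sum_comm]
    refine Finset.sum_congr rfl fun k _ => ?_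
    rw [← Finset.sum_mul]
  refine ⟨ν, hz, hc, hexp, ?_, ?_⟩
  · intro x
    have e1 : ∑ k ∈ Finset.range (2 * n), (-1 : ℝ) ^ k * ν k x =
        ∑ i ∈ Finset.range n, (pc n i * x ^ i) *
          ∑ k ∈ Finset.range (2 * n), (-1 : ℝ) ^ k * a i k := by
      simp only [ν, Finset.mul_sum]
      rw [Finset.sum_comm]
      refine Finset.sum_congr rfl fun i _ => Finset.sum_congr rfl fun k _ => ?_
      ring
    rw [e1]
    have e2 : pp n x = ∑ i ∈ Finset.range n, pc n i * x ^ i := rfl
    rw [e2, Finset.mul_sum]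
    refine Finset.sum_congr rfl fun i hi => ?_
    have hi' := Finset.mem_range.1 hi
    rw [alt_A3 h2 hi' (ha0 i hi') (ha i hi')]
    ring
  · intro k l hk hl T hT0 hT1
    rcases Nat.eq_zero_or_pos k with rfl | hk0
    · simp [hz]
    rcases Nat.eq_zero_or_pos l with rfl | hl0
    · simp [hz]
    have h4 : ∀ j, j < n → ∃ q : ℕ → ℝ, (∀ k, 0 ≤ q k) ∧
        ∀ s : ℝ, pp n s * LL j (s * T) = ∑ k ∈ Finset.range (2 * n), q k * pp k s :=
      fun j hj => hQ n hn j hj T hT0 hT1
    choose! q hq0 hq using h4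
    have h5 := indep_A3 (A := fun k l => ∫ x in (0 : ℝ)..T, ν k x * ν l x)
      (B := fun k l => T * ∑ j ∈ Finset.range n, (2 * (j : ℝ) + 1) * (q j k * q j l)) h2
      (fun s t => key_A3 h1 hc hexp hq s t) k l hk0 hk hl0 hl
    rw [h5]
    refine mul_nonneg hT0 (Finset.sum_nonneg fun j hj => ?_)
    have hj' := Finset.mem_range.1 hj
    exact mul_nonneg (by positivity) (mul_nonneg (hq0 j hj' k) (hq0 j hj' l))

end Helper69.CR
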