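import Pool.Agent.Helper69.CR.St
import Pool.Agent.Helper85.BPM.K3

/-!
# MP_3dd6d4_an, project CR, module AV: average over `t`
-/

set_option autoImplicit false

open MeasureTheory Set Filter Topology

noncomputable section

namespace Helper69.CR

open Helper85.BP

/-- `g_t` -/
private def gt_AV (t : ℝ) (G : ℝ → ℂ) (y : ℝ) : ℂ :=
  G y * Complex.exp (Complex.I * ((t * (y / 4 - Real.log ‖G y‖) : ℝ) : ℂ))

private lemma norm_gt_AV (t : ℝ) (G : ℝ → ℂ) (y : ℝ) : ‖gt_AV t G y‖ = ‖G y‖ := by
  unfold gt_AV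
  rw [norm_mul, mul_comm Complex.I, Complex.norm_exp_ofReal_mul_I, mul_one]

private lemma cont_gt_AV (t : ℝ) (G : ℝ → ℂ) (hG : Continuous G) : Continuous (gt_AV t G) := by
  rw [continuous_iff_continuousAt]
  intro y
  by_cases h : G y = 0
  · have h0 : gt_AV t G y = 0 := by unfold gt_AV; rw [h, zero_mul]
    have h1 : Tendsto (fun x => ‖gt_AV t G x‖) (𝓝 y) (𝓝 0) := by
      have h2 : Tendsto (fun x => ‖G x‖) (𝓝 y) (𝓝 ‖G y‖) := (hG.norm).continuousAt
      rw [h, norm_zero] at h2
      refine h2.congr fun x => ?_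
      rw [norm_gt_AV]
    unfold ContinuousAt
    rw [h0]
    exact tendsto_zero_iff_norm_tendsto_zero.2 h1
  · have h1 : ContinuousAt (fun x => Real.log ‖G x‖) y :=
      (hG.norm.continuousAt).log (norm_ne_zero_iff.2 h)
    unfold gt_AV
    refine (hG.continuousAt).mul ?_
    refine Complex.continuous_exp.continuousAt.comp ?_
    refine continuousAt_const.mul ?_
    refine Complex.continuous_ofReal.continuousAt.comp ?_
    exact continuousAt_const.mul (((continuousAt_id).div_const 4).sub h1)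

private lemma supp_gt_AV (t : ℝ) (G : ℝ → ℂ) (hc : HasCompactSupport G) :
    HasCompactSupport (gt_AV t G) := by
  refine hc.mono fun y hy => ?_
  rw [Function.mem_support] at hy ⊢
  intro h
  apply hy
  unfold gt_AV
  rw [h, zero_mul]

/-- the phase -/
private def r_AV (G : ℝ → ℂ) (d y : ℝ) : ℝ := Real.log ‖G y‖ - Real.log ‖G (y + d)‖ + d / 4

private def A_AV (G : ℝ → ℂ) (d y : ℝ) : ℝ := (G y * (starRingEnd ℂ) (G (y + d))).re

private def B_AV (G : ℝ → ℂ) (d y : ℝ) : ℝ := (G y * (starRingEnd ℂ) (G (y + d))).im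

private lemma re_AV (t : ℝ) (G : ℝ → ℂ) (d y : ℝ) :
    (gt_AV t G y * (starRingEnd ℂ) (gt_AV t G (y + d))).re =
      A_AV G d y * Real.cos (t * r_AV G d y) + B_AV G d y * Real.sin (t * r_AV G d y) := by
  have h1 : gt_AV t G y * (starRingEnd ℂ) (gt_AV t G (y + d)) =
      (G y * (starRingEnd ℂ) (G (y + d))) *
        Complex.exp (((-(t * r_AV G d y) : ℝ) : ℂ) * Complex.I) := by
    unfold gt_AV r_AV
    rw [map_mul, ← Complex.exp_conj, map_mul, Complex.conj_I, Complex.conj_ofReal]
    rw [mul_mul_mul_comm, ← Complex.exp_add]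
    congr 2
    push_cast
    ring
  rw [h1, Complex.exp_mul_I, Complex.mul_re]
  rw [← Complex.ofReal_cos, ← Complex.ofReal_sin]
  have h2 : ((Real.cos (-(t * r_AV G d y)) : ℂ) + (Real.sin (-(t * r_AV G d y)) : ℂ) * Complex.I).re
      = Real.cos (t * r_AV G d y) := by
    rw [Complex.add_re, Complex.ofReal_re, Complex.mul_re, Complex.ofReal_re, Complex.ofReal_im,
      Complex.I_re, Complex.I_im, Real.cos_neg]
    ring
  have h3 : ((Real.cos (-(t * r_AV G d y)) : ℂ) + (Real.sin (-(t * r_AV G d y)) : ℂ) * Complex.I).im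
      = -Real.sin (t * r_AV G d y) := by
    rw [Complex.add_im, Complex.ofReal_im, Complex.mul_im, Complex.ofReal_re, Complex.ofReal_im,
      Complex.I_re, Complex.I_im, Real.sin_neg]
    ring
  rw [h2, h3]
  unfold A_AV B_AV
  ring

private lemma cont_pp_AV (n : ℕ) : Continuous (pp n) := by
  unfold pp
  fun_prop

private lemma bd_pp_AV (n : ℕ) (s : ℝ) (h0 : 0 ≤ s) (h1 : s ≤ 1) :
    |pp n s| ≤ ∑ i ∈ Finset.range n, |pc n i| := by
  unfold pp
  refine (Finset.abs_sum_le_sum_abs _ _).trans (Finset.sum_le_sum fun i _ => ?_)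
  rw [abs_mul, abs_of_nonneg (pow_nonneg h0 i)]
  exact mul_le_of_le_one_right (abs_nonneg _) (pow_le_one₀ h0 h1)

private lemma meas_T_AV (n : ℕ) (H : ℝ → ℝ) (hH : Continuous H) :
    StronglyMeasurable (fun z : ℝ × ℝ => Tst n (max z.1 0) H z.2) := by
  have h1 : StronglyMeasurable (fun z : ℝ × ℝ => Tst n z.1 H z.2) := by
    unfold Tst
    refine StronglyMeasurable.add ?_ ?_
    · have : Continuous (fun z : ℝ × ℝ => (-1) ^ n * pp n (Real.exp (-z.1)) * H z.2) := by
        have := cont_pp_AV n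
        fun_prop
      exact this.stronglyMeasurable
    · have h2 : Continuous (fun z : (ℝ × ℝ) × ℝ => pp n (Real.exp (-z.2)) *
          pp n (Real.exp (-z.2) * Real.exp (-z.1.1)) * Real.exp (-z.2 / 2) * H (z.1.2 - z.2)) := by
        have := cont_pp_AV n
        fun_prop
      exact h2.stronglyMeasurable.integral_prod_right
  exact h1.comp_measurable (g := fun z : ℝ × ℝ => (max z.1 0, z.2))
    ((measurable_fst.max measurable_const).prodMk measurable_snd)

private lemma bd_T_AV (n : ℕ) (H : ℝ → ℝ) (MH : ℝ) (hM : ∀ y, |H y| ≤ MH) :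
    ∃ C, 0 ≤ C ∧ ∀ d y, |Tst n (max d 0) H y| ≤ C := by
  obtain ⟨P, hP⟩ : ∃ P, P = ∑ i ∈ Finset.range n, |pc n i| := ⟨_, rfl⟩
  have hP0 : 0 ≤ P := by rw [hP]; exact Finset.sum_nonneg fun _ _ => abs_nonneg _
  have hMH0 : 0 ≤ MH := (abs_nonneg _).trans (hM 0)
  have hint : IntegrableOn (fun v : ℝ => P * P * MH * Real.exp (-(1 / 2) * v)) (Ioi 0) :=
    (exp_neg_integrableOn_Ioi 0 (by norm_num : (0 : ℝ) < 1 / 2)).const_mul _
  refine ⟨P * MH + ∫ v in Ioi (0 : ℝ), P * P * MH * Real.exp (-(1 / 2) * v), ?_, ?_⟩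
  · have : 0 ≤ ∫ v in Ioi (0 : ℝ), P * P * MH * Real.exp (-(1 / 2) * v) :=
      setIntegral_nonneg measurableSet_Ioi fun v _ => by positivity
    positivity
  · intro d y
    have hd : 0 ≤ max d 0 := le_max_right _ _
    have he : ∀ x : ℝ, 0 ≤ x → Real.exp (-x) ≤ 1 := fun x hx =>
      Real.exp_le_one_iff.2 (by linarith)
    unfold Tst
    refine (abs_add_le _ _).trans (add_le_add ?_ ?_)
    · rw [abs_mul, abs_mul, abs_pow, abs_neg, abs_one, one_pow, one_mul]
      refine mul_le_mul ?_ (hM y) (abs_nonneg _) hP0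
      rw [hP]
      exact bd_pp_AV n _ (Real.exp_pos _).le (he _ hd)
    · rw [← Real.norm_eq_abs]
      refine norm_integral_le_of_norm_le hint ?_
      refine (ae_restrict_iff' measurableSet_Ioi).2 (Eventually.of_forall fun v hv => ?_)
      have hv0 : 0 ≤ v := le_of_lt hv
      rw [Real.norm_eq_abs, abs_mul, abs_mul, abs_mul, abs_of_pos (Real.exp_pos (-v / 2))]
      have e1 : Real.exp (-(1 / 2) * v) = Real.exp (-v / 2) := by congr 1; ring
      rw [e1]
      have b1 : |pp n (Real.exp (-v))| ≤ P := by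
        rw [hP]; exact bd_pp_AV n _ (Real.exp_pos _).le (he _ hv0)
      have b2 : |pp n (Real.exp (-v) * Real.exp (-max d 0))| ≤ P := by
        rw [hP]
        refine bd_pp_AV n _ (by positivity) ?_
        exact mul_le_one₀ (he _ hv0) (Real.exp_pos _).le (he _ hd)
      calc |pp n (Real.exp (-v))| * |pp n (Real.exp (-v) * Real.exp (-max d 0))| *
            Real.exp (-v / 2) * |H (y - v)|
          ≤ P * P * Real.exp (-v / 2) * MH := by
            have := hM (y - v)
            gcongr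
        _ = P * P * MH * Real.exp (-v / 2) := by ring

private lemma odd_AV (W : ℝ → ℝ) (hW : ∀ τ, W (-τ) = W τ) (r : ℝ) :
    ∫ t, W t * Real.sin (t * r) = 0 := by
  have h1 : ∫ t, W t * Real.sin (t * r) = ∫ t, -(W t * Real.sin (t * r)) := by
    rw [← integral_neg_eq_self (fun t => W t * Real.sin (t * r))]
    refine integral_congr_ae (Eventually.of_forall fun t => ?_)
    simp only [hW, neg_mul, Real.sin_neg]
    ring
  rw [integral_neg] at h1
  linarith

theorem hAV (hPR : StPR) : StAV := by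
  intro n W G H hW hG hGc hH hHc
  have hWi : Integrable W := Helper85.BP.P.K3_W_int 1 W hW
  obtain ⟨MG, hMG⟩ : ∃ M, ∀ y, ‖G y‖ ≤ M := hGc.exists_bound_of_continuous hG
  obtain ⟨MH, hMH⟩ : ∃ M, ∀ y, ‖H y‖ ≤ M := hHc.exists_bound_of_continuous hH
  have hMG0 : 0 ≤ MG := (norm_nonneg _).trans (hMG 0)
  obtain ⟨C, hC0, hC⟩ := bd_T_AV n H MH (fun y => by simpa [Real.norm_eq_abs] using hMH y)
  have hTm := meas_T_AV n H hH
  have hGi : Integrable (fun y => ‖G y‖) := (hG.integrable_of_hasCompactSupport hGc).norm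
  obtain ⟨ν, hν⟩ : ∃ ν : Measure (ℝ × ℝ), ν = ((volume : Measure ℝ).restrict (Ioi 0)).prod volume :=
    ⟨_, rfl⟩
  haveI : SFinite ν := by rw [hν]; infer_instance
  -- the integrand
  obtain ⟨Q, hQ⟩ : ∃ Q : ℝ → ℝ × ℝ → ℝ, Q = fun t z => Real.exp (-z.1 / 4) *
      ((A_AV G z.1 z.2 * Real.cos (t * r_AV G z.1 z.2) +
        B_AV G z.1 z.2 * Real.sin (t * r_AV G z.1 z.2)) * Tst n (max z.1 0) H z.2) := ⟨_, rfl⟩
  have hrm : Measurable (fun z : ℝ × ℝ => r_AV G z.1 z.2) := by
    unfold r_AV
    have h1 : Measurable (fun z : ℝ × ℝ => ‖G z.2‖) := (hG.norm.comp continuous_snd).measurable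
    have h2 : Measurable (fun z : ℝ × ℝ => ‖G (z.2 + z.1)‖) :=
      (hG.norm.comp (continuous_snd.add continuous_fst)).measurable
    exact ((Real.measurable_log.comp h1).sub (Real.measurable_log.comp h2)).add
      (measurable_fst.div_const 4)
  have hAc : Continuous (fun z : ℝ × ℝ => A_AV G z.1 z.2) := by
    unfold A_AV
    exact Complex.continuous_re.comp ((hG.comp continuous_snd).mul
      (Complex.continuous_conj.comp (hG.comp (continuous_snd.add continuous_fst))))
  have hBc : Continuous (fun z : ℝ × ℝ => B_AV G z.1 z.2) := by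
    unfold B_AV
    exact Complex.continuous_im.comp ((hG.comp continuous_snd).mul
      (Complex.continuous_conj.comp (hG.comp (continuous_snd.add continuous_fst))))
  have hQm : Measurable (fun x : ℝ × (ℝ × ℝ) => Q x.1 x.2) := by
    rw [hQ]
    have h1 : Measurable (fun x : ℝ × (ℝ × ℝ) => x.1 * r_AV G x.2.1 x.2.2) :=
      measurable_fst.mul (hrm.comp measurable_snd)
    have h2 : Measurable (fun x : ℝ × (ℝ × ℝ) => A_AV G x.2.1 x.2.2) :=
      hAc.measurable.comp measurable_snd
    have h3 : Measurable (fun x : ℝ × (ℝ × ℝ) => B_AV G x.2.1 x.2.2) :=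
      hBc.measurable.comp measurable_snd
    have h4 : Measurable (fun x : ℝ × (ℝ × ℝ) => Tst n (max x.2.1 0) H x.2.2) :=
      hTm.measurable.comp measurable_snd
    have h5 : Measurable (fun x : ℝ × (ℝ × ℝ) => Real.exp (-x.2.1 / 4)) := by fun_prop
    exact h5.mul (((h2.mul (Real.measurable_cos.comp h1)).add
      (h3.mul (Real.measurable_sin.comp h1))).mul h4)
  have hQb : ∀ t z, |Q t z| ≤ Real.exp (-(1 / 4) * z.1) * (2 * MG * C * ‖G z.2‖) := by
    intro t z
    rw [hQ]
    simp only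
    have e1 : Real.exp (-(1 / 4) * z.1) = Real.exp (-z.1 / 4) := by congr 1; ring
    rw [e1, abs_mul, abs_of_pos (Real.exp_pos _)]
    refine mul_le_mul_of_nonneg_left ?_ (Real.exp_pos _).le
    have hA : |A_AV G z.1 z.2| ≤ ‖G z.2‖ * MG := by
      unfold A_AV
      refine (Complex.abs_re_le_norm _).trans ?_
      rw [norm_mul, Complex.norm_conj]
      exact mul_le_mul_of_nonneg_left (hMG _) (norm_nonneg _)
    have hB : |B_AV G z.1 z.2| ≤ ‖G z.2‖ * MG := by
      unfold B_AV
      refine (Complex.abs_im_le_norm _).trans ?_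
      rw [norm_mul, Complex.norm_conj]
      exact mul_le_mul_of_nonneg_left (hMG _) (norm_nonneg _)
    have h0 : 0 ≤ ‖G z.2‖ * MG := by positivity
    have h1 : |A_AV G z.1 z.2 * Real.cos (t * r_AV G z.1 z.2) +
        B_AV G z.1 z.2 * Real.sin (t * r_AV G z.1 z.2)| ≤ 2 * (‖G z.2‖ * MG) := by
      refine (abs_add_le _ _).trans ?_
      rw [abs_mul, abs_mul]
      have c1 := Real.abs_cos_le_one (t * r_AV G z.1 z.2)
      have c2 := Real.abs_sin_le_one (t * r_AV G z.1 z.2)
      have d1 : |A_AV G z.1 z.2| * |Real.cos (t * r_AV G z.1 z.2)| ≤ ‖G z.2‖ * MG * 1 :=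
        mul_le_mul hA c1 (abs_nonneg _) h0
      have d2 : |B_AV G z.1 z.2| * |Real.sin (t * r_AV G z.1 z.2)| ≤ ‖G z.2‖ * MG * 1 :=
        mul_le_mul hB c2 (abs_nonneg _) h0
      linarith
    rw [abs_mul]
    calc _ ≤ 2 * (‖G z.2‖ * MG) * C := mul_le_mul h1 (hC _ _) (abs_nonneg _) (by positivity)
      _ = _ := by ring
  have hdom : Integrable (fun z : ℝ × ℝ => Real.exp (-(1 / 4) * z.1) *
      (2 * MG * C * ‖G z.2‖)) ν := by
    rw [hν]
    exact Integrable.mul_prod (f := fun d : ℝ => Real.exp (-(1 / 4) * d))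
      (g := fun y : ℝ => 2 * MG * C * ‖G y‖)
      (exp_neg_integrableOn_Ioi 0 (by norm_num : (0 : ℝ) < 1 / 4)) (hGi.const_mul _)
  have hQi : ∀ t, Integrable (Q t) ν := by
    intro t
    refine hdom.mono' (hQm.comp measurable_prodMk_left).aestronglyMeasurable
      (Eventually.of_forall fun z => ?_)
    rw [Real.norm_eq_abs]
    exact hQb t z
  have hF : Integrable (fun x : ℝ × (ℝ × ℝ) => W x.1 * Q x.1 x.2) (volume.prod ν) := by
    refine (hWi.mul_prod hdom).mono'
      ((hW.cont.measurable.comp measurable_fst).mul hQm).aestronglyMeasurable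
      (Eventually.of_forall fun x => ?_)
    rw [Real.norm_eq_abs, abs_mul, abs_of_nonneg (hW.nonneg _)]
    exact mul_le_mul_of_nonneg_left (hQb _ _) (hW.nonneg _)
  -- the formula for fixed `t`
  have hfix : ∀ t, ∫ y, Real.exp (y / 2) * ‖Bop n (ph t G) y‖ ^ 2 * H y =
      (∫ y, ‖G y‖ ^ 2 * H y) + 2 * ∫ z, Q t z ∂ν := by
    intro t
    have h1 := hPR n (gt_AV t G) H (cont_gt_AV t G hG) (supp_gt_AV t G hGc) hH hHc
    have h2 : (fun x => (Real.exp (-x / 4) : ℂ) * gt_AV t G x) = ph t G := rfl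
    rw [h2] at h1
    rw [h1]
    congr 1
    · refine integral_congr_ae (Eventually.of_forall fun y => ?_)
      simp only [norm_gt_AV]
    · congr 1
      rw [hν, integral_prod _ (hν ▸ hQi t)]
      refine setIntegral_congr_fun measurableSet_Ioi fun d hd => ?_
      rw [← integral_const_mul]
      refine integral_congr_ae (Eventually.of_forall fun y => ?_)
      have hm : max d 0 = d := max_eq_left (le_of_lt hd)
      simp only [re_AV, hQ, hm]
  -- the average
  have hswap : ∫ t, W t * ∫ z, Q t z ∂ν = ∫ d in Ioi (0 : ℝ), Real.exp (-d / 4) *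
      ∫ y, kd W G d y * Tst n d H y := by
    have e1 : ∫ t, W t * ∫ z, Q t z ∂ν = ∫ t, ∫ z, W t * Q t z ∂ν :=
      integral_congr_ae (Eventually.of_forall fun t => by simp only; rw [integral_const_mul])
    rw [e1, integral_integral_swap hF]
    have e2 : ∀ z : ℝ × ℝ, ∫ t, W t * Q t z = Real.exp (-z.1 / 4) *
        (kd W G z.1 z.2 * Tst n (max z.1 0) H z.2) := by
      intro z
      have i1 : Integrable (fun t => W t * Real.cos (t * r_AV G z.1 z.2)) := by
        refine hWi.mono' (hW.cont.mul (by fun_prop)).aestronglyMeasurable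
          (Eventually.of_forall fun t => ?_)
        rw [Real.norm_eq_abs, abs_mul, abs_of_nonneg (hW.nonneg _)]
        exact mul_le_of_le_one_right (hW.nonneg _) (Real.abs_cos_le_one _)
      have i2 : Integrable (fun t => W t * Real.sin (t * r_AV G z.1 z.2)) := by
        refine hWi.mono' (hW.cont.mul (by fun_prop)).aestronglyMeasurable
          (Eventually.of_forall fun t => ?_)
        rw [Real.norm_eq_abs, abs_mul, abs_of_nonneg (hW.nonneg _)]
        exact mul_le_of_le_one_right (hW.nonneg _) (Real.abs_sin_le_one _)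
      have e3 : ∀ t, W t * Q t z = (Real.exp (-z.1 / 4) * A_AV G z.1 z.2 *
          Tst n (max z.1 0) H z.2) * (W t * Real.cos (t * r_AV G z.1 z.2)) +
          (Real.exp (-z.1 / 4) * B_AV G z.1 z.2 * Tst n (max z.1 0) H z.2) *
          (W t * Real.sin (t * r_AV G z.1 z.2)) := by
        intro t
        rw [hQ]
        ring
      simp_rw [e3]
      rw [integral_add (i1.const_mul _) (i2.const_mul _), integral_const_mul,
        integral_const_mul, odd_AV W hW.even, mul_zero, add_zero]
      unfold kd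
      have e4 : Wh 1 W (Real.log ‖G z.2‖ - Real.log ‖G (z.2 + z.1)‖ + z.1 / 4) =
          ∫ t, W t * Real.cos (t * r_AV G z.1 z.2) := by
        unfold Wh r_AV
        refine integral_congr_ae (Eventually.of_forall fun t => ?_)
        simp only [one_mul]
      rw [e4]
      unfold A_AV
      ring
    have e5 : (fun z : ℝ × ℝ => ∫ t, W t * Q t z) = fun z => Real.exp (-z.1 / 4) *
        (kd W G z.1 z.2 * Tst n (max z.1 0) H z.2) := funext e2
    have hi : Integrable (fun z : ℝ × ℝ => ∫ t, W t * Q t z) ν := hF.integral_prod_right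
    rw [e5] at hi ⊢
    rw [hν, integral_prod _ (hν ▸ hi)]
    refine setIntegral_congr_fun measurableSet_Ioi fun d hd => ?_
    rw [← integral_const_mul]
    have hm : max d 0 = d := max_eq_left (le_of_lt hd)
    refine integral_congr_ae (Eventually.of_forall fun y => ?_)
    simp only [hm]
  have hi1 : Integrable (fun t => W t * ∫ z, Q t z ∂ν) := by
    have h1 := hF.integral_prod_left
    refine h1.congr (Eventually.of_forall fun t => ?_)
    simp only
    rw [integral_const_mul]
  have hsum : ∀ t, W t * (∫ y, Real.exp (y / 2) * ‖Bop n (ph t G) y‖ ^ 2 * H y) =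
      W t * (∫ y, ‖G y‖ ^ 2 * H y) + 2 * (W t * ∫ z, Q t z ∂ν) := by
    intro t
    rw [hfix t]
    ring
  have hiA : Integrable (fun t => W t * (∫ y, ‖G y‖ ^ 2 * H y)) := hWi.mul_const _
  refine ⟨?_, ?_⟩
  · simp_rw [hsum]
    exact hiA.add (hi1.const_mul 2)
  · simp_rw [hsum]
    rw [integral_add hiA (hi1.const_mul 2), integral_mul_const, integral_const_mul, hswap]
    congr 2
    unfold Wh
    refine integral_congr_ae (Eventually.of_forall fun t => ?_)
    simp

end Helper69.CR
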