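import Pool.Agent.Helper69.CR.St

/-!
# MP_3dd6d4_an, project CR, module EN: end points `p = 2, 4` and general `f`.
-/

set_option autoImplicit false

open MeasureTheory Set Filter Topology

noncomputable section

namespace Helper69.CR

/-- Fatou in the form used here. -/
theorem fatou_EN {F : ℕ → ℝ → ℝ} {G : ℝ → ℝ} {B : ℕ → ENNReal} {b : ENNReal}
    (hm : ∀ j, AEMeasurable (F j)) (hl : ∀ y, Tendsto (fun j => F j y) atTop (𝓝 (G y)))
    (hb : ∀ j, ∫⁻ y, ENNReal.ofReal (F j y) ≤ B j) (hB : Tendsto B atTop (𝓝 b)) :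
    ∫⁻ y, ENNReal.ofReal (G y) ≤ b := by
  have h1 : ∀ y, ENNReal.ofReal (G y) = liminf (fun j => ENNReal.ofReal (F j y)) atTop := by
    intro y
    exact ((ENNReal.tendsto_ofReal (hl y)).liminf_eq).symm
  have h2 : ∫⁻ y, ENNReal.ofReal (G y) = ∫⁻ y, liminf (fun j => ENNReal.ofReal (F j y)) atTop := by
    congr 1
    funext y
    exact h1 y
  rw [h2]
  calc ∫⁻ y, liminf (fun j => ENNReal.ofReal (F j y)) atTop
      ≤ liminf (fun j => ∫⁻ y, ENNReal.ofReal (F j y)) atTop :=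
        lintegral_liminf_le' (fun j => (hm j).ennreal_ofReal)
    _ ≤ liminf B atTop := liminf_le_liminf (Eventually.of_forall hb)
    _ = b := hB.liminf_eq

/-- measurability of `‖B_n f‖^p e^y` from the isometry. -/
theorem meas_EN (hIS : StIS2) (n : ℕ) (p : ℝ) (f : ℝ → ℂ) (hf : Continuous f)
    (hc : HasCompactSupport f) : AEMeasurable (fun y => ‖Bop n f y‖ ^ p * Real.exp y) := by
  have h := ((hIS.1 n f hf hc).1).aestronglyMeasurable.aemeasurable
  have h2 : AEMeasurable (fun y : ℝ =>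
      ((‖Bop n f y‖ ^ 2 * Real.exp y) * Real.exp (-y)) ^ (p / 2) * Real.exp y) := by
    have he : Measurable (fun y : ℝ => Real.exp (-y)) := by fun_prop
    have he2 : Measurable (fun y : ℝ => Real.exp y) := by fun_prop
    exact ((h.mul he.aemeasurable).pow_const (p / 2)).mul he2.aemeasurable
  refine h2.congr (Eventually.of_forall fun y => ?_)
  show ((‖Bop n f y‖ ^ 2 * Real.exp y) * Real.exp (-y)) ^ (p / 2) * Real.exp y
    = ‖Bop n f y‖ ^ p * Real.exp y
  have h3 : (‖Bop n f y‖ ^ 2 * Real.exp y) * Real.exp (-y) = ‖Bop n f y‖ ^ (2 : ℝ) := by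
    rw [mul_assoc, ← Real.exp_add]
    simp
  rw [h3, ← Real.rpow_mul (norm_nonneg _)]
  congr 2
  ring

theorem Cn_half_EN (n : ℕ) : Cn n (1 / 2) = 1 := by
  unfold Cn
  apply Finset.prod_eq_one
  intro k _
  have h : (k : ℝ) + 1 - 1 / 2 = (k : ℝ) + 1 / 2 := by ring
  rw [h]
  have : (0 : ℝ) < (k : ℝ) + 1 / 2 := by positivity
  exact div_self this.ne'

theorem Cn_pos_EN (n : ℕ) (a : ℝ) (ha : 0 < a) (ha1 : a < 1) : 0 < Cn n a := by
  unfold Cn
  apply Finset.prod_pos
  intro k _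
  have h0 : (0 : ℝ) ≤ k := Nat.cast_nonneg k
  apply div_pos <;> linarith

theorem Cn_tendsto_EN (n : ℕ) {u : ℕ → ℝ} {a : ℝ} (ha : 0 < a) (hu : Tendsto u atTop (𝓝 a)) :
    Tendsto (fun j => Cn n (u j)) atTop (𝓝 (Cn n a)) := by
  unfold Cn
  apply tendsto_finsetProd
  intro k _
  have h0 : (0 : ℝ) ≤ k := Nat.cast_nonneg k
  apply Tendsto.div
  · exact tendsto_const_nhds.sub hu
  · exact tendsto_const_nhds.add hu
  · have : (0 : ℝ) < (k : ℝ) + a := by linarith
    exact this.ne'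

/-- compactly supported `f`, `p = 2`. -/
theorem two_EN (hIS : StIS2) (n : ℕ) (f : ℝ → ℂ) (hf : Continuous f) (hc : HasCompactSupport f) :
    ∫⁻ y, ENNReal.ofReal (‖Bop n f y‖ ^ (2 : ℝ) * Real.exp y) ≤
    ENNReal.ofReal (Cn n (1 / 2) ^ (2 : ℝ)) *
      ∫⁻ y, ENNReal.ofReal (‖f y‖ ^ (2 : ℝ) * Real.exp y) := by
  rw [Cn_half_EN]
  obtain ⟨h1, h2⟩ := hIS.1 n f hf hc
  have h3 : Integrable (fun y : ℝ => ‖f y‖ ^ 2 * Real.exp y) := by
    apply Continuous.integrable_of_hasCompactSupport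
    · fun_prop
    · apply HasCompactSupport.mul_right
      have : (fun y : ℝ => ‖f y‖ ^ 2) = (fun y => (fun z : ℂ => ‖z‖ ^ 2) (f y)) := rfl
      exact hc.comp_left (g := fun z : ℂ => ‖z‖ ^ 2) (by simp)
  simp only [Real.rpow_two, one_pow, ENNReal.ofReal_one, one_mul]
  rw [← ofReal_integral_eq_lintegral_ofReal h1 (Eventually.of_forall fun y => by positivity),
    ← ofReal_integral_eq_lintegral_ofReal h3 (Eventually.of_forall fun y => by positivity), h2]

/-- compactly supported `f`, `p = 4`. -/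
theorem four_EN (hST : StST) (hIS : StIS2) (n : ℕ) (hn : 1 ≤ n) (f : ℝ → ℂ) (hf : Continuous f)
    (hc : HasCompactSupport f) :
    ∫⁻ y, ENNReal.ofReal (‖Bop n f y‖ ^ (4 : ℝ) * Real.exp y) ≤
    ENNReal.ofReal (Cn n (1 / 4) ^ (4 : ℝ)) *
      ∫⁻ y, ENNReal.ofReal (‖f y‖ ^ (4 : ℝ) * Real.exp y) := by
  set p : ℕ → ℝ := fun j => 4 - 1 / ((j : ℝ) + 1) with hp
  have hp0 : Tendsto p atTop (𝓝 4) := by
    have h := tendsto_one_div_add_atTop_nhds_zero_nat (𝕜 := ℝ)
    have h2 := (tendsto_const_nhds (x := (4 : ℝ))).sub h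
    simpa [hp] using h2
  have hp1 : ∀ j, 3 ≤ p j := by
    intro j
    have h0 : (0 : ℝ) ≤ j := Nat.cast_nonneg j
    have : 1 / ((j : ℝ) + 1) ≤ 1 := by
      rw [div_le_one (by linarith)]
      linarith
    simp only [hp]
    linarith
  have hp2 : ∀ j, p j < 4 := by
    intro j
    have h0 : (0 : ℝ) ≤ j := Nat.cast_nonneg j
    have : 0 < 1 / ((j : ℝ) + 1) := by positivity
    simp only [hp]
    linarith
  have hlim : ∀ c : ℝ, Tendsto (fun j => c ^ p j) atTop (𝓝 (c ^ (4 : ℝ))) := by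
    intro c
    exact Tendsto.rpow tendsto_const_nhds hp0 (Or.inr (by norm_num))
  have hR : Tendsto (fun j => ∫⁻ y, ENNReal.ofReal (‖f y‖ ^ p j * Real.exp y)) atTop
      (𝓝 (∫⁻ y, ENNReal.ofReal (‖f y‖ ^ (4 : ℝ) * Real.exp y))) := by
    apply tendsto_lintegral_of_dominated_convergence
      (fun y => ENNReal.ofReal ((‖f y‖ ^ 2 + ‖f y‖ ^ 4) * Real.exp y))
    · intro j
      apply Measurable.ennreal_ofReal
      have h1 : Measurable (fun y => ‖f y‖) := hf.norm.measurable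
      have h2 : Measurable (fun y : ℝ => Real.exp y) := by fun_prop
      exact (h1.pow_const (p j)).mul h2
    · intro j
      refine Eventually.of_forall fun y => ?_
      apply ENNReal.ofReal_le_ofReal
      apply mul_le_mul_of_nonneg_right _ (Real.exp_pos y).le
      have h0 : 0 ≤ ‖f y‖ := norm_nonneg _
      rcases le_total ‖f y‖ 1 with h | h
      · have h1 : ‖f y‖ ^ p j ≤ ‖f y‖ ^ (2 : ℝ) :=
          Real.rpow_le_rpow_of_exponent_ge' h0 h (by norm_num) (by linarith [hp1 j])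
        rw [Real.rpow_two] at h1
        have : 0 ≤ ‖f y‖ ^ 4 := by positivity
        linarith
      · have h1 : ‖f y‖ ^ p j ≤ ‖f y‖ ^ (4 : ℝ) :=
          Real.rpow_le_rpow_of_exponent_le h (hp2 j).le
        have h2 : ‖f y‖ ^ (4 : ℝ) = ‖f y‖ ^ 4 := by
          rw [← Real.rpow_natCast]
          norm_num
        rw [h2] at h1
        have : 0 ≤ ‖f y‖ ^ 2 := by positivity
        linarith
    · have h3 : Integrable (fun y : ℝ => (‖f y‖ ^ 2 + ‖f y‖ ^ 4) * Real.exp y) := by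
        apply Continuous.integrable_of_hasCompactSupport
        · fun_prop
        · apply HasCompactSupport.mul_right
          exact hc.comp_left (g := fun z : ℂ => ‖z‖ ^ 2 + ‖z‖ ^ 4) (by simp)
      exact (h3.lintegral_lt_top).ne
    · refine Eventually.of_forall fun y => ?_
      exact ENNReal.tendsto_ofReal ((hlim _).mul tendsto_const_nhds)
  have hRfin : ∫⁻ y, ENNReal.ofReal (‖f y‖ ^ (4 : ℝ) * Real.exp y) ≠ ⊤ := by
    have h3 : Integrable (fun y : ℝ => ‖f y‖ ^ (4 : ℝ) * Real.exp y) := by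
      apply Continuous.integrable_of_hasCompactSupport
      · apply Continuous.mul _ Real.continuous_exp
        exact hf.norm.rpow_const (fun y => Or.inr (by norm_num))
      · apply HasCompactSupport.mul_right
        exact hc.comp_left (g := fun z : ℂ => ‖z‖ ^ (4 : ℝ)) (by simp)
    exact (h3.lintegral_lt_top).ne
  have hC : Tendsto (fun j => ENNReal.ofReal (Cn n (1 / p j) ^ p j)) atTop
      (𝓝 (ENNReal.ofReal (Cn n (1 / 4) ^ (4 : ℝ)))) := by
    apply ENNReal.tendsto_ofReal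
    have h1 : Tendsto (fun j => 1 / p j) atTop (𝓝 (1 / 4)) :=
      tendsto_const_nhds.div hp0 (by norm_num)
    have h2 := Cn_tendsto_EN n (by norm_num : (0 : ℝ) < 1 / 4) h1
    exact Tendsto.rpow h2 hp0 (Or.inr (by norm_num))
  apply fatou_EN (F := fun j y => ‖Bop n f y‖ ^ p j * Real.exp y)
    (B := fun j => ENNReal.ofReal (Cn n (1 / p j) ^ p j) *
      ∫⁻ y, ENNReal.ofReal (‖f y‖ ^ p j * Real.exp y))
  · intro j
    exact meas_EN hIS n (p j) f hf hc
  · intro y
    exact (hlim _).mul tendsto_const_nhds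
  · intro j
    exact hST n (p j) f hn (by linarith [hp1 j]) (hp2 j) hf hc
  · exact ENNReal.Tendsto.mul hC (Or.inr hRfin) hR (Or.inr ENNReal.ofReal_ne_top)

/-- compactly supported `f`, `2 ≤ p ≤ 4`. -/
theorem cpt_EN (hST : StST) (hIS : StIS2) (n : ℕ) (p : ℝ) (f : ℝ → ℂ) (hn : 1 ≤ n) (h2 : 2 ≤ p)
    (h4 : p ≤ 4) (hf : Continuous f) (hc : HasCompactSupport f) :
    ∫⁻ y, ENNReal.ofReal (‖Bop n f y‖ ^ p * Real.exp y) ≤
    ENNReal.ofReal (Cn n (1 / p) ^ p) * ∫⁻ y, ENNReal.ofReal (‖f y‖ ^ p * Real.exp y) := by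
  rcases eq_or_lt_of_le h2 with h | h
  · rw [← h]
    exact two_EN hIS n f hf hc
  rcases eq_or_lt_of_le h4 with h' | h'
  · rw [h']
    exact four_EN hST hIS n hn f hf hc
  · exact hST n p f hn h h' hf hc

/-- the cutoff. -/
def chi_EN (j : ℕ) (y : ℝ) : ℝ := max 0 (min 1 ((j : ℝ) + 1 - |y|))

theorem chi_cont_EN (j : ℕ) : Continuous (chi_EN j) := by
  unfold chi_EN
  fun_prop

theorem chi_nonneg_EN (j : ℕ) (y : ℝ) : 0 ≤ chi_EN j y := le_max_left _ _

theorem chi_le_EN (j : ℕ) (y : ℝ) : chi_EN j y ≤ 1 := max_le (by norm_num) (min_le_left _ _)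

theorem chi_supp_EN (j : ℕ) : HasCompactSupport (chi_EN j) := by
  apply HasCompactSupport.intro (isCompact_Icc (a := -((j : ℝ) + 1)) (b := (j : ℝ) + 1))
  intro y hy
  unfold chi_EN
  have h : (j : ℝ) + 1 < |y| := by
    by_contra hh
    push Not at hh
    exact hy (abs_le.mp hh)
  apply max_eq_left
  exact le_trans (min_le_right _ _) (by linarith)

theorem chi_lim_EN (y : ℝ) : Tendsto (fun j => chi_EN j y) atTop (𝓝 1) := by
  apply tendsto_const_nhds.congr'
  obtain ⟨N, hN⟩ := exists_nat_ge |y|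
  filter_upwards [eventually_ge_atTop N] with j hj
  have h1 : (N : ℝ) ≤ j := by exact_mod_cast hj
  unfold chi_EN
  rw [min_eq_left (by linarith)]
  simp

theorem pp_bound_EN (n : ℕ) (s : ℝ) (h0 : 0 ≤ s) (h1 : s ≤ 1) :
    |pp n s| ≤ ∑ i ∈ Finset.range n, |pc n i| := by
  unfold pp
  refine (Finset.abs_sum_le_sum_abs _ _).trans (Finset.sum_le_sum fun i _ => ?_)
  rw [abs_mul, abs_of_nonneg (pow_nonneg h0 i)]
  have : s ^ i ≤ 1 := pow_le_one₀ h0 h1
  nlinarith [abs_nonneg (pc n i)]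

theorem pp_cont_EN (n : ℕ) : Continuous (pp n) := by
  unfold pp
  fun_prop

theorem Bop_lim_EN (n : ℕ) (f : ℝ → ℂ) (hf : Continuous f) (y : ℝ)
    (hi : IntegrableOn (fun u => f (y + u)) (Ioi 0)) :
    Tendsto (fun j => Bop n (fun x => ((chi_EN j x : ℝ) : ℂ) * f x) y) atTop (𝓝 (Bop n f y)) := by
  unfold Bop
  have hl : ∀ x, Tendsto (fun j => ((chi_EN j x : ℝ) : ℂ) * f x) atTop (𝓝 (f x)) := by
    intro x
    have h1 : Tendsto (fun j => ((chi_EN j x : ℝ) : ℂ)) atTop (𝓝 ((1 : ℝ) : ℂ)) :=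
      (Complex.continuous_ofReal.tendsto 1).comp (chi_lim_EN x)
    have h2 := h1.mul_const (f x)
    simpa using h2
  apply Tendsto.add
  · exact (hl y).const_mul _
  · apply tendsto_integral_of_dominated_convergence
      (fun u => (∑ i ∈ Finset.range n, |pc n i|) * ‖f (y + u)‖)
    · intro j
      apply Continuous.aestronglyMeasurable
      have h1 := chi_cont_EN j
      have h2 := pp_cont_EN n
      fun_prop
    · exact hi.norm.const_mul _
    · intro j
      rw [ae_restrict_iff' measurableSet_Ioi]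
      refine Eventually.of_forall fun u hu => ?_
      have hu' : (0 : ℝ) < u := hu
      rw [norm_mul, norm_mul, Complex.norm_real, Complex.norm_real, Real.norm_eq_abs,
        Real.norm_eq_abs]
      have h1 : |pp n (Real.exp (-u))| ≤ ∑ i ∈ Finset.range n, |pc n i| :=
        pp_bound_EN n _ (Real.exp_pos _).le (Real.exp_le_one_iff.mpr (by linarith))
      have h2 : |chi_EN j (y + u)| ≤ 1 := by
        rw [abs_of_nonneg (chi_nonneg_EN _ _)]
        exact chi_le_EN _ _
      have h3 : |chi_EN j (y + u)| * ‖f (y + u)‖ ≤ ‖f (y + u)‖ := by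
        nlinarith [norm_nonneg (f (y + u))]
      exact mul_le_mul h1 h3 (by positivity) (Finset.sum_nonneg fun i _ => abs_nonneg _)
    · refine Eventually.of_forall fun u => ?_
      exact (hl (y + u)).const_mul _

/-- MODULE EN. -/
theorem hEN (hST : StST) (hIS : StIS2) : StEN := by
  intro n p f hn h2 h4 hf hi
  have hp0 : 0 < p := by linarith
  have hcont : ∀ j, Continuous (fun x => ((chi_EN j x : ℝ) : ℂ) * f x) := by
    intro j
    have h1 := chi_cont_EN j
    fun_prop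
  have hsupp : ∀ j, HasCompactSupport (fun x => ((chi_EN j x : ℝ) : ℂ) * f x) := by
    intro j
    apply HasCompactSupport.mul_right
    exact (chi_supp_EN j).comp_left (g := fun r : ℝ => (r : ℂ)) (by simp)
  apply fatou_EN
    (F := fun j y => ‖Bop n (fun x => ((chi_EN j x : ℝ) : ℂ) * f x) y‖ ^ p * Real.exp y)
    (B := fun _ => ENNReal.ofReal (Cn n (1 / p) ^ p) *
      ∫⁻ y, ENNReal.ofReal (‖f y‖ ^ p * Real.exp y))
  · intro j
    exact meas_EN hIS n p _ (hcont j) (hsupp j)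
  · intro y
    apply Tendsto.mul_const
    exact ((Bop_lim_EN n f hf y (hi y)).norm).rpow_const (Or.inr hp0.le)
  · intro j
    refine (cpt_EN hST hIS n p _ hn h2 h4 (hcont j) (hsupp j)).trans ?_
    gcongr with y
    rw [norm_mul, Complex.norm_real, Real.norm_eq_abs, abs_of_nonneg (chi_nonneg_EN _ _)]
    have h3 := chi_le_EN j y
    have h4 := chi_nonneg_EN j y
    nlinarith [norm_nonneg (f y)]
  · exact tendsto_const_nhds

end Helper69.CR
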