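import Pool.Agent.Helper69.CR.St
import Pool.Agent.Helper68.BA.Main
import Pool.Agent.Helper68.BA.FT

/-!
# MP_3dd6d4_an, project CR: from the one-dimensional estimate to the critical angular mode
-/

set_option autoImplicit false

noncomputable section

namespace Helper69.CR

open MeasureTheory Set Filter Topology Complex
open Pool.Agent.Helper68.BA
open scoped ContDiff ENNReal SchwartzMap

lemma Cn_nonneg (n : ℕ) (a : ℝ) (h0 : 0 < a) (h1 : a ≤ 1) : 0 ≤ Cn n a := by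
  unfold Cn
  refine Finset.prod_nonneg fun k _ => ?_
  have hk : (0 : ℝ) ≤ k := Nat.cast_nonneg k
  exact div_nonneg (by linarith) (by linarith)

/-- `norm_bound` with a general constant -/
lemma norm_bound_C {k l : ℤ} {ψ χ : ℂ → ℂ} (hψ : HasMode k ψ) (hψc : Continuous ψ)
    (hχ : HasMode l χ) (hχc : Continuous χ) (p : ℝ) (hp : 0 < p) (C : ℝ) (hC : 0 ≤ C)
    (h : ∫⁻ y : ℝ, ENNReal.ofReal (‖prof ψ y‖ ^ p * Real.exp y) ≤
      ENNReal.ofReal (C ^ p) * ∫⁻ y : ℝ, ENNReal.ofReal (‖prof χ y‖ ^ p * Real.exp y)) :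
    eLpNorm ψ (ENNReal.ofReal p) volume ≤
      ENNReal.ofReal C * eLpNorm χ (ENNReal.ofReal p) volume := by
  rw [eLpNorm_of_mode hψ hψc p hp, eLpNorm_of_mode hχ hχc p hp]
  have e1 : ENNReal.ofReal C = ENNReal.ofReal (C ^ p) ^ (1 / p) := by
    rw [ENNReal.ofReal_rpow_of_nonneg (by positivity) (by positivity), ← Real.rpow_mul hC,
      mul_one_div_cancel hp.ne', Real.rpow_one]
  rw [e1, ← ENNReal.mul_rpow_of_nonneg _ _ (by positivity)]
  refine ENNReal.rpow_le_rpow ?_ (by positivity)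
  calc ENNReal.ofReal Real.pi * ∫⁻ y : ℝ, ENNReal.ofReal (‖prof ψ y‖ ^ p * Real.exp y)
      ≤ ENNReal.ofReal Real.pi * (ENNReal.ofReal (C ^ p) *
        ∫⁻ y : ℝ, ENNReal.ofReal (‖prof χ y‖ ^ p * Real.exp y)) := by gcongr
    _ = _ := by ring

/-- the one-dimensional estimate with exponent `p` -/
def OneD (n : ℕ) (p : ℝ) : Prop := ∀ f : ℝ → ℂ, Continuous f →
  (∀ y, IntegrableOn (fun u => f (y + u)) (Ioi 0)) →
  ∫⁻ y, ENNReal.ofReal (‖Bop n f y‖ ^ p * Real.exp y) ≤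
    ENNReal.ofReal (Cn n (1 / p) ^ p) * ∫⁻ y, ENNReal.ofReal (‖f y‖ ^ p * Real.exp y)

theorem crit_phi (hKR : StKR) (n : ℕ) (hn : 1 ≤ n) (p : ℝ) (hp : 1 ≤ p) (h1 : OneD n p)
    (φ : 𝓢(ℂ, ℂ)) (hm : HasMode n φ) :
    eLpNorm (dz^[n] φ) (ENNReal.ofReal p) volume ≤
      ENNReal.ofReal (Cn n (1 / p)) * eLpNorm (dzbar^[n] φ) (ENNReal.ofReal p) volume := by
  obtain ⟨a3, a4⟩ := iter_dzS φ n hm n
  obtain ⟨b3, b4⟩ := iter_dzbarS φ n hm n
  have a1 : Continuous (dz^[n] φ) := a4 ▸ (dzS^[n] φ).continuous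
  have b1 : Continuous (dzbar^[n] φ) := b4 ▸ (dzbarS^[n] φ).continuous
  rw [a4] at a3
  rw [b4] at b3
  have hp0 : 0 < p := by linarith
  refine norm_bound_C a3 a1 b3 b1 p hp0 _
    (Cn_nonneg n (1 / p) (by positivity) (by rw [div_le_one hp0]; exact hp)) ?_
  have hrep : ∀ y : ℝ, ‖prof (dz^[n] φ) y‖ = ‖Bop n (prof (dzbar^[n] φ)) y‖ := by
    intro y
    rw [repr_pos n n φ hm y, hKR.2, sub_self, abs_zero, zero_div, min_self, norm_mul, norm_pow,
      norm_neg, norm_one, one_pow, one_mul]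
  simp only [hrep]
  refine h1 _ (prof_continuous b1) fun y => ?_
  have h2 := EE_integrable_pos (gb n n φ hm n) 0 y
  rw [gb_n] at h2
  refine h2.congr_fun (fun u _ => ?_) measurableSet_Ioi
  simp

/-- the estimate for the frozen form of `T^n f`, `f` of mode `2n` -/
theorem crit_mode (hKR : StKR) (n : ℕ) (hn : 1 ≤ n) (p : ℝ) (hp : 2 ≤ p) (h1 : OneD n p)
    (f : SchwartzMap ℂ ℂ)
    (hf : ∀ (θ : ℝ) (z : ℂ),
      f (Complex.exp (θ * Complex.I) * z) = Complex.exp (((2 * n : ℕ) : ℂ) * θ * Complex.I) * f z) :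
    MeasureTheory.eLpNorm
        (fun z : ℂ => ∫ ξ : ℂ,
          Complex.exp (2 * (Real.pi : ℂ) * Complex.I * ((z.re * ξ.re + z.im * ξ.im : ℝ) : ℂ)) *
            ((starRingEnd ℂ ξ / ξ) ^ n *
              ∫ w : ℂ, Complex.exp (-(2 * (Real.pi : ℂ) * Complex.I *
                ((w.re * ξ.re + w.im * ξ.im : ℝ) : ℂ))) * f w))
        (ENNReal.ofReal p) MeasureTheory.volume
      ≤ ENNReal.ofReal (Cn n (1 / p)) *
        MeasureTheory.eLpNorm (fun z : ℂ => f z) (ENNReal.ofReal p) MeasureTheory.volume := by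
  rw [frozen_eq]
  refine mult_bound n f p hp _ fun t => ?_
  have hf' : HasMode ((2 * n : ℕ) : ℤ) f := by
    intro θ z
    rw [hf θ z]
    norm_cast
  have hmode := phi_mode n t f hf'
  have e : (((2 * n : ℕ) : ℤ) - n : ℤ) = n := by push_cast; ring
  rw [e] at hmode
  have h := crit_phi hKR n hn p (by linarith) h1 (phi n t f) hmode
  rw [(iter_dzS (phi n t f) n hmode n).2, (iter_dzbarS (phi n t f) n hmode n).2]
  exact h

end Helper69.CR
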