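import Pool.Agent.Helper69.CR.St
import Pool.Agent.Helper22.BAM.IS
import Pool.Agent.Helper5.BAM.C

set_option autoImplicit false

open MeasureTheory Set Filter Topology

noncomputable section

namespace Helper69.CR

private lemma ker_shift_IS2 (n : ℕ) (u : ℝ) :
    Pool.Agent.Helper68.BA.ker 0 n (1 / 2) u =
      Real.exp (-u / 2) * Pool.Agent.Helper68.BA.ker 0 n 0 u := by
  unfold Pool.Agent.Helper68.BA.ker
  rw [Finset.mul_sum]
  refine Finset.sum_congr rfl fun j _ => ?_
  rw [mul_left_comm, ← Real.exp_add]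
  congr 2
  ring

private lemma ker_pp_IS2 (hKR : StKR) (n : ℕ) (u : ℝ) :
    Pool.Agent.Helper68.BA.ker 0 n 0 u = -(-1) ^ n * pp n (Real.exp (-u)) := by
  unfold Pool.Agent.Helper68.BA.ker pp
  rw [Finset.mul_sum]
  refine Finset.sum_congr rfl fun j hj => ?_
  rw [hKR.1 n j (Finset.mem_range.1 hj), ← Real.exp_nat_mul]
  have : -(0 + (j : ℝ)) * u = (j : ℝ) * -u := by ring
  rw [this]
  ring

private lemma hC_IS2 (n : ℕ) : ∀ j < n, ∑ i ∈ Finset.range n,
    Pool.Agent.Helper68.BA.rc 0 n i / (2 * (1 / 2) + 0 + i + j) = 1 := by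
  intro j hj
  have h := Pool.Agent.Helper68.BA.rc_cauchy 0 le_rfl n j hj
  refine Eq.trans (Finset.sum_congr rfl fun i _ => ?_) h
  congr 1
  ring

private lemma iso_IS2 (n : ℕ) (R : ℝ → ℂ) (hR : Continuous R) (hRc : HasCompactSupport R) :
    Integrable (fun y => ‖Pool.Agent.Helper68.BA.Sop
      (Pool.Agent.Helper68.BA.ker 0 n (1 / 2)) R y‖ ^ 2) ∧
    ∫ y, ‖Pool.Agent.Helper68.BA.Sop (Pool.Agent.Helper68.BA.ker 0 n (1 / 2)) R y‖ ^ 2 =
      ∫ y, ‖R y‖ ^ 2 := by
  have h := Pool.Agent.Helper68.BA.Sop_isometry 0 (1 / 2) n (Pool.Agent.Helper68.BA.rc 0 n)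
    (by norm_num) (by norm_num) (hC_IS2 n) (Pool.Agent.Helper68.BA.ker 0 n (1 / 2))
    (fun u => rfl) R hR hRc
  simpa using h

open Pool.Agent.Helper68.BA.IS in
private lemma cont_IS2 (n : ℕ) (R : ℝ → ℂ) (hR : Continuous R) (hRc : HasCompactSupport R) :
    Continuous (Pool.Agent.Helper68.BA.Sop (Pool.Agent.Helper68.BA.ker 0 n (1 / 2)) R) := by
  have hS : Pool.Agent.Helper68.BA.Sop (Pool.Agent.Helper68.BA.ker 0 n (1 / 2)) R =
      fun y => R y - ∑ j ∈ Finset.range n,
      (Pool.Agent.Helper68.BA.rc 0 n j : ℂ) * EE (1 / 2 + j) R y := by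
    funext y
    rw [Pool.Agent.Helper68.BA.Sop]
    congr 1
    have h1 : ∀ u : ℝ, (Pool.Agent.Helper68.BA.ker 0 n (1 / 2) u : ℂ) * R (y + u) =
        ∑ j ∈ Finset.range n, (Pool.Agent.Helper68.BA.rc 0 n j : ℂ) *
          ((Real.exp (-(1 / 2 + (j : ℝ)) * u) : ℂ) * R (y + u)) := by
      intro u
      unfold Pool.Agent.Helper68.BA.ker
      rw [Complex.ofReal_sum, Finset.sum_mul]
      refine Finset.sum_congr rfl fun j _ => ?_
      rw [Complex.ofReal_mul]
      ring
    simp_rw [h1]
    rw [integral_finsetSum]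
    · refine Finset.sum_congr rfl fun j _ => ?_
      rw [integral_const_mul]
      rfl
    · intro j _
      refine Integrable.const_mul ?_ _
      have hc : Continuous (fun u : ℝ => R (y + u)) := by fun_prop
      have hs : HasCompactSupport (fun u : ℝ => R (y + u)) :=
        hRc.comp_homeomorph (Homeomorph.addLeft y)
      exact (h_int (1 / 2 + j) hc hs).integrableOn
  rw [hS]
  refine hR.sub (continuous_finsetSum _ fun j _ => continuous_const.mul ?_)
  exact (nice_EE (b := 1 / 2) (by have : (0 : ℝ) ≤ j := Nat.cast_nonneg j; linarith) hR hRc).1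

/-- **MODULE IS2** -/
theorem hIS2 (hKR : StKR) : StIS2 := by
  refine ⟨fun n f hf hfc => ?_, fun n H hH hHc => ?_⟩
  · -- part 1
    set R : ℝ → ℂ := fun y => (Real.exp (y / 2) : ℂ) * f y with hRdef
    have hR : Continuous R := by
      have : Continuous fun y : ℝ => (Real.exp (y / 2) : ℂ) := by fun_prop
      exact this.mul hf
    have hRc : HasCompactSupport R := hfc.mul_left
    have hB : ∀ y, Bop n f y = ((-1) ^ n * (Real.exp (-y / 2) : ℂ)) *
        Pool.Agent.Helper68.BA.Sop (Pool.Agent.Helper68.BA.ker 0 n (1 / 2)) R y := by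
      intro y
      rw [hKR.2, mul_assoc]
      congr 1
      unfold Pool.Agent.Helper68.BA.Sop
      rw [mul_sub, ← integral_const_mul]
      congr 1
      · rw [hRdef]
        simp only
        rw [← mul_assoc, ← Complex.ofReal_mul, ← Real.exp_add]
        have : -y / 2 + y / 2 = 0 := by ring
        rw [this]; simp
      · congr 1
        funext u
        rw [hRdef]
        simp only
        rw [ker_shift_IS2]
        have e : Real.exp (-y / 2) * (Real.exp (-u / 2) * Real.exp ((y + u) / 2)) = 1 := by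
          rw [← Real.exp_add, ← Real.exp_add]
          have : -y / 2 + (-u / 2 + (y + u) / 2) = 0 := by ring
          rw [this, Real.exp_zero]
        have e' : (Real.exp (-y / 2) : ℂ) * ((Real.exp (-u / 2) : ℂ) *
            (Real.exp ((y + u) / 2) : ℂ)) = 1 := by
          rw [← Complex.ofReal_mul, ← Complex.ofReal_mul, e, Complex.ofReal_one]
        rw [Complex.ofReal_mul]
        linear_combination (-(Pool.Agent.Helper68.BA.ker 0 n 0 u : ℂ) * f (y + u)) * e'
    have hn : ∀ y, ‖Bop n f y‖ ^ 2 * Real.exp y =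
        ‖Pool.Agent.Helper68.BA.Sop (Pool.Agent.Helper68.BA.ker 0 n (1 / 2)) R y‖ ^ 2 := by
      intro y
      rw [hB, norm_mul, norm_mul, norm_pow, norm_neg, norm_one, one_pow, one_mul,
        Complex.norm_real, Real.norm_of_nonneg (Real.exp_pos _).le, mul_pow, ← Real.exp_nat_mul]
      have : Real.exp (((2 : ℕ) : ℝ) * (-y / 2)) * Real.exp y = 1 := by
        rw [← Real.exp_add]
        have : ((2 : ℕ) : ℝ) * (-y / 2) + y = 0 := by push_cast; ring
        rw [this, Real.exp_zero]
      linear_combination (‖Pool.Agent.Helper68.BA.Sop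
        (Pool.Agent.Helper68.BA.ker 0 n (1 / 2)) R y‖ ^ 2) * this
    have hm : ∀ y, ‖f y‖ ^ 2 * Real.exp y = ‖R y‖ ^ 2 := by
      intro y
      rw [hRdef]
      simp only
      rw [norm_mul, Complex.norm_real, Real.norm_of_nonneg (Real.exp_pos _).le, mul_pow,
        ← Real.exp_nat_mul]
      have : ((2 : ℕ) : ℝ) * (y / 2) = y := by push_cast; ring
      rw [this]; ring
    simp only [hn, hm]
    exact iso_IS2 n R hR hRc
  · -- part 2
    set g : ℝ → ℂ := fun x => ((H (-x) : ℝ) : ℂ) with hgdef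
    have hg : Continuous g := by
      rw [hgdef]
      exact Complex.continuous_ofReal.comp (hH.comp continuous_neg)
    have hgc : HasCompactSupport g := by
      have h1 : HasCompactSupport (fun x : ℝ => H (-x)) := hHc.comp_homeomorph (Homeomorph.neg ℝ)
      exact h1.comp_left (g := fun x : ℝ => (x : ℂ)) Complex.ofReal_zero
    have hs : ((-1 : ℂ) ^ n) * (-1) ^ n = 1 := by
      rw [← mul_pow]
      norm_num
    have hB : ∀ y, ((Bst n H y : ℝ) : ℂ) = (-1) ^ n *
        Pool.Agent.Helper68.BA.Sop (Pool.Agent.Helper68.BA.ker 0 n (1 / 2)) g (-y) := by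
      intro y
      unfold Bst Pool.Agent.Helper68.BA.Sop
      have h2 : ∀ u : ℝ, ((Pool.Agent.Helper68.BA.ker 0 n (1 / 2) u : ℝ) : ℂ) * g (-y + u) =
          (-(-1) ^ n : ℂ) *
            ((pp n (Real.exp (-u)) * Real.exp (-u / 2) * H (y - u) : ℝ) : ℂ) := by
        intro u
        rw [ker_shift_IS2, ker_pp_IS2 hKR, hgdef]
        have : -(-y + u) = y - u := by ring
        simp only [this]
        push_cast
        ring
      simp only [h2]
      rw [integral_const_mul, integral_complex_ofReal]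
      simp only [hgdef, neg_neg]
      push_cast
      linear_combination (-(∫ u in Ioi (0 : ℝ), pp n (Real.exp (-u)) * Real.exp (-u / 2) *
        H (y - u) : ℝ) : ℂ) * hs
    have hsq : ∀ y, Bst n H y ^ 2 = ‖Pool.Agent.Helper68.BA.Sop
        (Pool.Agent.Helper68.BA.ker 0 n (1 / 2)) g (-y)‖ ^ 2 := by
      intro y
      have h1 : ‖((Bst n H y : ℝ) : ℂ)‖ ^ 2 = Bst n H y ^ 2 := by
        rw [Complex.norm_real, Real.norm_eq_abs, sq_abs]
      rw [← h1, hB, norm_mul, norm_pow, norm_neg, norm_one, one_pow, one_mul]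
    obtain ⟨i1, i2⟩ := iso_IS2 n g hg hgc
    refine ⟨?_, ?_, ?_⟩
    · have h1 : Continuous fun y => ((Bst n H y : ℝ) : ℂ) := by
        simp only [hB]
        exact continuous_const.mul ((cont_IS2 n g hg hgc).comp continuous_neg)
      have h2 := Complex.continuous_re.comp h1
      simpa [Function.comp_def] using h2
    · simp only [hsq]
      exact i1.comp_neg
    · simp only [hsq]
      rw [integral_neg_eq_self (fun y => ‖Pool.Agent.Helper68.BA.Sop
        (Pool.Agent.Helper68.BA.ker 0 n (1 / 2)) g y‖ ^ 2) volume, i2]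
      rw [← integral_neg_eq_self (fun y => H y ^ 2) volume]
      congr 1
      funext y
      rw [hgdef]
      simp only
      rw [Complex.norm_real, Real.norm_eq_abs, sq_abs]

end Helper69.CR
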