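import Pool.Agent.Helper69.CR.St
import Pool.Agent.Helper85.BPM.K2

/-! CR module KD (helper31): `‖k_d‖_2 ≤ Ŵ(d/4) ‖G‖_4²`. -/

set_option autoImplicit false

open MeasureTheory Set Filter Topology

namespace Helper69.CR

open Helper85.BP

private theorem int_A_KD {W : ℝ → ℝ} (hW : Adm 1 W) (r : ℝ) :
    Integrable (fun τ => W τ * (Real.cos (1 * τ * r) - 1 * τ * Real.sin (1 * τ * r))) := by
  refine Integrable.mono' (hW.int.const_mul 2) ?_ (Eventually.of_forall fun τ => ?_)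
  · exact (hW.cont.mul (by fun_prop)).aestronglyMeasurable
  · rw [Real.norm_eq_abs, abs_mul, abs_of_nonneg (hW.nonneg τ)]
    have h1 := Real.abs_cos_le_one (1 * τ * r)
    have h2 := Real.abs_sin_le_one (1 * τ * r)
    have h3 : |1 * τ| ≤ 1 + τ ^ 2 := by
      rw [one_mul]
      rcases abs_cases τ with h | h <;> nlinarith [sq_nonneg (τ - 1), sq_nonneg (τ + 1), sq_nonneg τ]
    have h4 : |Real.cos (1 * τ * r) - 1 * τ * Real.sin (1 * τ * r)| ≤ 2 * (1 + 1 ^ 2 * τ ^ 2) := by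
      calc |Real.cos (1 * τ * r) - 1 * τ * Real.sin (1 * τ * r)|
          ≤ |Real.cos (1 * τ * r)| + |1 * τ * Real.sin (1 * τ * r)| := abs_sub _ _
        _ = |Real.cos (1 * τ * r)| + |1 * τ| * |Real.sin (1 * τ * r)| := by rw [abs_mul (1 * τ)]
        _ ≤ 1 + |1 * τ| * 1 := by gcongr
        _ ≤ 2 * (1 + 1 ^ 2 * τ ^ 2) := by nlinarith [sq_nonneg τ]
    have := mul_le_mul_of_nonneg_left h4 (hW.nonneg τ)
    linarith

private theorem Wh_eq_KD {W : ℝ → ℝ} (hW : Adm 1 W) (s : ℝ) :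
    1 / 2 * Aw 1 W s + 1 / 2 * Aw 1 W (-s) = Wh 1 W s := by
  have h1 : Aw 1 W s + Aw 1 W (-s) = ∫ τ, 2 * (W τ * Real.cos (1 * τ * s)) := by
    rw [Aw, Aw, ← integral_add (int_A_KD hW s) (int_A_KD hW (-s))]
    congr 1
    funext τ
    rw [show 1 * τ * -s = -(1 * τ * s) by ring, Real.cos_neg, Real.sin_neg]
    ring
  rw [integral_const_mul] at h1
  rw [Wh]
  linarith

private theorem ptw_KD {W : ℝ → ℝ} (hW : Adm 1 W) (G : ℝ → ℂ) (d y : ℝ) :
    |kd W G d y| ≤ 1 / 2 * Aw 1 W (d / 4) * ‖G y‖ ^ 2 + 1 / 2 * Aw 1 W (-(d / 4)) * ‖G (y + d)‖ ^ 2 := by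
  obtain ⟨h1, h2, h3, -⟩ := Helper85.BP.P.Wh_ptw 1 one_pos W hW
  by_cases hG : G y = 0 ∨ G (y + d) = 0
  · have h0 : kd W G d y = 0 := by
      unfold kd
      rcases hG with h | h
      · rw [h]
        simp
      · rw [h]
        simp
    rw [h0, abs_zero]
    have := h2 (d / 4)
    have := h2 (-(d / 4))
    positivity
  · push Not at hG
    have hx : 0 < ‖G y‖ := norm_pos_iff.mpr hG.1
    have hz : 0 < ‖G (y + d)‖ := norm_pos_iff.mpr hG.2
    unfold kd
    rw [abs_mul, abs_of_nonneg (h1 _)]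
    have h4 : |(G y * (starRingEnd ℂ) (G (y + d))).re| ≤ ‖G y‖ * ‖G (y + d)‖ := by
      refine (Complex.abs_re_le_norm _).trans ?_
      rw [norm_mul, RCLike.norm_conj]
    have h5 := h3 (d / 4) (Real.log ‖G y‖ - Real.log ‖G (y + d)‖)
    have e1 : Real.exp (Real.log ‖G y‖ - Real.log ‖G (y + d)‖) = ‖G y‖ / ‖G (y + d)‖ := by
      rw [Real.exp_sub, Real.exp_log hx, Real.exp_log hz]
    have e2 : Real.exp (-(Real.log ‖G y‖ - Real.log ‖G (y + d)‖)) = ‖G (y + d)‖ / ‖G y‖ := by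
      rw [neg_sub, Real.exp_sub, Real.exp_log hx, Real.exp_log hz]
    rw [e1, e2, show d / 4 + (Real.log ‖G y‖ - Real.log ‖G (y + d)‖)
      = Real.log ‖G y‖ - Real.log ‖G (y + d)‖ + d / 4 by ring] at h5
    calc _ ≤ (‖G y‖ * ‖G (y + d)‖) * (1 / 2 * Aw 1 W (d / 4) * (‖G y‖ / ‖G (y + d)‖)
          + 1 / 2 * Aw 1 W (-(d / 4)) * (‖G (y + d)‖ / ‖G y‖)) :=
          mul_le_mul h4 h5 (h1 _) (by positivity)
      _ = _ := by
        field_simp

/-- CR module KD. -/
theorem hKD : StKD := by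
  intro W G d hW hG hGc
  obtain ⟨h1, h2, h3, h4, -⟩ := Helper85.BP.P.Wh_ptw 1 one_pos W hW
  have hmeas : Measurable (kd W G d) := by
    unfold kd
    have m1 : Measurable fun y => (G y * (starRingEnd ℂ) (G (y + d))).re := by
      have : Continuous fun y => (G y * (starRingEnd ℂ) (G (y + d))).re := by fun_prop
      exact this.measurable
    have m2 : Measurable fun y => Real.log ‖G y‖ - Real.log ‖G (y + d)‖ + d / 4 := by
      have c1 : Measurable fun y => ‖G y‖ := hG.norm.measurable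
      have c2 : Measurable fun y => ‖G (y + d)‖ := (hG.comp (continuous_id.add continuous_const)).norm.measurable
      exact ((Real.measurable_log.comp c1).sub (Real.measurable_log.comp c2)).add_const _
    exact m1.mul (h4.measurable.comp m2)
  set a := 1 / 2 * Aw 1 W (d / 4) with ha
  set b := 1 / 2 * Aw 1 W (-(d / 4)) with hb
  have ha0 : 0 ≤ a := by
    have := h2 (d / 4)
    positivity
  have hb0 : 0 ≤ b := by
    have := h2 (-(d / 4))
    positivity
  have hab : a + b = Wh 1 W (d / 4) := Wh_eq_KD hW (d / 4)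
  have i1 : Integrable fun y => ‖G y‖ ^ 4 := by
    refine Continuous.integrable_of_hasCompactSupport (by fun_prop) ?_
    exact hGc.comp_left (g := fun z : ℂ => ‖z‖ ^ 4) (by simp)
  have i2 : Integrable fun y => ‖G (y + d)‖ ^ 4 := i1.comp_add_right d
  have i3 : Integrable fun y => (a + b) * (a * ‖G y‖ ^ 4 + b * ‖G (y + d)‖ ^ 4) :=
    ((i1.const_mul a).add (i2.const_mul b)).const_mul _
  have hp : ∀ y, kd W G d y ^ 2 ≤ (a + b) * (a * ‖G y‖ ^ 4 + b * ‖G (y + d)‖ ^ 4) := by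
    intro y
    have e := ptw_KD hW G d y
    rw [← ha, ← hb] at e
    have e2 : kd W G d y ^ 2 ≤ (a * ‖G y‖ ^ 2 + b * ‖G (y + d)‖ ^ 2) ^ 2 := by
      rw [← sq_abs]
      exact pow_le_pow_left₀ (abs_nonneg _) e 2
    refine e2.trans ?_
    have := mul_nonneg (mul_nonneg ha0 hb0) (sq_nonneg (‖G y‖ ^ 2 - ‖G (y + d)‖ ^ 2))
    nlinarith [this]
  have i4 : Integrable fun y => kd W G d y ^ 2 := by
    refine i3.mono' (hmeas.pow_const 2).aestronglyMeasurable (Eventually.of_forall fun y => ?_)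
    rw [Real.norm_eq_abs, abs_of_nonneg (sq_nonneg _)]
    exact hp y
  refine ⟨i4, hmeas.aestronglyMeasurable, ?_⟩
  refine (integral_mono i4 i3 hp).trans (le_of_eq ?_)
  rw [integral_const_mul, integral_add (i1.const_mul a) (i2.const_mul b), integral_const_mul,
    integral_const_mul, integral_add_right_eq_self (fun y => ‖G y‖ ^ 4) d, ← hab]
  ring

end Helper69.CR
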