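import Pool.Agent.Helper69.CR.St

/-! CR module KP (helper31): the kernel `κ_{1/2}`. -/

set_option autoImplicit false

open MeasureTheory Set Filter Topology

namespace Helper69.CR

private theorem lap_KP (hPF : StPF) (n : ℕ) (z : ℝ) (hz : 0 < z) :
    IntegrableOn (fun v : ℝ => pp n (Real.exp (-v)) * Real.exp (-v * z)) (Ioi 0) ∧
      (-1) ^ n + ∫ v in Ioi (0 : ℝ), pp n (Real.exp (-v)) * Real.exp (-v * z) = Cn n z := by
  obtain ⟨h1, h2, -, h4⟩ := hPF
  have hz' : 0 < ((z : ℝ) : ℂ).re := by simpa using hz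
  obtain ⟨h2a, h2b⟩ := h2 n (z : ℂ) hz'
  have e : ∀ v : ℝ, ((pp n (Real.exp (-v)) : ℝ) : ℂ) * Complex.exp (-(v : ℂ) * (z : ℂ))
      = ((pp n (Real.exp (-v)) * Real.exp (-v * z) : ℝ) : ℂ) := by
    intro v
    push_cast
    rfl
  simp only [e] at h2a h2b
  refine ⟨?_, ?_⟩
  · have h5 : Integrable (fun v : ℝ => (((pp n (Real.exp (-v)) * Real.exp (-v * z) : ℝ) : ℂ)).re)
        (volume.restrict (Ioi 0)) := h2a.re
    simp only [Complex.ofReal_re] at h5
    exact h5
  · have h6 := h1 n (z : ℂ) hz'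
    rw [← h2b, h4, integral_complex_ofReal] at h6
    exact_mod_cast h6.symm

private theorem kap_eq_KP (hPF : StPF) (n : ℕ) (x : ℝ) :
    kap n x = ∑ i ∈ Finset.range n, (pc n i * Cn n ((i : ℝ) + 1 / 2)) * x ^ i := by
  have h0 : ∀ i : ℕ, 0 < (i : ℝ) + 1 / 2 := fun i => by positivity
  have e : ∀ v : ℝ, pp n (Real.exp (-v)) * pp n (Real.exp (-v) * x) * Real.exp (-v / 2)
      = ∑ i ∈ Finset.range n, (pc n i * x ^ i) * (pp n (Real.exp (-v)) * Real.exp (-v * ((i : ℝ) + 1 / 2))) := by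
    intro v
    have e1 : pp n (Real.exp (-v) * x) = ∑ i ∈ Finset.range n, pc n i * (Real.exp (-v) * x) ^ i := rfl
    rw [e1, Finset.mul_sum, Finset.sum_mul]
    refine Finset.sum_congr rfl fun i _ => ?_
    have e2 : Real.exp (-v * ((i : ℝ) + 1 / 2)) = Real.exp (-v) ^ i * Real.exp (-v / 2) := by
      rw [← Real.exp_nat_mul, ← Real.exp_add]
      congr 1
      ring
    rw [e2, mul_pow]
    ring
  unfold kap
  simp only [e]
  rw [integral_finsetSum]
  · have e3 : (-1) ^ n * pp n x = ∑ i ∈ Finset.range n, (-1) ^ n * (pc n i * x ^ i) := by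
      rw [← Finset.mul_sum]
      rfl
    rw [e3, ← Finset.sum_add_distrib]
    refine Finset.sum_congr rfl fun i _ => ?_
    rw [integral_const_mul, ← (lap_KP hPF n _ (h0 i)).2]
    ring
  · intro i _
    exact (lap_KP hPF n _ (h0 i)).1.const_mul _

private theorem Cn_half_KP (hPF : StPF) (n : ℕ) : Cn n (1 / 2) = 1 := by
  obtain ⟨-, -, h3, h4⟩ := hPF
  have h := h4 n (1 / 2)
  have h5 := h3 n
  push_cast at h
  rw [h5] at h
  exact_mod_cast h.symm

private theorem sign_KP (n i : ℕ) (hi : i < n) : 0 ≤ (-1) ^ i * Cn n ((i : ℝ) + 1 / 2) := by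
  unfold Cn
  rw [← Finset.prod_range_mul_prod_Ico _ hi.le, ← mul_assoc]
  refine mul_nonneg ?_ ?_
  · have e : (-1 : ℝ) ^ i = ∏ _k ∈ Finset.range i, (-1 : ℝ) := by
      rw [Finset.prod_const, Finset.card_range]
    rw [e, ← Finset.prod_mul_distrib]
    refine Finset.prod_nonneg fun k hk => ?_
    rw [Finset.mem_range] at hk
    have hk' : (k : ℝ) + 1 ≤ i := by exact_mod_cast hk
    rw [← mul_div_assoc]
    refine div_nonneg ?_ (by positivity)
    linarith
  · refine Finset.prod_nonneg fun k hk => ?_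
    rw [Finset.mem_Ico] at hk
    have hk' : (i : ℝ) ≤ k := by exact_mod_cast hk.1
    refine div_nonneg ?_ (by positivity)
    linarith

private theorem pc_sign_KP (n i : ℕ) : 0 ≤ (-1) ^ i * pc n i := by
  unfold pc
  have h : (-1 : ℝ) ^ i * (-1) ^ i = 1 := by
    rw [← mul_pow]
    simp
  calc (0 : ℝ) ≤ ((n + i).factorial : ℝ) / ((i.factorial : ℝ) ^ 2 * ((n - 1 - i).factorial : ℝ)) := by
        positivity
    _ = ((-1 : ℝ) ^ i * (-1) ^ i) * (((n + i).factorial : ℝ) / ((i.factorial : ℝ) ^ 2 * ((n - 1 - i).factorial : ℝ))) := by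
        rw [h]; ring
    _ = _ := by ring

/-- CR module KP. -/
theorem hKP (hPF : StPF) : StKP := by
  intro n hn
  refine ⟨?_, ?_⟩
  · have h0 : ∀ i < n, 0 ≤ pc n i * Cn n ((i : ℝ) + 1 / 2) := by
      intro i hi
      have h : (-1 : ℝ) ^ i * (-1) ^ i = 1 := by
        rw [← mul_pow]
        simp
      calc (0 : ℝ) ≤ ((-1) ^ i * pc n i) * ((-1) ^ i * Cn n ((i : ℝ) + 1 / 2)) :=
            mul_nonneg (pc_sign_KP n i) (sign_KP n i hi)
        _ = ((-1 : ℝ) ^ i * (-1) ^ i) * (pc n i * Cn n ((i : ℝ) + 1 / 2)) := by ring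
        _ = _ := by rw [h, one_mul]
    refine ⟨fun i => |pc n i * Cn n ((i : ℝ) + 1 / 2)|, fun i => abs_nonneg _, ?_, fun x => ?_⟩
    · have h1 : pc n 0 * Cn n (((0 : ℕ) : ℝ) + 1 / 2) ≠ 0 := by
        have h2 : Cn n (((0 : ℕ) : ℝ) + 1 / 2) = 1 := by
          rw [Nat.cast_zero, zero_add]
          exact Cn_half_KP hPF n
        rw [h2, mul_one]
        unfold pc
        positivity
      exact abs_pos.mpr h1
    · rw [kap_eq_KP hPF]
      refine Finset.sum_congr rfl fun i hi => ?_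
      beta_reduce
      rw [abs_of_nonneg (h0 i (Finset.mem_range.mp hi))]
  · intro ν hν x
    have hh : (0 : ℝ) < 1 / 2 := by norm_num
    have e : ∀ v : ℝ, pp n (Real.exp (-v)) * pp n (Real.exp (-v) * x) * Real.exp (-v / 2)
        = ∑ k ∈ Finset.range (2 * n), ν k x * (pp k (Real.exp (-v)) * Real.exp (-v * (1 / 2))) := by
      intro v
      rw [hν.exp, Finset.sum_mul]
      refine Finset.sum_congr rfl fun k _ => ?_
      rw [show -v / 2 = -v * (1 / 2) by ring]
      ring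
    unfold kap
    simp only [e]
    rw [integral_finsetSum]
    · rw [hν.alt, ← Finset.sum_add_distrib]
      refine Finset.sum_congr rfl fun k _ => ?_
      rw [integral_const_mul]
      have h1 := (lap_KP hPF k _ hh).2
      rw [Cn_half_KP hPF k] at h1
      have h2 : (∫ v in Ioi (0 : ℝ), pp k (Real.exp (-v)) * Real.exp (-v * (1 / 2))) = 1 - (-1) ^ k := by
        linarith
      rw [h2]
      ring
    · intro i _
      exact (lap_KP hPF i _ hh).1.const_mul _

end Helper69.CR
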