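import Pool.Agent.Helper69.CR.St

set_option autoImplicit false

open MeasureTheory Set Filter Topology

noncomputable section

namespace Helper69.CR

open Helper85.BP

private lemma num_KR (j : ℕ) : ∀ n : ℕ,
    (∏ i ∈ Finset.range n, ((1 : ℝ) + i + j)) * (j.factorial : ℝ) = ((n + j).factorial : ℝ) := by
  intro n
  induction n with
  | zero => simp
  | succ n ih =>
    rw [Finset.prod_range_succ]
    have h : ((n + 1 + j).factorial : ℝ) = ((n : ℝ) + j + 1) * ((n + j).factorial : ℝ) := by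
      have : n + 1 + j = (n + j) + 1 := by ring
      rw [this, Nat.factorial_succ]
      push_cast
      ring
    rw [h, ← ih]
    ring

private lemma low_KR : ∀ j : ℕ, (∏ i ∈ Finset.range j, ((j : ℝ) - i)) = (j.factorial : ℝ) := by
  intro j
  induction j with
  | zero => simp
  | succ j ih =>
    rw [Finset.prod_range_succ', Nat.factorial_succ]
    push_cast
    have h : ∀ i ∈ Finset.range j, ((j : ℝ) + 1 - ((i : ℝ) + 1)) = (j : ℝ) - i := fun i _ => by ring
    rw [Finset.prod_congr rfl h, ih]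
    ring

private lemma den_KR (j : ℕ) : ∀ m : ℕ,
    (∏ i ∈ (Finset.range (j + 1 + m)).erase j, ((j : ℝ) - i)) =
      (j.factorial : ℝ) * ((-1) ^ m * (m.factorial : ℝ)) := by
  intro m
  induction m with
  | zero =>
    have h : (Finset.range (j + 1 + 0)).erase j = Finset.range j := by
      ext i
      simp only [Finset.mem_erase, Finset.mem_range]
      omega
    rw [h, low_KR]
    simp
  | succ m ih =>
    have h : (Finset.range (j + 1 + (m + 1))).erase j =
        insert (j + 1 + m) ((Finset.range (j + 1 + m)).erase j) := by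
      ext i
      simp only [Finset.mem_erase, Finset.mem_range, Finset.mem_insert]
      omega
    have h2 : j + 1 + m ∉ (Finset.range (j + 1 + m)).erase j := by
      simp
    rw [h, Finset.prod_insert h2, ih, Nat.factorial_succ]
    push_cast
    ring

private lemma rc_KR (n j : ℕ) (h : j < n) :
    Pool.Agent.Helper68.BA.rc 0 n j = -(-1) ^ n * pc n j := by
  obtain ⟨m, rfl⟩ : ∃ m, n = j + 1 + m := ⟨n - (j + 1), by omega⟩
  have h1 : Pool.Agent.Helper68.BA.rc 0 (j + 1 + m) j =
      (∏ i ∈ Finset.range (j + 1 + m), ((1 : ℝ) + i + j)) /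
        ∏ i ∈ (Finset.range (j + 1 + m)).erase j, ((j : ℝ) - i) := by
    unfold Pool.Agent.Helper68.BA.rc
    congr 1
    refine Finset.prod_congr rfl fun i _ => ?_
    ring
  have h2 : j + 1 + m - 1 - j = m := by omega
  have hj : (j.factorial : ℝ) ≠ 0 := Nat.cast_ne_zero.2 (Nat.factorial_ne_zero j)
  have hm : (m.factorial : ℝ) ≠ 0 := Nat.cast_ne_zero.2 (Nat.factorial_ne_zero m)
  have hs : ((-1 : ℝ) ^ m) * (-1) ^ m = 1 := by
    rw [← mul_pow]
    norm_num
  have hs' : ((-1 : ℝ) ^ j) * (-1) ^ j = 1 := by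
    rw [← mul_pow]
    norm_num
  have hs0 : ((-1 : ℝ) ^ m) ≠ 0 := pow_ne_zero _ (by norm_num)
  have h3 := num_KR j (j + 1 + m)
  rw [h1, den_KR, eq_div_of_mul_eq hj h3]
  unfold pc
  rw [h2]
  have e1 : (-(-1 : ℝ) ^ (j + 1 + m)) * (-1) ^ j = (-1) ^ m := by
    rw [pow_add, pow_succ]
    linear_combination ((-1 : ℝ) ^ m) * hs'
  have e2 : ((j + 1 + m + j).factorial : ℝ) / (j.factorial : ℝ) /
      ((j.factorial : ℝ) * ((-1) ^ m * (m.factorial : ℝ))) =
      ((-1) ^ m) * (((j + 1 + m + j).factorial : ℝ) /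
        ((j.factorial : ℝ) ^ 2 * (m.factorial : ℝ))) := by
    rw [div_div, mul_div_assoc', div_eq_div_iff
      (mul_ne_zero hj (mul_ne_zero hj (mul_ne_zero hs0 hm)))
      (mul_ne_zero (pow_ne_zero 2 hj) hm)]
    linear_combination (-((j + 1 + m + j).factorial : ℝ) * (j.factorial : ℝ) ^ 2 *
      (m.factorial : ℝ)) * hs
  rw [e2, ← e1]
  ring

/-- **MODULE KR** -/
theorem hKR : StKR := by
  refine ⟨rc_KR, fun n f y => ?_⟩
  have hk : ∀ u : ℝ, Pool.Agent.Helper68.BA.ker 0 n 0 u = -(-1) ^ n * pp n (Real.exp (-u)) := by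
    intro u
    unfold Pool.Agent.Helper68.BA.ker pp
    rw [Finset.mul_sum]
    refine Finset.sum_congr rfl fun j hj => ?_
    rw [rc_KR n j (Finset.mem_range.1 hj), ← Real.exp_nat_mul]
    have : -(0 + (j : ℝ)) * u = (j : ℝ) * -u := by ring
    rw [this]
    ring
  have hs : ((-1 : ℂ) ^ n) * (-1) ^ n = 1 := by
    rw [← mul_pow]
    norm_num
  unfold Bop Pool.Agent.Helper68.BA.Sop
  have h2 : ∀ u : ℝ, ((Pool.Agent.Helper68.BA.ker 0 n 0 u : ℝ) : ℂ) * f (y + u) =
      (-(-1) ^ n : ℂ) * (((pp n (Real.exp (-u)) : ℝ) : ℂ) * f (y + u)) := by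
    intro u
    rw [hk]
    push_cast
    ring
  simp only [h2]
  rw [integral_const_mul]
  linear_combination (-(∫ u in Ioi (0 : ℝ), ((pp n (Real.exp (-u)) : ℝ) : ℂ) * f (y + u))) * hs

end Helper69.CR
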