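import Pool.Agent.Helper69.CR.St

/-!
# MP_3dd6d4_an, project CR, module LY: layer cake
-/

set_option autoImplicit false

open MeasureTheory Set Filter Topology

namespace Helper69.CR

private theorem upper_LY (φ : ℝ → ℝ) (hD : ∀ D, 0 ≤ D → 0 ≤ ∫ d in Ioi D, φ d) (S : Set ℝ)
    (hS0 : S ⊆ Ioi 0) (hup : ∀ x ∈ S, ∀ y, x ≤ y → y ∈ S) : 0 ≤ ∫ d in S, φ d := by
  rcases S.eq_empty_or_nonempty with h | h
  · rw [h]; simp
  · have hbdd : BddBelow S := ⟨0, fun x hx => (hS0 hx).le⟩
    set D := sInf S with hDdef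
    have hD0 : 0 ≤ D := le_csInf h fun x hx => (hS0 hx).le
    have h1 : S ⊆ Ici D := fun x hx => csInf_le hbdd hx
    have h2 : Ioi D ⊆ S := by
      intro x hx
      obtain ⟨y, hy, hyx⟩ := exists_lt_of_csInf_lt h (mem_Ioi.1 hx)
      exact hup y hy x hyx.le
    have h3 : S =ᵐ[volume] Ioi D := by
      refine (ae_eq_set).2 ⟨?_, ?_⟩
      · refine measure_mono_null (t := {D}) ?_ (by simp)
        rintro x ⟨hx1, hx2⟩
        exact le_antisymm (not_lt.1 hx2) (h1 hx1)
      · rw [sdiff_eq_empty.2 h2]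
        exact measure_empty
    rw [setIntegral_congr_set h3]
    exact hD D hD0

theorem hLY : StLY := by
  intro ρ φ hρ0 hρ hφ hφi hρφ hD
  set r : ℝ → ℝ := fun d => if 0 < d then ρ d else 0 with hr
  have hrpos : ∀ d, 0 ≤ r d := by
    intro d
    simp only [hr]
    split_ifs with h
    · exact hρ0 d h
    · exact le_rfl
  have hrmono : Monotone r := by
    intro x y hxy
    simp only [hr]
    by_cases hx : 0 < x
    · rw [if_pos hx, if_pos (lt_of_lt_of_le hx hxy)]
      exact hρ hx (lt_of_lt_of_le hx hxy : (0 : ℝ) < y) hxy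
    · rw [if_neg hx]
      exact hrpos y
  have hrm : Measurable r := hrmono.measurable
  have hrρ : ∀ d ∈ Ioi (0 : ℝ), r d = ρ d := fun d hd => by
    simp only [hr]; rw [if_pos (mem_Ioi.1 hd)]
  set μ : Measure ℝ := volume.restrict (Ioi 0) with hμ
  have hint : ∫ d in Ioi (0 : ℝ), ρ d * φ d = ∫ d, r d * φ d ∂μ :=
    setIntegral_congr_fun measurableSet_Ioi fun d hd => by
      show ρ d * φ d = r d * φ d
      rw [hrρ d hd]
  have hrφ : Integrable (fun d => r d * φ d) μ := by
    refine (integrableOn_congr_fun (fun d hd => ?_) measurableSet_Ioi).2 hρφ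
    show r d * φ d = ρ d * φ d
    rw [hrρ d hd]
  -- the function on the product
  set F : ℝ × ℝ → ℝ := {p : ℝ × ℝ | p.2 < r p.1}.indicator (fun p => φ p.1) with hF
  have hSm : MeasurableSet {p : ℝ × ℝ | p.2 < r p.1} :=
    measurableSet_lt measurable_snd (hrm.comp measurable_fst)
  have hFm : Measurable F := (hφ.measurable.comp measurable_fst).indicator hSm
  have hsec : ∀ d : ℝ, (fun l => F (d, l)) = (Iio (r d)).indicator (fun _ => φ d) := by
    intro d
    funext l
    simp only [hF, indicator, mem_ofPred_eq, mem_Iio]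
  have hvol : ∀ d : ℝ, μ (Iio (r d)) = ENNReal.ofReal (r d) := by
    intro d
    rw [hμ, Measure.restrict_apply measurableSet_Iio, Iio_inter_Ioi, Real.volume_Ioo, sub_zero]
  have hsecint : ∀ d : ℝ, ∫ l, F (d, l) ∂μ = r d * φ d := by
    intro d
    have h1 : ∫ l, F (d, l) ∂μ = ∫ l, (Iio (r d)).indicator (fun _ => φ d) l ∂μ := by
      rw [← hsec d]
    rw [h1, integral_indicator measurableSet_Iio, setIntegral_const, measureReal_def, hvol,
      ENNReal.toReal_ofReal (hrpos d), smul_eq_mul]
  have hsecn : ∀ d : ℝ, ∫ l, ‖F (d, l)‖ ∂μ = ‖r d * φ d‖ := by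
    intro d
    have h1 : (fun l => ‖F (d, l)‖) = (Iio (r d)).indicator (fun _ => ‖φ d‖) := by
      funext l
      have := congrFun (hsec d) l
      rw [this, norm_indicator_eq_indicator_norm]
    rw [h1, integral_indicator measurableSet_Iio, setIntegral_const, measureReal_def, hvol,
      ENNReal.toReal_ofReal (hrpos d), smul_eq_mul, norm_mul, Real.norm_of_nonneg (hrpos d)]
  have hFi : Integrable F (μ.prod μ) := by
    rw [integrable_prod_iff hFm.aestronglyMeasurable]
    constructor
    · refine Filter.Eventually.of_forall fun d => ?_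
      have h1 := hsec d
      show Integrable (fun l => F (d, l)) μ
      rw [h1]
      refine (integrable_indicator_iff measurableSet_Iio).2 ?_
      refine integrableOn_const (hs := ?_)
      rw [hvol]
      exact ENNReal.ofReal_ne_top
    · have h1 : (fun d => ∫ l, ‖F (d, l)‖ ∂μ) = fun d => ‖r d * φ d‖ := by
        funext d
        exact hsecn d
      rw [h1]
      exact hrφ.norm
  have hswap : ∫ d, ∫ l, F (d, l) ∂μ ∂μ = ∫ l, ∫ d, F (d, l) ∂μ ∂μ := by
    have h := integral_integral_swap (μ := μ) (ν := μ) (f := fun d l => F (d, l)) hFi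
    exact h
  have h1 : ∫ d, r d * φ d ∂μ = ∫ l, ∫ d, F (d, l) ∂μ ∂μ := by
    rw [← hswap]
    refine integral_congr_ae (Filter.Eventually.of_forall fun d => ?_)
    exact (hsecint d).symm
  rw [hint, h1]
  refine integral_nonneg_of_ae ?_
  rw [hμ]
  filter_upwards [ae_restrict_mem measurableSet_Ioi] with l hl
  have h2 : (fun d => F (d, l)) = {d | l < r d}.indicator φ := by
    funext d
    simp only [hF, indicator, mem_ofPred_eq]
  show 0 ≤ ∫ d, F (d, l) ∂(volume.restrict (Ioi 0))
  have hms : MeasurableSet {d | l < r d} := measurableSet_lt measurable_const hrm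
  rw [h2, integral_indicator hms, Measure.restrict_restrict hms]
  refine upper_LY φ hD _ inter_subset_right ?_
  rintro x ⟨hx1, hx2⟩ y hxy
  exact ⟨lt_of_lt_of_le hx1 (hrmono hxy), lt_of_lt_of_le hx2 hxy⟩

end Helper69.CR
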