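import Pool.Agent.Helper69.CR.St

/-!
# MP_3dd6d4_an, project CR, module NU: the bound of `C_n(1/p)`
-/

set_option autoImplicit false

namespace Helper69.CR

private theorem atanh_NU (u x : ℝ) (hu0 : 0 ≤ u) (hu1 : u < 1) (hx0 : 0 ≤ x) (hx1 : x ≤ 1) :
    Real.log (1 + u * x) - Real.log (1 - u * x) ≤ x * (Real.log (1 + u) - Real.log (1 - u)) := by
  have hux : u * x ≤ u := mul_le_of_le_one_right hu0 hx1
  have h1 := Real.hasSum_log_sub_log_of_abs_lt_one (x := u * x)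
    (by rw [abs_of_nonneg (mul_nonneg hu0 hx0)]; linarith)
  have h2 := (Real.hasSum_log_sub_log_of_abs_lt_one (x := u)
    (by rw [abs_of_nonneg hu0]; exact hu1)).mul_left x
  refine hasSum_le (fun k => ?_) h1 h2
  have h3 : (u * x) ^ (2 * k + 1) ≤ x * u ^ (2 * k + 1) := by
    rw [mul_pow, mul_comm]
    refine mul_le_mul_of_nonneg_right ?_ (pow_nonneg hu0 _)
    exact pow_le_of_le_one hx0 hx1 (by omega)
  have h4 : (0 : ℝ) ≤ 2 * (1 / (2 * (k : ℝ) + 1)) := by positivity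
  calc 2 * (1 / (2 * (k : ℝ) + 1)) * (u * x) ^ (2 * k + 1)
      ≤ 2 * (1 / (2 * (k : ℝ) + 1)) * (x * u ^ (2 * k + 1)) := mul_le_mul_of_nonneg_left h3 h4
    _ = x * (2 * (1 / (2 * (k : ℝ) + 1)) * u ^ (2 * k + 1)) := by ring

private theorem key_NU (n : ℕ) (hn : 1 ≤ n) (x : ℝ) (hx0 : 0 ≤ x) (hx1 : x ≤ 1) :
    (2 * (n : ℝ) + 1 + x) / (2 * (n : ℝ) + 1 - x) ≤ (((n : ℝ) + 1) / n) ^ x := by
  have hn0 : (1 : ℝ) ≤ n := by exact_mod_cast hn
  have hn1 : (0 : ℝ) < n := by linarith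
  have hm : (0 : ℝ) < 2 * (n : ℝ) + 1 := by positivity
  have hd : (0 : ℝ) < 2 * (n : ℝ) + 1 - x := by linarith
  have h := atanh_NU (1 / (2 * (n : ℝ) + 1)) x (by positivity)
    (by rw [div_lt_one hm]; linarith) hx0 hx1
  have e1 : 1 + 1 / (2 * (n : ℝ) + 1) * x = (2 * (n : ℝ) + 1 + x) / (2 * (n : ℝ) + 1) := by
    field_simp
  have e2 : 1 - 1 / (2 * (n : ℝ) + 1) * x = (2 * (n : ℝ) + 1 - x) / (2 * (n : ℝ) + 1) := by
    field_simp
  have e3 : 1 + 1 / (2 * (n : ℝ) + 1) = (2 * ((n : ℝ) + 1)) / (2 * (n : ℝ) + 1) := by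
    field_simp; ring
  have e4 : 1 - 1 / (2 * (n : ℝ) + 1) = (2 * (n : ℝ)) / (2 * (n : ℝ) + 1) := by
    field_simp; ring
  rw [e1, e2, e3, e4, ← Real.log_div (by positivity) (by positivity),
    ← Real.log_div (by positivity) (by positivity), div_div_div_cancel_right₀ hm.ne',
    div_div_div_cancel_right₀ hm.ne', mul_div_mul_left _ _ (two_ne_zero)] at h
  rw [Real.rpow_def_of_pos (by positivity), mul_comm (Real.log _) x,
    ← Real.log_le_iff_le_exp (div_pos (by positivity) hd)]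
  exact h

theorem hNU : StNU := by
  intro n p hn hp
  have hp0 : 0 < p := by linarith
  have ha0 : 0 < 1 / p := by positivity
  have ha1 : 1 / p ≤ 1 / 2 := one_div_le_one_div_of_le (by norm_num) hp
  have e0 : (2 : ℝ) / p = 2 * (1 / p) := by ring
  induction n, hn using Nat.le_induction with
  | base =>
    unfold Cn
    rw [Finset.prod_range_one, Nat.cast_one, Real.one_rpow, one_mul, Nat.cast_zero]
    apply le_of_eq
    field_simp
    ring
  | succ n hn ih =>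
    have hn0 : (1 : ℝ) ≤ n := by exact_mod_cast hn
    have hn1 : (0 : ℝ) < n := by linarith
    have h1 : Cn (n + 1) (1 / p) = Cn n (1 / p) * (((n : ℝ) + 1 - 1 / p) / ((n : ℝ) + 1 / p)) := by
      unfold Cn
      rw [Finset.prod_range_succ]
    have h2 := key_NU n hn (1 - 2 / p) (by rw [e0]; linarith) (by rw [e0]; linarith)
    have h3 : (2 * (n : ℝ) + 1 + (1 - 2 / p)) / (2 * (n : ℝ) + 1 - (1 - 2 / p)) =
        ((n : ℝ) + 1 - 1 / p) / ((n : ℝ) + 1 / p) := by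
      rw [show 2 * (n : ℝ) + 1 + (1 - 2 / p) = 2 * ((n : ℝ) + 1 - 1 / p) by rw [e0]; ring,
        show 2 * (n : ℝ) + 1 - (1 - 2 / p) = 2 * ((n : ℝ) + 1 / p) by rw [e0]; ring,
        mul_div_mul_left _ _ two_ne_zero]
    rw [h3] at h2
    rw [h1]
    have h4 : 0 ≤ ((n : ℝ) + 1 - 1 / p) / ((n : ℝ) + 1 / p) :=
      div_nonneg (by linarith) (by positivity)
    have h5 : 0 ≤ (n : ℝ) ^ (1 - 2 / p) * (p - 1) :=
      mul_nonneg (Real.rpow_nonneg hn1.le _) (by linarith)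
    calc Cn n (1 / p) * (((n : ℝ) + 1 - 1 / p) / ((n : ℝ) + 1 / p))
        ≤ ((n : ℝ) ^ (1 - 2 / p) * (p - 1)) * (((n : ℝ) + 1) / n) ^ (1 - 2 / p) :=
          mul_le_mul ih h2 h4 h5
      _ = ((n : ℝ) * (((n : ℝ) + 1) / n)) ^ (1 - 2 / p) * (p - 1) := by
          rw [Real.mul_rpow hn1.le (by positivity)]; ring
      _ = (((n + 1 : ℕ) : ℝ)) ^ (1 - 2 / p) * (p - 1) := by
          rw [mul_div_cancel₀ _ hn1.ne']; push_cast; rfl

end Helper69.CR
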