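import Pool.Agent.Helper69.CR.St

/-!
# Project CR, module SC: the scalar identity (helper13)
-/

set_option autoImplicit false

open MeasureTheory Set Filter Topology

namespace Helper69.CR

open Helper85.BP

/-- `c` coefficients of the kernel -/
noncomputable def bj_SC (n j : ℕ) : ℝ :=
  pc n j * ((-1) ^ n + ∑ i ∈ Finset.range n, pc n i / ((i : ℝ) + j + 1 / 2))

theorem exp_int_SC (s : ℝ) (hs : 0 < s) :
    IntegrableOn (fun v : ℝ => Real.exp (-s * v)) (Ioi 0) ∧
      ∫ v in Ioi (0 : ℝ), Real.exp (-s * v) = 1 / s := by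
  refine ⟨integrableOn_exp_mul_Ioi (by linarith) 0, ?_⟩
  rw [integral_exp_mul_Ioi (by linarith) 0]
  simp

theorem kap_SC (n : ℕ) (x : ℝ) : kap n x = ∑ j ∈ Finset.range n, bj_SC n j * x ^ j := by
  unfold kap
  have h1 : ∀ v : ℝ, pp n (Real.exp (-v)) * pp n (Real.exp (-v) * x) * Real.exp (-v / 2) =
      ∑ j ∈ Finset.range n, ∑ i ∈ Finset.range n,
        (pc n i * pc n j * x ^ j) * Real.exp (-((i : ℝ) + j + 1 / 2) * v) := by
    intro v
    simp only [pp]
    rw [Finset.sum_mul_sum, Finset.sum_mul, Finset.sum_comm]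
    refine Finset.sum_congr rfl fun j _ => ?_
    rw [Finset.sum_mul]
    refine Finset.sum_congr rfl fun i _ => ?_
    rw [mul_pow, ← Real.exp_nat_mul, ← Real.exp_nat_mul]
    have : Real.exp (-((j : ℝ) + i + 1 / 2) * v) =
        Real.exp ((j : ℝ) * -v) * Real.exp ((i : ℝ) * -v) * Real.exp (-v / 2) := by
      rw [← Real.exp_add, ← Real.exp_add]; ring_nf
    rw [this]
    ring
  simp only [h1]
  have hint : ∀ j i : ℕ, IntegrableOn (fun v : ℝ => (pc n i * pc n j * x ^ j) *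
      Real.exp (-((i : ℝ) + j + 1 / 2) * v)) (Ioi 0) := fun j i =>
    (exp_int_SC _ (by positivity)).1.const_mul _
  rw [integral_finsetSum _ (fun j _ => integrable_finsetSum _ (fun i _ => hint j i))]
  have h2 : ∀ j ∈ Finset.range n, ∫ v in Ioi (0 : ℝ), ∑ i ∈ Finset.range n,
        (pc n i * pc n j * x ^ j) * Real.exp (-((i : ℝ) + j + 1 / 2) * v) =
      ∑ i ∈ Finset.range n, (pc n i * pc n j * x ^ j) * (1 / ((i : ℝ) + j + 1 / 2)) := by
    intro j _
    rw [integral_finsetSum _ (fun i _ => hint j i)]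
    refine Finset.sum_congr rfl fun i _ => ?_
    rw [integral_const_mul, (exp_int_SC _ (by positivity)).2]
  rw [Finset.sum_congr rfl h2]
  simp only [pp, bj_SC]
  rw [Finset.mul_sum, ← Finset.sum_add_distrib]
  refine Finset.sum_congr rfl fun j _ => ?_
  rw [mul_add, add_mul, Finset.mul_sum, Finset.sum_mul]
  congr 1
  · ring
  · refine Finset.sum_congr rfl fun i _ => ?_
    ring

/-- `Re (1/(z+j))`, `z = 1/4 - it/4` -/
noncomputable def rr_SC (t : ℝ) (j : ℕ) : ℝ := (1 / 4 + j) / ((1 / 4 + j) ^ 2 + (t / 4) ^ 2)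

/-- `Im (1/(z+j))` -/
noncomputable def ss_SC (t : ℝ) (j : ℕ) : ℝ := (t / 4) / ((1 / 4 + j) ^ 2 + (t / 4) ^ 2)

theorem inv_SC (t : ℝ) (j : ℕ) :
    (1 / ((1 / 4 - Complex.I * (t : ℂ) / 4) + (j : ℂ))) = (rr_SC t j : ℂ) + (ss_SC t j : ℂ) * Complex.I := by
  have hD : (0 : ℝ) < (1 / 4 + j) ^ 2 + (t / 4) ^ 2 := by positivity
  have hDc : (((1 / 4 + j) ^ 2 + (t / 4) ^ 2 : ℝ) : ℂ) ≠ 0 := by exact_mod_cast hD.ne'
  have h1 : ((1 / 4 - Complex.I * (t : ℂ) / 4) + (j : ℂ)) * (((1 / 4 + j : ℝ) : ℂ) + ((t / 4 : ℝ) : ℂ) * Complex.I) =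
      (((1 / 4 + j) ^ 2 + (t / 4) ^ 2 : ℝ) : ℂ) := by
    push_cast
    linear_combination (-(t : ℂ) ^ 2 / 16) * Complex.I_sq
  have h2 : ((1 / 4 - Complex.I * (t : ℂ) / 4) + (j : ℂ)) ≠ 0 := by
    intro h
    rw [h, zero_mul] at h1
    exact hDc h1.symm
  rw [div_eq_iff h2]
  unfold rr_SC ss_SC
  rw [Complex.ofReal_div, Complex.ofReal_div, div_mul_eq_mul_div, ← add_div, div_mul_eq_mul_div, eq_div_iff hDc,
    one_mul, ← h1]
  ring

theorem lap_SC (t : ℝ) (j : ℕ) :
    IntegrableOn (fun d : ℝ => Real.exp (-d / 4) * Real.cos (t * d / 4) * Real.exp (-d) ^ j) (Ioi 0) ∧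
      ∫ d in Ioi (0 : ℝ), Real.exp (-d / 4) * Real.cos (t * d / 4) * Real.exp (-d) ^ j = rr_SC t j := by
  set a : ℂ := -((1 / 4 - Complex.I * (t : ℂ) / 4) + (j : ℂ)) with ha
  have hre : a.re = -(1 / 4 + j) := by
    simp [ha, Complex.add_re, Complex.sub_re]
  have him : a.im = t / 4 := by
    simp [ha, Complex.add_im, Complex.sub_im]
  have hneg : a.re < 0 := by
    rw [hre]
    have : (0 : ℝ) ≤ j := Nat.cast_nonneg j
    linarith
  have hI := integrableOn_exp_mul_complex_Ioi hneg 0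
  have hE := integral_exp_mul_complex_Ioi hneg 0
  have hpt : ∀ d : ℝ, Real.exp (-d / 4) * Real.cos (t * d / 4) * Real.exp (-d) ^ j =
      RCLike.re (Complex.exp (a * (d : ℂ))) := by
    intro d
    show _ = (Complex.exp (a * (d : ℂ))).re
    rw [Complex.exp_re]
    have h1 : (a * (d : ℂ)).re = -(1 / 4 + j) * d := by
      rw [Complex.mul_re, hre, Complex.ofReal_re, Complex.ofReal_im]; ring
    have h2 : (a * (d : ℂ)).im = t * d / 4 := by
      rw [Complex.mul_im, him, Complex.ofReal_re, Complex.ofReal_im]; ring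
    rw [h1, h2, ← Real.exp_nat_mul]
    have : Real.exp (-(1 / 4 + (j : ℝ)) * d) = Real.exp (-d / 4) * Real.exp ((j : ℝ) * -d) := by
      rw [← Real.exp_add]; ring_nf
    rw [this]; ring
  simp only [hpt]
  refine ⟨hI.re, ?_⟩
  rw [integral_re hI, hE]
  show (-Complex.exp (a * ((0 : ℝ) : ℂ)) / a).re = _
  rw [Complex.ofReal_zero, mul_zero, Complex.exp_zero]
  have : (-1 : ℂ) / a = 1 / ((1 / 4 - Complex.I * (t : ℂ) / 4) + (j : ℂ)) := by
    rw [ha, neg_div_neg_eq]
  rw [this, inv_SC]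
  simp

theorem part1_SC (hPF : StPF) (n : ℕ) (t : ℝ) :
    ‖mm n (1 / 4 - Complex.I * (t : ℂ) / 4)‖ ^ 2 =
      1 + 2 * ∑ j ∈ Finset.range n, bj_SC n j * rr_SC t j := by
  have hz : (0 : ℝ) < (1 / 4 - Complex.I * (t : ℂ) / 4 : ℂ).re := by
    simp
  rw [hPF.1 n _ hz]
  have h1 : ((-1 : ℂ) ^ n + ∑ i ∈ Finset.range n, ((pc n i : ℝ) : ℂ) / ((1 / 4 - Complex.I * (t : ℂ) / 4) + i)) =
      (((-1) ^ n + ∑ i ∈ Finset.range n, pc n i * rr_SC t i : ℝ) : ℂ) +
        ((∑ i ∈ Finset.range n, pc n i * ss_SC t i : ℝ) : ℂ) * Complex.I := by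
    push_cast
    rw [Finset.sum_mul, add_assoc, ← Finset.sum_add_distrib]
    congr 1
    refine Finset.sum_congr rfl fun i _ => ?_
    rw [div_eq_mul_one_div, inv_SC]
    ring
  rw [h1, Complex.sq_norm, Complex.normSq_add_mul_I]
  set R : ℝ := ∑ i ∈ Finset.range n, pc n i * rr_SC t i with hR
  set S : ℝ := ∑ i ∈ Finset.range n, pc n i * ss_SC t i with hS
  have hsq : ((-1 : ℝ) ^ n) ^ 2 = 1 := by rw [← pow_mul, mul_comm, pow_mul]; norm_num
  have hRS : R ^ 2 + S ^ 2 = ∑ i ∈ Finset.range n, ∑ j ∈ Finset.range n,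
      pc n i * pc n j * ((rr_SC t i + rr_SC t j) / ((i : ℝ) + j + 1 / 2)) := by
    rw [hR, hS, sq, sq, Finset.sum_mul_sum, Finset.sum_mul_sum, ← Finset.sum_add_distrib]
    refine Finset.sum_congr rfl fun i _ => ?_
    rw [← Finset.sum_add_distrib]
    refine Finset.sum_congr rfl fun j _ => ?_
    unfold rr_SC ss_SC
    have hi : (0 : ℝ) < (1 / 4 + i) ^ 2 + (t / 4) ^ 2 := by positivity
    have hj : (0 : ℝ) < (1 / 4 + j) ^ 2 + (t / 4) ^ 2 := by positivity
    have hij : (0 : ℝ) < (i : ℝ) + j + 1 / 2 := by positivity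
    rw [div_add_div _ _ hi.ne' hj.ne']
    field_simp
    ring
  have hsym : ∑ i ∈ Finset.range n, ∑ j ∈ Finset.range n,
      pc n i * pc n j * ((rr_SC t i + rr_SC t j) / ((i : ℝ) + j + 1 / 2)) =
      2 * ∑ j ∈ Finset.range n, ∑ i ∈ Finset.range n,
        pc n j * (pc n i / ((i : ℝ) + j + 1 / 2)) * rr_SC t j := by
    have e1 : ∑ i ∈ Finset.range n, ∑ j ∈ Finset.range n,
        pc n i * pc n j * ((rr_SC t i + rr_SC t j) / ((i : ℝ) + j + 1 / 2)) =
        ∑ i ∈ Finset.range n, ∑ j ∈ Finset.range n, pc n i * pc n j * (rr_SC t i / ((i : ℝ) + j + 1 / 2)) +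
        ∑ i ∈ Finset.range n, ∑ j ∈ Finset.range n, pc n i * pc n j * (rr_SC t j / ((i : ℝ) + j + 1 / 2)) := by
      rw [← Finset.sum_add_distrib]
      refine Finset.sum_congr rfl fun i _ => ?_
      rw [← Finset.sum_add_distrib]
      refine Finset.sum_congr rfl fun j _ => ?_
      ring
    rw [e1, two_mul]
    congr 1
    · refine Finset.sum_congr rfl fun i _ => Finset.sum_congr rfl fun j _ => ?_
      rw [add_comm (i : ℝ) (j : ℝ)]; ring
    · rw [Finset.sum_comm]
      refine Finset.sum_congr rfl fun i _ => Finset.sum_congr rfl fun j _ => ?_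
      ring
  have hb : ∑ j ∈ Finset.range n, bj_SC n j * rr_SC t j = (-1) ^ n * R +
      ∑ j ∈ Finset.range n, ∑ i ∈ Finset.range n,
        pc n j * (pc n i / ((i : ℝ) + j + 1 / 2)) * rr_SC t j := by
    rw [hR, Finset.mul_sum, ← Finset.sum_add_distrib]
    refine Finset.sum_congr rfl fun j _ => ?_
    unfold bj_SC
    rw [mul_add, add_mul, Finset.mul_sum, Finset.sum_mul]
    congr 1
    ring
  rw [hb]
  have : R ^ 2 + S ^ 2 = 2 * ∑ j ∈ Finset.range n, ∑ i ∈ Finset.range n,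
        pc n j * (pc n i / ((i : ℝ) + j + 1 / 2)) * rr_SC t j := by rw [hRS, hsym]
  linear_combination hsq + this

theorem W_int_SC (W : ℝ → ℝ) (hW : Adm 1 W) : Integrable W := by
  refine Integrable.mono' hW.int hW.cont.aestronglyMeasurable (Eventually.of_forall fun τ => ?_)
  rw [Real.norm_eq_abs, abs_of_nonneg (hW.nonneg τ)]
  have := hW.nonneg τ
  nlinarith [mul_nonneg (sq_nonneg τ) this]

/-- Fubini for one exponential -/
theorem fub_SC (W : ℝ → ℝ) (hW : Adm 1 W) (j : ℕ) :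
    IntegrableOn (fun d : ℝ => Real.exp (-d / 4) * Wh 1 W (d / 4) * Real.exp (-d) ^ j) (Ioi 0) ∧
      ∫ d in Ioi (0 : ℝ), Real.exp (-d / 4) * Wh 1 W (d / 4) * Real.exp (-d) ^ j =
        ∫ t, W t * rr_SC t j ∧ Integrable (fun t => W t * rr_SC t j) := by
  have hWi := W_int_SC W hW
  have hE : IntegrableOn (fun d : ℝ => Real.exp (-(1 / 4 + (j : ℝ)) * d)) (Ioi 0) :=
    (exp_int_SC _ (by positivity)).1
  have hprod : Integrable (fun p : ℝ × ℝ => Real.exp (-(1 / 4 + (j : ℝ)) * p.1) * W p.2)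
      ((volume.restrict (Ioi (0 : ℝ))).prod volume) := hE.mul_prod hWi
  have hF : Integrable (fun p : ℝ × ℝ => (Real.exp (-p.1 / 4) * Real.exp (-p.1) ^ j) *
      (W p.2 * Real.cos (p.2 * p.1 / 4))) ((volume.restrict (Ioi (0 : ℝ))).prod volume) := by
    refine Integrable.mono' hprod.norm ?_ (Eventually.of_forall fun p => ?_)
    · have hc : Continuous (fun p : ℝ × ℝ => (Real.exp (-p.1 / 4) * Real.exp (-p.1) ^ j) *
          (W p.2 * Real.cos (p.2 * p.1 / 4))) := by
        have := hW.cont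
        fun_prop
      exact hc.aestronglyMeasurable
    · have h1 : Real.exp (-p.1 / 4) * Real.exp (-p.1) ^ j = Real.exp (-(1 / 4 + (j : ℝ)) * p.1) := by
        rw [← Real.exp_nat_mul, ← Real.exp_add]; ring_nf
      rw [h1, norm_mul, norm_mul, norm_mul]
      refine mul_le_mul_of_nonneg_left ?_ (norm_nonneg _)
      calc ‖W p.2‖ * ‖Real.cos (p.2 * p.1 / 4)‖ ≤ ‖W p.2‖ * 1 :=
            mul_le_mul_of_nonneg_left (Real.abs_cos_le_one _) (norm_nonneg _)
        _ = ‖W p.2‖ := mul_one _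
  have hWh : ∀ d : ℝ, Real.exp (-d / 4) * Wh 1 W (d / 4) * Real.exp (-d) ^ j =
      ∫ t, (Real.exp (-d / 4) * Real.exp (-d) ^ j) * (W t * Real.cos (t * d / 4)) := by
    intro d
    rw [integral_const_mul]
    unfold Wh
    have : ∀ τ : ℝ, W τ * Real.cos (1 * τ * (d / 4)) = W τ * Real.cos (τ * d / 4) := by
      intro τ; rw [show 1 * τ * (d / 4) = τ * d / 4 by ring]
    simp only [this]
    ring
  have hswap := integral_integral_swap (f := fun (d t : ℝ) => (Real.exp (-d / 4) * Real.exp (-d) ^ j) *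
      (W t * Real.cos (t * d / 4))) (μ := volume.restrict (Ioi (0 : ℝ))) (ν := volume) hF
  have hinner : ∀ t : ℝ, ∫ d in Ioi (0 : ℝ), (Real.exp (-d / 4) * Real.exp (-d) ^ j) *
      (W t * Real.cos (t * d / 4)) = W t * rr_SC t j := by
    intro t
    rw [← (lap_SC t j).2, ← integral_const_mul]
    refine integral_congr_ae (Eventually.of_forall fun d => ?_)
    simp only []
    ring
  refine ⟨?_, ?_, ?_⟩
  · have := hF.integral_prod_left
    refine this.congr (Eventually.of_forall fun d => ?_)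
    exact (hWh d).symm
  · simp only [hWh]
    rw [hswap]
    exact integral_congr_ae (Eventually.of_forall hinner)
  · have := hF.integral_prod_right
    exact this.congr (Eventually.of_forall hinner)

theorem hSC (hPF : StPF) : StSC := by
  intro n _
  refine ⟨?_, ?_⟩
  · intro t
    rw [part1_SC hPF]
    congr 2
    have h1 : ∀ d : ℝ, Real.exp (-d / 4) * Real.cos (t * d / 4) * kap n (Real.exp (-d)) =
        ∑ j ∈ Finset.range n, bj_SC n j *
          (Real.exp (-d / 4) * Real.cos (t * d / 4) * Real.exp (-d) ^ j) := by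
      intro d
      rw [kap_SC, Finset.mul_sum]
      refine Finset.sum_congr rfl fun j _ => ?_
      ring
    simp only [h1]
    rw [integral_finsetSum _ (fun j _ => ((lap_SC t j).1).const_mul _)]
    refine Finset.sum_congr rfl fun j _ => ?_
    rw [integral_const_mul, (lap_SC t j).2]
  · intro W hW
    have h1 : ∀ d : ℝ, Real.exp (-d / 4) * Wh 1 W (d / 4) * kap n (Real.exp (-d)) =
        ∑ j ∈ Finset.range n, bj_SC n j *
          (Real.exp (-d / 4) * Wh 1 W (d / 4) * Real.exp (-d) ^ j) := by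
      intro d
      rw [kap_SC, Finset.mul_sum]
      refine Finset.sum_congr rfl fun j _ => ?_
      ring
    simp only [h1]
    refine ⟨integrable_finsetSum _ (fun j _ => ((fub_SC W hW j).1).const_mul _), ?_⟩
    rw [integral_finsetSum _ (fun j _ => ((fub_SC W hW j).1).const_mul _)]
    have h2 : ∀ t : ℝ, W t * ‖mm n (1 / 4 - Complex.I * (t : ℂ) / 4)‖ ^ 2 =
        W t + ∑ j ∈ Finset.range n, (2 * bj_SC n j) * (W t * rr_SC t j) := by
      intro t
      rw [part1_SC hPF, mul_add, mul_one, Finset.mul_sum, Finset.mul_sum]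
      congr 1
      refine Finset.sum_congr rfl fun j _ => ?_
      ring
    simp only [h2]
    rw [integral_add (W_int_SC W hW) (integrable_finsetSum _ (fun j _ => ((fub_SC W hW j).2.2).const_mul _)),
      integral_finsetSum _ (fun j _ => ((fub_SC W hW j).2.2).const_mul _)]
    congr 1
    · unfold Wh
      refine integral_congr_ae (Eventually.of_forall fun t => ?_)
      simp
    · rw [Finset.mul_sum]
      refine Finset.sum_congr rfl fun j _ => ?_
      rw [integral_const_mul, integral_const_mul, (fub_SC W hW j).2.1]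
      ring

end Helper69.CR
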