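import Pool.Agent.Helper69.CR.St
import Pool.Agent.Helper85.BS_P

/-!
# MP_3dd6d4_an, project CR, module ST: Stein interpolation (helper36)
-/

set_option autoImplicit false

open MeasureTheory Set Filter Topology

noncomputable section

namespace Helper69.CR

open Helper85.BP Helper85.BP.P Helper85.BS

private theorem supp_bound_ST (g : ℝ → ℂ) (hgs : HasCompactSupport g) :
    ∃ R : ℝ, 0 ≤ R ∧ ∀ x, R < |x| → g x = 0 := by
  obtain ⟨R, hR⟩ := hgs.isCompact.isBounded.subset_closedBall (0 : ℝ)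
  refine ⟨|R|, abs_nonneg _, fun x hx => ?_⟩
  by_contra h
  have h1 := hR (subset_tsupport g h)
  rw [Metric.mem_closedBall, dist_zero_right, Real.norm_eq_abs] at h1
  linarith [le_abs_self R]

private theorem Bop_cont_ST (n : ℕ) (g : ℝ → ℂ) (hg : Continuous g) (hgs : HasCompactSupport g) :
    Continuous (Bop n g) := by
  unfold Bop
  refine (continuous_const.mul hg).add ?_
  rw [continuous_iff_continuousAt]
  intro y0
  obtain ⟨R, hR0, hR⟩ := supp_bound_ST g hgs
  obtain ⟨M, hM⟩ := hgs.exists_bound_of_continuous hg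
  have hpc : Continuous (fun u : ℝ => pp n (Real.exp (-u))) := by
    unfold pp
    fun_prop
  obtain ⟨M2, hM2⟩ := isCompact_Icc.exists_bound_of_continuousOn
    (f := fun u : ℝ => pp n (Real.exp (-u))) (s := Icc (-(R + |y0| + 1)) (R + |y0| + 1))
    hpc.continuousOn
  have hM0 : 0 ≤ M := (norm_nonneg _).trans (hM 0)
  apply continuousAt_of_dominated
    (bound := (Icc (-(R + |y0| + 1)) (R + |y0| + 1)).indicator (fun _ => |M2| * M))
  · refine Filter.Eventually.of_forall fun y => Continuous.aestronglyMeasurable ?_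
    exact (Complex.continuous_ofReal.comp hpc).mul (hg.comp (continuous_const.add continuous_id))
  · have hev : ∀ᶠ y in 𝓝 y0, |y| < |y0| + 1 := by
      have h := (continuous_abs.tendsto y0).eventually (gt_mem_nhds (lt_add_one |y0|))
      exact h
    filter_upwards [hev] with y hy
    refine Filter.Eventually.of_forall fun u => ?_
    by_cases hu : u ∈ Icc (-(R + |y0| + 1)) (R + |y0| + 1)
    · rw [indicator_of_mem hu, norm_mul, Complex.norm_real]
      exact mul_le_mul ((hM2 u hu).trans (le_abs_self _)) (hM _) (norm_nonneg _) (abs_nonneg _)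
    · rw [indicator_of_notMem hu]
      have h1 : R < |y + u| := by
        rw [mem_Icc, not_and_or, not_le, not_le] at hu
        rcases hu with h | h
        · rw [lt_abs]
          right
          have := neg_abs_le y
          have := le_abs_self y
          linarith
        · rw [lt_abs]
          left
          have := neg_abs_le y
          linarith
      rw [hR _ h1, mul_zero, norm_zero]
  · rw [integrable_indicator_iff measurableSet_Icc]
    refine integrableOn_const (hs := ?_)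
    exact ne_of_lt ((Measure.restrict_apply_le _ _).trans_lt measure_Icc_lt_top)
  · refine Filter.Eventually.of_forall fun u => ?_
    exact (continuous_const.mul (hg.comp (continuous_id.add continuous_const))).continuousAt

private theorem cs_ST (w : ℝ → ℂ) (a b : ℝ → ℝ) (ha : Integrable a) (hb : Integrable b)
    (ha0 : ∀ y, 0 ≤ a y) (hb0 : ∀ y, 0 ≤ b y) (hw : ∀ y, ‖w y‖ ^ 2 ≤ a y * b y) :
    ‖∫ y, w y‖ ^ 2 ≤ (∫ y, a y) * ∫ y, b y := by
  have hA : 0 ≤ ∫ y, a y := integral_nonneg ha0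
  have hB : 0 ≤ ∫ y, b y := integral_nonneg hb0
  have hX : 0 ≤ ‖∫ y, w y‖ := norm_nonneg _
  have key : ∀ x : ℝ, 0 ≤ (∫ y, a y) * (x * x) + (-2 * ‖∫ y, w y‖) * x + ∫ y, b y := by
    intro x
    rcases le_or_gt x 0 with hx | hx
    · nlinarith [mul_nonneg hA (mul_self_nonneg x), mul_nonneg hX (neg_nonneg.2 hx)]
    · have h1 : ‖∫ y, w y‖ ≤ ∫ y, (x * a y + x⁻¹ * b y) / 2 := by
        apply norm_integral_le_of_norm_le
        · exact ((ha.const_mul x).add (hb.const_mul x⁻¹)).div_const 2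
        · refine Filter.Eventually.of_forall fun y => ?_
          have h2 := hw y
          have h3 : (x * a y) * (x⁻¹ * b y) = a y * b y := by
            field_simp
          have h4 : 0 ≤ x * a y := mul_nonneg hx.le (ha0 y)
          have h5 : 0 ≤ x⁻¹ * b y := mul_nonneg (inv_nonneg.2 hx.le) (hb0 y)
          have h6 : ‖w y‖ ^ 2 ≤ ((x * a y + x⁻¹ * b y) / 2) ^ 2 := by
            nlinarith [sq_nonneg (x * a y - x⁻¹ * b y)]
          exact (pow_le_pow_iff_left₀ (norm_nonneg _) (by positivity) two_ne_zero).1 h6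
      rw [integral_div, integral_add (ha.const_mul x) (hb.const_mul x⁻¹), integral_const_mul,
        integral_const_mul] at h1
      have h2 : x * ‖∫ y, w y‖ ≤ x * ((x * (∫ y, a y) + x⁻¹ * ∫ y, b y) / 2) :=
        mul_le_mul_of_nonneg_left h1 hx.le
      have h3 : x * (x⁻¹ * ∫ y, b y) = ∫ y, b y := by
        field_simp
      nlinarith
  have := discrim_le_zero key
  unfold discrim at this
  nlinarith

private theorem az_re_ST (z : ℂ) : (az z).re = 1 / 2 - z.re / 4 := by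
  simp [az]

private theorem pw_norm_ST (hPZ : StPZ) (w c : ℂ) (hw : 0 < w.re) : ‖pw w c‖ = ‖c‖ ^ w.re := by
  by_cases hc : c = 0
  · subst hc
    simp [pw, Real.zero_rpow hw.ne']
  · exact hPZ.2.1 w c hc

private theorem pw_zero_ST (w : ℂ) : pw w 0 = 0 := by
  simp [pw]

private theorem re_mul_ST (p : ℝ) (w : ℂ) : ((p : ℂ) * w).re = p * w.re := by
  simp

private theorem fz_norm_ST (hPZ : StPZ) (p : ℝ) (hp : 0 < p) (F : ℝ → ℂ) (z : ℂ) (hz1 : z.re ≤ 1)
    (y : ℝ) : ‖fz p F z y‖ =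
      Real.exp (-(1 / 2 - z.re / 4) * y) * ‖F y‖ ^ (p * (1 / 2 - z.re / 4)) := by
  unfold fz
  have h1 : 0 < ((p : ℂ) * az z).re := by
    rw [re_mul_ST, az_re_ST]
    apply mul_pos hp
    linarith
  rw [norm_mul, pw_norm_ST hPZ _ _ h1, re_mul_ST, az_re_ST, Complex.norm_exp]
  congr 2
  rw [Complex.mul_re, Complex.neg_re, az_re_ST, Complex.ofReal_re, Complex.ofReal_im]
  ring

private theorem gz_norm_ST (hPZ : StPZ) (p : ℝ) (hp : 0 < p) (χ : ℝ → ℝ) (hχ0 : ∀ y, 0 ≤ χ y)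
    (h : ℝ → ℂ) (z : ℂ) (hz0 : 0 ≤ z.re)
    (y : ℝ) : ‖gz p χ h z y‖ =
      χ y * Real.exp ((1 / 2 - z.re / 4) * y) * ‖h y‖ ^ (p * (1 / 2 + z.re / 4)) := by
  unfold gz
  have e : (1 - az z).re = 1 / 2 + z.re / 4 := by
    rw [Complex.sub_re, az_re_ST, Complex.one_re]
    ring
  have h1 : 0 < ((p : ℂ) * (1 - az z)).re := by
    rw [re_mul_ST, e]
    apply mul_pos hp
    linarith
  rw [norm_mul, norm_mul, pw_norm_ST hPZ _ _ h1, re_mul_ST, e, Complex.norm_exp, Complex.norm_real,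
    Real.norm_eq_abs, abs_of_nonneg (hχ0 y), RCLike.norm_conj]
  congr 3
  rw [Complex.mul_re, az_re_ST, Complex.ofReal_re, Complex.ofReal_im]
  ring

private theorem fz_cont_ST (hPZ : StPZ) (p : ℝ) (hp : 0 < p) (F : ℝ → ℂ) (hF : Continuous F)
    (z : ℂ) (hz1 : z.re ≤ 1) : Continuous (fz p F z) := by
  have h1 : 0 < ((p : ℂ) * az z).re := by
    rw [re_mul_ST, az_re_ST]
    apply mul_pos hp
    linarith
  have h2 := (hPZ.1 _ h1).comp hF
  unfold fz
  refine Continuous.mul ?_ h2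
  fun_prop

private theorem fz_supp_ST (p : ℝ) (F : ℝ → ℂ) (hFs : HasCompactSupport F)
    (z : ℂ) : HasCompactSupport (fz p F z) := by
  refine hFs.mono fun y hy => ?_
  rw [Function.mem_support] at hy ⊢
  intro h
  apply hy
  unfold fz
  rw [h, pw_zero_ST, mul_zero]

private theorem re_mul_exp_ST (a : ℝ) (x : ℝ) (hx : 0 ≤ x) (k : ℕ) :
    (x ^ a) ^ k = x ^ (a * k) := by
  rw [Real.rpow_mul hx, Real.rpow_natCast]

/-- `f_z` on the line `Re z = 1`. -/
private theorem fz_one_ST (hPZ : StPZ) (p : ℝ) (hp : 0 < p) (F : ℝ → ℂ) (τ : ℝ) :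
    fz p F (1 + Complex.I * τ) = ph τ (fun y => pw ((p / 4 : ℝ) : ℂ) (F y)) := by
  funext y
  unfold fz ph
  simp only
  by_cases hF : F y = 0
  · rw [hF, pw_zero_ST, pw_zero_ST]
    simp
  · have hn : (0 : ℝ) < ‖F y‖ := norm_pos_iff.2 hF
    have hn' : ((‖F y‖ : ℝ) : ℂ) ≠ 0 := by exact_mod_cast hn.ne'
    have hG : ‖pw ((p / 4 : ℝ) : ℂ) (F y)‖ = ‖F y‖ ^ (p / 4) := by
      rw [pw_norm_ST hPZ _ _ (by simpa using by positivity)]
      simp
    rw [hG, Real.log_rpow hn]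
    unfold pw
    have e1 : az (1 + Complex.I * τ) = 1 / 4 - Complex.I * τ / 4 := by
      unfold az
      ring
    rw [e1]
    have e2 : ((‖F y‖ : ℝ) : ℂ) ^ ((p : ℂ) * (1 / 4 - Complex.I * τ / 4) - 1) =
        ((‖F y‖ : ℝ) : ℂ) ^ (((p / 4 : ℝ) : ℂ) - 1) *
          Complex.exp (-(Complex.I * (τ * (p / 4 * Real.log ‖F y‖) : ℝ))) := by
      rw [Complex.cpow_def_of_ne_zero hn', Complex.cpow_def_of_ne_zero hn', ← Complex.exp_add,
        ← Complex.ofReal_log hn.le]
      congr 1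
      push_cast
      ring
    rw [e2]
    have e3 : Complex.exp (-(1 / 4 - Complex.I * τ / 4) * y) =
        ((Real.exp (-y / 4) : ℝ) : ℂ) * Complex.exp (Complex.I * ((τ * (y / 4) : ℝ) : ℂ)) := by
      rw [Complex.ofReal_exp, ← Complex.exp_add]
      congr 1
      push_cast
      ring
    rw [e3]
    have e4 : Complex.exp (Complex.I * ((τ * (y / 4 - p / 4 * Real.log ‖F y‖) : ℝ) : ℂ)) =
        Complex.exp (Complex.I * ((τ * (y / 4) : ℝ) : ℂ)) *
          Complex.exp (-(Complex.I * ((τ * (p / 4 * Real.log ‖F y‖) : ℝ) : ℂ))) := by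
      rw [← Complex.exp_add]
      congr 1
      push_cast
      ring
    rw [e4]
    ring

/-- the bounds on the two sides of the strip and the value at `θ`. -/
private theorem sides_ST (hPZ : StPZ) (hIS : StIS2)
    (n : ℕ) (p : ℝ) (F h : ℝ → ℂ) (hp2 : 2 < p) (hF : Continuous F)
    (hFs : HasCompactSupport F) (χ : ℝ → ℝ) (hχ : Continuous χ) (hχs : HasCompactSupport χ)
    (hχ0 : ∀ y, 0 ≤ χ y) (hχ1 : ∀ y, χ y ≤ 1) (hh : Continuous h) :
    (∀ τ : ℝ, ‖Phi n p χ F h (Complex.I * τ)‖ ^ 2 ≤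
      (∫ y, ‖F y‖ ^ p) * ∫ y, χ y * ‖h y‖ ^ p) ∧
    (∀ τ : ℝ, ‖Phi n p χ F h (1 + Complex.I * τ)‖ ^ 2 ≤
      (∫ y, Real.exp (y / 2) * ‖Bop n (ph τ (fun y => pw ((p / 4 : ℝ) : ℂ) (F y))) y‖ ^ 2 *
        (χ y * ‖h y‖ ^ (p / 2))) * ∫ y, χ y * ‖h y‖ ^ p) := by
  have hp : 0 < p := by linarith
  have hcb : Continuous fun y => χ y * ‖h y‖ ^ p :=
    hχ.mul (hh.norm.rpow_const fun _ => Or.inr hp.le)
  have hib : Integrable fun y => χ y * ‖h y‖ ^ p :=
    hcb.integrable_of_hasCompactSupport hχs.mul_right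
  have hb0 : ∀ y, 0 ≤ χ y * ‖h y‖ ^ p := fun y => mul_nonneg (hχ0 y) (by positivity)
  constructor
  · intro τ
    have hz : (Complex.I * (τ : ℂ)).re = 0 := by simp
    have hc := fz_cont_ST hPZ p hp F hF (Complex.I * τ) (by rw [hz]; norm_num)
    have hs := fz_supp_ST p F hFs (Complex.I * τ)
    obtain ⟨hi, he⟩ := hIS.1 n (fz p F (Complex.I * τ)) hc hs
    have h1 := cs_ST (fun y => Bop n (fz p F (Complex.I * τ)) y * gz p χ h (Complex.I * τ) y)
      (fun y => ‖Bop n (fz p F (Complex.I * τ)) y‖ ^ 2 * Real.exp y)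
      (fun y => χ y * ‖h y‖ ^ p) hi hib (fun y => by positivity) hb0 ?_
    · rw [he] at h1
      have e : ∀ y, ‖fz p F (Complex.I * τ) y‖ ^ 2 * Real.exp y = ‖F y‖ ^ p := by
        intro y
        rw [fz_norm_ST hPZ p hp F _ (by rw [hz]; norm_num), hz, mul_pow,
          re_mul_exp_ST _ _ (norm_nonneg _), ← Real.exp_nat_mul]
        have e1 : Real.exp (((2 : ℕ) : ℝ) * (-(1 / 2 - 0 / 4) * y)) * Real.exp y = 1 := by
          rw [← Real.exp_add, show ((2 : ℕ) : ℝ) * (-(1 / 2 - 0 / 4) * y) + y = 0 by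
            push_cast
            ring, Real.exp_zero]
        have e2 : p * (1 / 2 - 0 / 4) * ((2 : ℕ) : ℝ) = p := by
          push_cast
          ring
        rw [e2]
        calc Real.exp (((2 : ℕ) : ℝ) * (-(1 / 2 - 0 / 4) * y)) * ‖F y‖ ^ p * Real.exp y
            = (Real.exp (((2 : ℕ) : ℝ) * (-(1 / 2 - 0 / 4) * y)) * Real.exp y) * ‖F y‖ ^ p := by
              ring
          _ = _ := by rw [e1, one_mul]
      rw [show (∫ y, ‖fz p F (Complex.I * τ) y‖ ^ 2 * Real.exp y) = ∫ y, ‖F y‖ ^ p from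
        integral_congr_ae (Filter.Eventually.of_forall e)] at h1
      exact h1
    · intro y
      rw [norm_mul, gz_norm_ST hPZ p hp χ hχ0 h _ (by rw [hz]), hz, mul_pow, mul_pow, mul_pow,
        re_mul_exp_ST _ _ (norm_nonneg _), ← Real.exp_nat_mul]
      have e1 : ((2 : ℕ) : ℝ) * ((1 / 2 - 0 / 4) * y) = y := by
        push_cast
        ring
      have e2 : p * (1 / 2 + 0 / 4) * ((2 : ℕ) : ℝ) = p := by
        push_cast
        ring
      rw [e1, e2]
      have e3 : χ y ^ 2 ≤ χ y := by nlinarith [hχ0 y, hχ1 y]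
      calc ‖Bop n (fz p F (Complex.I * τ)) y‖ ^ 2 * (χ y ^ 2 * Real.exp y * ‖h y‖ ^ p)
          ≤ ‖Bop n (fz p F (Complex.I * τ)) y‖ ^ 2 * (χ y * Real.exp y * ‖h y‖ ^ p) := by
            gcongr
        _ = _ := by ring
  · intro τ
    have hz : (1 + Complex.I * (τ : ℂ)).re = 1 := by simp
    have hc := fz_cont_ST hPZ p hp F hF (1 + Complex.I * τ) (by rw [hz])
    have hs := fz_supp_ST p F hFs (1 + Complex.I * τ)
    have hBc := Bop_cont_ST n _ hc hs
    rw [← fz_one_ST hPZ p hp F τ]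
    have hca : Continuous fun y => Real.exp (y / 2) *
        ‖Bop n (fz p F (1 + Complex.I * τ)) y‖ ^ 2 * (χ y * ‖h y‖ ^ (p / 2)) := by
      have h1 : Continuous fun y => ‖h y‖ ^ (p / 2) :=
        hh.norm.rpow_const fun _ => Or.inr (by positivity)
      exact ((Real.continuous_exp.comp (by fun_prop)).mul (hBc.norm.pow 2)).mul (hχ.mul h1)
    have hia : Integrable fun y => Real.exp (y / 2) *
        ‖Bop n (fz p F (1 + Complex.I * τ)) y‖ ^ 2 * (χ y * ‖h y‖ ^ (p / 2)) :=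
      hca.integrable_of_hasCompactSupport (hχs.mul_right.mul_left)
    have h1 := cs_ST (fun y => Bop n (fz p F (1 + Complex.I * τ)) y *
        gz p χ h (1 + Complex.I * τ) y) _ (fun y => χ y * ‖h y‖ ^ p) hia hib
      (fun y => mul_nonneg (by positivity) (mul_nonneg (hχ0 y) (by positivity))) hb0 ?_
    · exact h1
    · intro y
      rw [norm_mul, gz_norm_ST hPZ p hp χ hχ0 h _ (by rw [hz]; norm_num), hz, mul_pow, mul_pow,
        mul_pow, re_mul_exp_ST _ _ (norm_nonneg _), ← Real.exp_nat_mul]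
      have e1 : ((2 : ℕ) : ℝ) * ((1 / 2 - 1 / 4) * y) = y / 2 := by
        push_cast
        ring
      have e2 : p * (1 / 2 + 1 / 4) * ((2 : ℕ) : ℝ) = p / 2 + p := by
        push_cast
        ring
      rw [e1, e2, Real.rpow_add_of_nonneg (norm_nonneg _) (by positivity) hp.le]
      apply le_of_eq
      ring

private theorem az_theta_ST (p : ℝ) (hp : 0 < p) :
    az ((2 - 4 / p : ℝ) : ℂ) = ((1 / p : ℝ) : ℂ) := by
  have h : ((p : ℝ) : ℂ) ≠ 0 := by exact_mod_cast hp.ne'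
  unfold az
  push_cast
  field_simp
  ring

private theorem theta_ST (n : ℕ) (p : ℝ) (f : ℝ → ℂ) (hp2 : 2 < p) (χ : ℝ → ℝ) :
    Phi n p χ (fun y => (Real.exp (y / p) : ℂ) * f y)
      (fun y => (Real.exp (y / p) : ℂ) * Bop n f y) ((2 - 4 / p : ℝ) : ℂ) =
      ((∫ y, χ y * ‖(Real.exp (y / p) : ℂ) * Bop n f y‖ ^ p : ℝ) : ℂ) := by
  have hp : 0 < p := by linarith
  have hpc : ((p : ℝ) : ℂ) ≠ 0 := by exact_mod_cast hp.ne'
  have e1 : (p : ℂ) * ((1 / p : ℝ) : ℂ) = 1 := by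
    push_cast
    field_simp
  have e2 : (p : ℂ) * (1 - ((1 / p : ℝ) : ℂ)) - 1 = ((p - 2 : ℝ) : ℂ) := by
    push_cast
    field_simp
    ring
  have hfz : fz p (fun y => (Real.exp (y / p) : ℂ) * f y) ((2 - 4 / p : ℝ) : ℂ) = f := by
    funext y
    unfold fz pw
    rw [az_theta_ST p hp, e1, sub_self, Complex.cpow_zero, mul_one, ← mul_assoc,
      Complex.ofReal_exp, ← Complex.exp_add]
    have : -((1 / p : ℝ) : ℂ) * (y : ℂ) + ((y / p : ℝ) : ℂ) = 0 := by
      push_cast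
      ring
    rw [this, Complex.exp_zero, one_mul]
  unfold Phi
  rw [hfz, ← integral_complex_ofReal]
  congr 1
  funext y
  unfold gz pw
  rw [az_theta_ST p hp, e2]
  set b : ℂ := Bop n f y with hb
  set h : ℂ := (Real.exp (y / p) : ℂ) * b with hh
  have e3 : Complex.exp (((1 / p : ℝ) : ℂ) * y) = ((Real.exp (y / p) : ℝ) : ℂ) := by
    rw [Complex.ofReal_exp]
    congr 1
    push_cast
    ring
  rw [e3, RCLike.norm_conj]
  have e4 : ((‖h‖ : ℝ) : ℂ) ^ ((p - 2 : ℝ) : ℂ) = ((‖h‖ ^ (p - 2) : ℝ) : ℂ) :=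
    (Complex.ofReal_cpow (norm_nonneg _) _).symm
  rw [e4]
  have e5 : ‖h‖ ^ p = ‖h‖ ^ 2 * ‖h‖ ^ (p - 2) := by
    rw [← Real.rpow_natCast, ← Real.rpow_add_of_nonneg (norm_nonneg _) (by norm_num)
      (by linarith)]
    congr 1
    push_cast
    ring
  have e6 : h * (starRingEnd ℂ) h = ((‖h‖ ^ 2 : ℝ) : ℂ) := by
    rw [Complex.mul_conj, Complex.normSq_eq_norm_sq]
  calc b * (((χ y : ℝ) : ℂ) * ((Real.exp (y / p) : ℝ) : ℂ) *
        ((starRingEnd ℂ) h * ((‖h‖ ^ (p - 2) : ℝ) : ℂ)))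
      = ((χ y : ℝ) : ℂ) * (((Real.exp (y / p) : ℂ) * b) * (starRingEnd ℂ) h) *
        ((‖h‖ ^ (p - 2) : ℝ) : ℂ) := by ring
    _ = ((χ y : ℝ) : ℂ) * ((‖h‖ ^ 2 : ℝ) : ℂ) * ((‖h‖ ^ (p - 2) : ℝ) : ℂ) := by
        rw [← hh, e6]
    _ = _ := by
        rw [e5]
        push_cast
        ring

private theorem mm_cont_ST (n : ℕ) :
    ContinuousOn (fun z => mm n (az z)) {z : ℂ | 0 ≤ z.re ∧ z.re ≤ 1} := by
  unfold mm
  refine continuousOn_finsetProd _ fun k _ => ?_
  refine ContinuousOn.div ?_ ?_ fun z hz => ?_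
  · unfold az
    fun_prop
  · unfold az
    fun_prop
  · intro h
    have h1 := congrArg Complex.re h
    rw [Complex.add_re, az_re_ST, Complex.natCast_re, Complex.zero_re] at h1
    have h2 := hz.2
    have h3 : (0 : ℝ) ≤ k := Nat.cast_nonneg k
    linarith

private theorem mm_diff_ST (n : ℕ) :
    DifferentiableOn ℂ (fun z => mm n (az z)) {z : ℂ | 0 < z.re ∧ z.re < 1} := by
  unfold mm
  refine DifferentiableOn.fun_finsetProd fun k _ => ?_
  refine DifferentiableOn.div ?_ ?_ fun z hz => ?_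
  · unfold az
    fun_prop
  · unfold az
    fun_prop
  · intro h
    have h1 := congrArg Complex.re h
    rw [Complex.add_re, az_re_ST, Complex.natCast_re, Complex.zero_re] at h1
    have h2 := hz.2
    have h3 : (0 : ℝ) ≤ k := Nat.cast_nonneg k
    linarith

/-- the final algebra. -/
private theorem alg_ST (p C N J : ℝ) (hp2 : 2 < p) (hp4 : p < 4) (hC : 0 < C) (hN : 0 ≤ N)
    (hJ : 0 ≤ J)
    (h : J ^ 2 / C ^ 2 ≤ (N * J) ^ (1 - (2 - 4 / p)) *
      (Real.sqrt N * Real.sqrt J * J) ^ (2 - 4 / p)) : J ≤ C ^ p * N := by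
  have hp : 0 < p := by linarith
  rcases hJ.eq_or_lt with hJ0 | hJ0
  · rw [← hJ0]
    positivity
  have t1 : 0 < 1 - (2 - 4 / p) := by
    rw [show 1 - (2 - 4 / p) = (4 - p) / p by field_simp; ring]
    exact div_pos (by linarith) hp
  have t2 : 0 < 2 - 4 / p := by
    rw [show 2 - 4 / p = 2 * (p - 2) / p by field_simp; ring]
    exact div_pos (by linarith) hp
  have e1 : (N * J) ^ (1 - (2 - 4 / p)) * (Real.sqrt N * Real.sqrt J * J) ^ (2 - 4 / p) =
      N ^ (2 / p) * J ^ (2 - 2 / p) := by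
    rw [Real.mul_rpow hN hJ, Real.mul_rpow (by positivity) hJ, Real.mul_rpow (by positivity)
      (by positivity), Real.sqrt_eq_rpow, Real.sqrt_eq_rpow, ← Real.rpow_mul hN,
      ← Real.rpow_mul hJ]
    have a1 : N ^ (2 / p) = N ^ (1 - (2 - 4 / p)) * N ^ (1 / 2 * (2 - 4 / p)) := by
      rw [← Real.rpow_add_of_nonneg hN t1.le (by positivity)]
      congr 1
      ring
    have a2 : J ^ (2 - 2 / p) = J ^ (1 - (2 - 4 / p)) * (J ^ (1 / 2 * (2 - 4 / p)) *
        J ^ (2 - 4 / p)) := by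
      rw [← Real.rpow_add hJ0, ← Real.rpow_add hJ0]
      congr 1
      ring
    rw [a1, a2]
    ring
  rw [e1, div_le_iff₀ (by positivity)] at h
  have h2 : J ^ (2 / p) ≤ C ^ 2 * N ^ (2 / p) := by
    have h3 : J ^ (2 : ℕ) = J ^ (2 / p) * J ^ (2 - 2 / p) := by
      rw [← Real.rpow_add hJ0, ← Real.rpow_natCast]
      congr 1
      push_cast
      ring
    rw [h3] at h
    have h4 : 0 < J ^ (2 - 2 / p) := Real.rpow_pos_of_pos hJ0 _
    by_contra hcon
    rw [not_le] at hcon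
    have h5 := mul_lt_mul_of_pos_right hcon h4
    linarith
  have h6 := Real.rpow_le_rpow (by positivity) h2 (by positivity : (0 : ℝ) ≤ p / 2)
  rw [← Real.rpow_mul hJ, Real.mul_rpow (by positivity) (by positivity), ← Real.rpow_mul hN,
    ← Real.rpow_natCast, ← Real.rpow_mul hC.le] at h6
  have e7 : 2 / p * (p / 2) = 1 := by field_simp
  have e8 : ((2 : ℕ) : ℝ) * (p / 2) = p := by
    push_cast
    ring
  rw [e7, e8, Real.rpow_one, Real.rpow_one] at h6
  exact h6

private theorem core_ST (hT4 : StT4) (hPZ : StPZ) (hIS : StIS2) (hWA : StWA) (hPF : StPF)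
    (n : ℕ) (p : ℝ) (f : ℝ → ℂ) (hn : 1 ≤ n) (hp2 : 2 < p) (hp4 : p < 4) (hf : Continuous f)
    (hfs : HasCompactSupport f) (χ : ℝ → ℝ) (hχ : Continuous χ) (hχs : HasCompactSupport χ)
    (hχ0 : ∀ y, 0 ≤ χ y) (hχ1 : ∀ y, χ y ≤ 1) :
    ∫ y, χ y * ‖(Real.exp (y / p) : ℂ) * Bop n f y‖ ^ p ≤
      Cn n (1 / p) ^ p * ∫ y, ‖(Real.exp (y / p) : ℂ) * f y‖ ^ p := by
  have hp : 0 < p := by linarith
  have hθ := theta_ST n p f hp2 χ
  set F : ℝ → ℂ := fun y => (Real.exp (y / p) : ℂ) * f y with hFd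
  set h : ℝ → ℂ := fun y => (Real.exp (y / p) : ℂ) * Bop n f y with hhd
  have hexp : Continuous fun y : ℝ => (Real.exp (y / p) : ℂ) :=
    Complex.continuous_ofReal.comp (Real.continuous_exp.comp (by fun_prop))
  have hF : Continuous F := hexp.mul hf
  have hFs : HasCompactSupport F := hfs.mul_left
  have hh : Continuous h := hexp.mul (Bop_cont_ST n f hf hfs)
  obtain ⟨hs0, hs1⟩ := sides_ST hPZ hIS n p F h hp2 hF hFs χ hχ hχs hχ0 hχ1 hh
  have hsm : (fun y => χ y * ‖(Real.exp (y / p) : ℂ) * Bop n f y‖ ^ p) =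
      fun y => χ y * ‖h y‖ ^ p := rfl
  have hsn : (fun y => ‖(Real.exp (y / p) : ℂ) * f y‖ ^ p) = fun y => ‖F y‖ ^ p := rfl
  rw [hsm, hsn]
  rw [hsm] at hθ
  set N : ℝ := ∫ y, ‖F y‖ ^ p with hN
  set J : ℝ := ∫ y, χ y * ‖h y‖ ^ p with hJ
  have hN0 : 0 ≤ N := integral_nonneg fun y => by positivity
  have hJ0 : 0 ≤ J := integral_nonneg fun y => mul_nonneg (hχ0 y) (by positivity)
  set θ : ℝ := 2 - 4 / p with hθd
  have t0 : 0 < θ := by
    rw [hθd, show 2 - 4 / p = 2 * (p - 2) / p by field_simp; ring]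
    exact div_pos (by linarith) hp
  have t1 : θ < 1 := by
    have : 0 < 1 - (2 - 4 / p) := by
      rw [show 1 - (2 - 4 / p) = (4 - p) / p by field_simp; ring]
      exact div_pos (by linarith) hp
    linarith
  obtain ⟨hΦc, hΦd, CΦ, hΦb⟩ := hPZ.2.2 n p χ F h hp2 hp4 hχ hχs hF hFs hh
  -- the denominator
  have hm1 : ∀ z : ℂ, 0 ≤ z.re → z.re ≤ 1 → 1 ≤ ‖mm n (az z)‖ := fun z h0 h1 =>
    hWA.1 n (az z) (by rw [az_re_ST]; linarith) (by rw [az_re_ST]; linarith)
  have hm0 : ∀ z : ℂ, 0 ≤ z.re → z.re ≤ 1 → mm n (az z) ≠ 0 := by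
    intro z h0 h1 h2
    have := hm1 z h0 h1
    rw [h2, norm_zero] at this
    linarith
  set H : ℂ → ℂ := fun z => Phi n p χ F h z ^ 2 / mm n (az z) ^ 2 with hHd
  have hHc : ContinuousOn H {z : ℂ | 0 ≤ z.re ∧ z.re ≤ 1} :=
    (hΦc.pow 2).div ((mm_cont_ST n).pow 2) fun z hz => pow_ne_zero 2 (hm0 z hz.1 hz.2)
  have hHdf : DifferentiableOn ℂ H {z : ℂ | 0 < z.re ∧ z.re < 1} :=
    (hΦd.pow 2).div ((mm_diff_ST n).pow 2) fun z hz => pow_ne_zero 2 (hm0 z hz.1.le hz.2.le)
  have hHn : ∀ z : ℂ, 0 ≤ z.re → z.re ≤ 1 → ‖H z‖ ≤ ‖Phi n p χ F h z‖ ^ 2 := by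
    intro z h0 h1
    rw [hHd]
    simp only
    rw [norm_div, norm_pow, norm_pow]
    exact div_le_self (by positivity) (one_le_pow₀ (hm1 z h0 h1))
  have hHb : ∀ z : ℂ, 0 ≤ z.re → z.re ≤ 1 → ‖H z‖ ≤ CΦ ^ 2 * (1 + |z.im|) ^ 4 := by
    intro z h0 h1
    refine (hHn z h0 h1).trans ?_
    have h2 := hΦb z h0 h1
    have h3 : ‖Phi n p χ F h z‖ ^ 2 ≤ CΦ ^ 2 := pow_le_pow_left₀ (norm_nonneg _) h2 2
    have h4 : 1 ≤ (1 + |z.im|) ^ 4 := one_le_pow₀ (by linarith [abs_nonneg z.im])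
    calc ‖Phi n p χ F h z‖ ^ 2 ≤ CΦ ^ 2 * 1 := by linarith
      _ ≤ _ := mul_le_mul_of_nonneg_left h4 (sq_nonneg _)
  have hpo := poisson_mul4 θ t0 t1 H hHc hHdf (CΦ ^ 2) hHb
  obtain ⟨hP0c, hP1c, hP0p, hP1p, -, -, -⟩ := P_facts θ t0 t1
  -- left side
  have hleft : ‖H θ‖ₑ = ENNReal.ofReal (J ^ 2 / Cn n (1 / p) ^ 2) := by
    rw [← ofReal_norm]
    congr 1
    rw [hHd]
    simp only
    rw [hθ, az_theta_ST p hp, hPF.2.2.2 n (1 / p), norm_div, norm_pow, norm_pow,
      Complex.norm_real, Complex.norm_real, Real.norm_eq_abs, Real.norm_eq_abs, sq_abs, sq_abs]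
  have hCpos : 0 < Cn n (1 / p) := by
    unfold Cn
    refine Finset.prod_pos fun k _ => ?_
    have h1 : 1 / p < 1 := by
      rw [div_lt_one hp]
      linarith
    have h2 : 0 < 1 / p := by positivity
    have h3 : (0 : ℝ) ≤ k := Nat.cast_nonneg k
    exact div_pos (by linarith) (by linarith)
  -- side 0
  have hS0 : (ENNReal.ofReal (1 - θ))⁻¹ * ∫⁻ τ : ℝ, ENNReal.ofReal (P0 θ τ) *
      ‖H (Complex.I * τ)‖ₑ ≤ ENNReal.ofReal (N * J) := by
    have hi0 : Integrable (P0 θ) := by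
      have := (P_int θ t0 t1 0).1
      simpa using this
    have h1 : ∫⁻ τ : ℝ, ENNReal.ofReal (P0 θ τ) * ‖H (Complex.I * τ)‖ₑ ≤
        ENNReal.ofReal (1 - θ) * ENNReal.ofReal (N * J) := by
      calc ∫⁻ τ : ℝ, ENNReal.ofReal (P0 θ τ) * ‖H (Complex.I * τ)‖ₑ
          ≤ ∫⁻ τ : ℝ, ENNReal.ofReal (P0 θ τ) * ENNReal.ofReal (N * J) := by
            refine lintegral_mono fun τ => ?_
            gcongr
            rw [← ofReal_norm]
            apply ENNReal.ofReal_le_ofReal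
            exact (hHn _ (by simp) (by simp)).trans (hs0 τ)
        _ = _ := by
            rw [lintegral_mul_const _ (by fun_prop),
              ← ofReal_integral_eq_lintegral_ofReal hi0
                (Filter.Eventually.of_forall fun τ => (hP0p τ).le), (P_mass θ t0 t1).1]
    calc _ ≤ (ENNReal.ofReal (1 - θ))⁻¹ * (ENNReal.ofReal (1 - θ) * ENNReal.ofReal (N * J)) := by
          gcongr
      _ = _ := by
          rw [← mul_assoc, ENNReal.inv_mul_cancel (by
            rw [ne_eq, ENNReal.ofReal_eq_zero, not_le]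
            linarith) ENNReal.ofReal_ne_top, one_mul]
  -- side 1
  have hG : Continuous fun y => pw ((p / 4 : ℝ) : ℂ) (F y) :=
    (hPZ.1 _ (by simpa using by positivity)).comp hF
  have hGs : HasCompactSupport fun y => pw ((p / 4 : ℝ) : ℂ) (F y) := by
    refine hFs.mono fun y hy => ?_
    rw [Function.mem_support] at hy ⊢
    intro h0
    apply hy
    rw [h0, pw_zero_ST]
  have hHc2 : Continuous fun y => χ y * ‖h y‖ ^ (p / 2) :=
    hχ.mul (hh.norm.rpow_const fun _ => Or.inr (by positivity))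
  obtain ⟨hTi, hTb⟩ := hT4 n θ _ _ hn t0 t1 hG hGs hHc2 (hχs.mul_right)
  have hN4 : ∫ y, ‖pw ((p / 4 : ℝ) : ℂ) (F y)‖ ^ 4 = N := by
    rw [hN]
    congr 1
    funext y
    rw [pw_norm_ST hPZ _ _ (by simpa using by positivity), re_mul_exp_ST _ _ (norm_nonneg _)]
    congr 1
    push_cast
    simp
  have hH2 : ∫ y, (χ y * ‖h y‖ ^ (p / 2)) ^ 2 ≤ J := by
    rw [hJ]
    refine integral_mono_of_nonneg (Filter.Eventually.of_forall fun y => by positivity) ?_
      (Filter.Eventually.of_forall fun y => ?_)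
    · exact (hχ.mul (hh.norm.rpow_const fun _ => Or.inr hp.le)).integrable_of_hasCompactSupport
        hχs.mul_right
    · simp only
      rw [mul_pow, re_mul_exp_ST _ _ (norm_nonneg _)]
      have e : p / 2 * ((2 : ℕ) : ℝ) = p := by
        push_cast
        ring
      rw [e]
      have e3 : χ y ^ 2 ≤ χ y := by nlinarith [hχ0 y, hχ1 y]
      gcongr
  set V : ℝ → ℝ := fun τ => ∫ y, Real.exp (y / 2) *
    ‖Bop n (ph τ (fun y => pw ((p / 4 : ℝ) : ℂ) (F y))) y‖ ^ 2 * (χ y * ‖h y‖ ^ (p / 2)) with hV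
  have hV0 : ∀ τ, 0 ≤ V τ := fun τ => integral_nonneg fun y =>
    mul_nonneg (by positivity) (mul_nonneg (hχ0 y) (by positivity))
  have hW0 : ∀ τ, 0 ≤ Wn n θ τ := fun τ => by
    unfold Wn
    have := (hP1p τ).le
    positivity
  have hS1 : (ENNReal.ofReal θ)⁻¹ * ∫⁻ τ : ℝ, ENNReal.ofReal (P1 θ τ) *
      ‖H (1 + Complex.I * τ)‖ₑ ≤ ENNReal.ofReal (Real.sqrt N * Real.sqrt J * J) := by
    have h1 : ∫⁻ τ : ℝ, ENNReal.ofReal (P1 θ τ) * ‖H (1 + Complex.I * τ)‖ₑ ≤
        ENNReal.ofReal θ * ENNReal.ofReal (Real.sqrt N * Real.sqrt J * J) := by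
      calc ∫⁻ τ : ℝ, ENNReal.ofReal (P1 θ τ) * ‖H (1 + Complex.I * τ)‖ₑ
          ≤ ∫⁻ τ : ℝ, ENNReal.ofReal (Wn n θ τ * V τ * J) := by
            refine lintegral_mono fun τ => ?_
            rw [← ofReal_norm, ← ENNReal.ofReal_mul (hP1p τ).le]
            apply ENNReal.ofReal_le_ofReal
            have e1 : az (1 + Complex.I * τ) = 1 / 4 - Complex.I * τ / 4 := by
              unfold az
              ring
            have e2 := hs1 τ
            rw [hHd]
            simp only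
            rw [norm_div, norm_pow, norm_pow, e1]
            unfold Wn
            calc P1 θ τ * (‖Phi n p χ F h (1 + Complex.I * τ)‖ ^ 2 /
                  ‖mm n (1 / 4 - Complex.I * τ / 4)‖ ^ 2)
                ≤ P1 θ τ * ((V τ * J) / ‖mm n (1 / 4 - Complex.I * τ / 4)‖ ^ 2) := by
                  refine mul_le_mul_of_nonneg_left ?_ (hP1p τ).le
                  gcongr
              _ = _ := by ring
        _ = ENNReal.ofReal ((∫ τ, Wn n θ τ * V τ) * J) := by
            rw [← integral_mul_const, ofReal_integral_eq_lintegral_ofReal (hTi.mul_const J)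
              (Filter.Eventually.of_forall fun τ =>
                mul_nonneg (mul_nonneg (hW0 τ) (hV0 τ)) hJ0)]
        _ ≤ ENNReal.ofReal (θ * (Real.sqrt N * Real.sqrt J * J)) := by
            apply ENNReal.ofReal_le_ofReal
            rw [hN4] at hTb
            have h3 : ∫ τ, Wn n θ τ * V τ ≤ θ * Real.sqrt N * Real.sqrt J :=
              hTb.trans (mul_le_mul_of_nonneg_left (Real.sqrt_le_sqrt hH2) (by positivity))
            calc (∫ τ, Wn n θ τ * V τ) * J ≤ (θ * Real.sqrt N * Real.sqrt J) * J :=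
                  mul_le_mul_of_nonneg_right h3 hJ0
              _ = _ := by ring
        _ = _ := by rw [ENNReal.ofReal_mul t0.le]
    calc _ ≤ (ENNReal.ofReal θ)⁻¹ * (ENNReal.ofReal θ *
          ENNReal.ofReal (Real.sqrt N * Real.sqrt J * J)) := by
          gcongr
      _ = _ := by
          rw [← mul_assoc, ENNReal.inv_mul_cancel (by
            rw [ne_eq, ENNReal.ofReal_eq_zero, not_le]
            linarith) ENNReal.ofReal_ne_top, one_mul]
  apply alg_ST p _ N J hp2 hp4 hCpos hN0 hJ0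
  have h1θ : 0 ≤ 1 - θ := by linarith
  have hfin : ENNReal.ofReal (J ^ 2 / Cn n (1 / p) ^ 2) ≤
      ENNReal.ofReal ((N * J) ^ (1 - θ) * (Real.sqrt N * Real.sqrt J * J) ^ θ) := by
    rw [← hleft, ENNReal.ofReal_mul (by positivity),
      ← ENNReal.ofReal_rpow_of_nonneg (by positivity) h1θ,
      ← ENNReal.ofReal_rpow_of_nonneg (by positivity) t0.le]
    refine hpo.trans ?_
    gcongr
  exact (ENNReal.ofReal_le_ofReal_iff (by positivity)).1 hfin

private def chi_ST (k : ℕ) (y : ℝ) : ℝ := max 0 (min 1 ((k : ℝ) + 1 - |y|))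

private theorem chi_supp_ST (k : ℕ) : HasCompactSupport (chi_ST k) := by
  refine HasCompactSupport.of_support_subset_isCompact
    (isCompact_Icc : IsCompact (Icc (-((k : ℝ) + 1)) ((k : ℝ) + 1))) fun y hy => ?_
  rw [Function.mem_support] at hy
  by_contra h
  apply hy
  have h1 : (k : ℝ) + 1 < |y| := by
    rw [mem_Icc, ← abs_le] at h
    exact not_le.1 h
  unfold chi_ST
  exact max_eq_left ((min_le_right _ _).trans (by linarith))

theorem hST (hT4 : StT4) (hPZ : StPZ) (hIS : StIS2) (hWA : StWA) (hPF : StPF) : StST := by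
  intro n p f hn hp2 hp4 hf hfs
  have hp : 0 < p := by linarith
  have hBc := Bop_cont_ST n f hf hfs
  have hpow : ∀ (b : ℂ) (y : ℝ), ‖(Real.exp (y / p) : ℂ) * b‖ ^ p = ‖b‖ ^ p * Real.exp y := by
    intro b y
    rw [norm_mul, Complex.norm_real, Real.norm_eq_abs, abs_of_pos (Real.exp_pos _),
      Real.mul_rpow (Real.exp_pos _).le (norm_nonneg _), ← Real.exp_mul, div_mul_cancel₀ _ hp.ne']
    ring
  have hCpos : 0 < Cn n (1 / p) := by
    unfold Cn
    refine Finset.prod_pos fun k _ => ?_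
    have h1 : 1 / p < 1 := by
      rw [div_lt_one hp]
      linarith
    have h2 : 0 < 1 / p := by positivity
    have h3 : (0 : ℝ) ≤ k := Nat.cast_nonneg k
    exact div_pos (by linarith) (by linarith)
  have hfc : Continuous fun y => ‖f y‖ ^ p * Real.exp y :=
    (hf.norm.rpow_const fun _ => Or.inr hp.le).mul Real.continuous_exp
  have hfs2 : HasCompactSupport fun y => ‖f y‖ ^ p * Real.exp y := by
    refine hfs.mono fun y hy => ?_
    rw [Function.mem_support] at hy ⊢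
    intro h0
    apply hy
    rw [h0, norm_zero, Real.zero_rpow hp.ne', zero_mul]
  have hfi : Integrable fun y => ‖f y‖ ^ p * Real.exp y := hfc.integrable_of_hasCompactSupport hfs2
  have hBc2 : Continuous fun y => ‖Bop n f y‖ ^ p * Real.exp y :=
    (hBc.norm.rpow_const fun _ => Or.inr hp.le).mul Real.continuous_exp
  have hχc : ∀ k, Continuous (chi_ST k) := fun k => by
    unfold chi_ST
    fun_prop
  have hχ0 : ∀ k y, 0 ≤ chi_ST k y := fun k y => le_max_left _ _
  have hχ1 : ∀ k y, chi_ST k y ≤ 1 := fun k y =>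
    max_le zero_le_one (min_le_left _ _)
  have hcore : ∀ k : ℕ, ∫⁻ y, ENNReal.ofReal (chi_ST k y * (‖Bop n f y‖ ^ p * Real.exp y)) ≤
      ENNReal.ofReal (Cn n (1 / p) ^ p) * ∫⁻ y, ENNReal.ofReal (‖f y‖ ^ p * Real.exp y) := by
    intro k
    have h1 := core_ST hT4 hPZ hIS hWA hPF n p f hn hp2 hp4 hf hfs (chi_ST k) (hχc k)
      (chi_supp_ST k) (hχ0 k) (hχ1 k)
    simp only [hpow] at h1
    have hi : Integrable fun y => chi_ST k y * (‖Bop n f y‖ ^ p * Real.exp y) :=
      ((hχc k).mul hBc2).integrable_of_hasCompactSupport (chi_supp_ST k).mul_right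
    rw [← ofReal_integral_eq_lintegral_ofReal hfi
        (Filter.Eventually.of_forall fun y => by positivity),
      ← ofReal_integral_eq_lintegral_ofReal hi
        (Filter.Eventually.of_forall fun y => mul_nonneg (hχ0 k y) (by positivity)),
      ← ENNReal.ofReal_mul (by positivity)]
    exact ENNReal.ofReal_le_ofReal h1
  have hmono : Monotone fun (k : ℕ) (y : ℝ) =>
      ENNReal.ofReal (chi_ST k y * (‖Bop n f y‖ ^ p * Real.exp y)) := by
    intro k l hkl y
    apply ENNReal.ofReal_le_ofReal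
    refine mul_le_mul_of_nonneg_right ?_ (by positivity)
    unfold chi_ST
    have : (k : ℝ) ≤ l := by exact_mod_cast hkl
    gcongr
  calc ∫⁻ y, ENNReal.ofReal (‖Bop n f y‖ ^ p * Real.exp y)
      ≤ ∫⁻ y, ⨆ k : ℕ, ENNReal.ofReal (chi_ST k y * (‖Bop n f y‖ ^ p * Real.exp y)) := by
        refine lintegral_mono fun y => ?_
        obtain ⟨k, hk⟩ := exists_nat_ge |y|
        refine le_trans (le_of_eq ?_) (le_iSup _ k)
        have : chi_ST k y = 1 := by
          unfold chi_ST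
          rw [min_eq_left (by linarith), max_eq_right zero_le_one]
        rw [this, one_mul]
    _ = ⨆ k : ℕ, ∫⁻ y, ENNReal.ofReal (chi_ST k y * (‖Bop n f y‖ ^ p * Real.exp y)) :=
        lintegral_iSup (fun k => ((hχc k).mul hBc2).measurable.ennreal_ofReal) hmono
    _ ≤ _ := iSup_le hcore

end Helper69.CR
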