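import Pool.Agent.Helper69.CR.St
import Pool.Agent.Helper85.BPM.K2
import Pool.Agent.Helper85.BPM.S1

/-!
# MP_3dd6d4_an, project CR, module T4: the `L⁴` square function estimate
-/

set_option autoImplicit false

noncomputable section

namespace Helper69.CR

open MeasureTheory Set Filter Topology
open Helper85.BP

/-- Cauchy-Schwarz for real functions -/
lemma cs_T4 {α : Type*} [MeasurableSpace α] {μ : Measure α} {u v : α → ℝ}
    (hu : AEStronglyMeasurable u μ) (hv : AEStronglyMeasurable v μ)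
    (hu2 : Integrable (fun x => u x ^ 2) μ) (hv2 : Integrable (fun x => v x ^ 2) μ) :
    Integrable (fun x => u x * v x) μ ∧
    |∫ x, u x * v x ∂μ| ≤ Real.sqrt (∫ x, u x ^ 2 ∂μ) * Real.sqrt (∫ x, v x ^ 2 ∂μ) := by
  have hmu : MemLp u 2 μ := (memLp_two_iff_integrable_sq hu).2 hu2
  have hmv : MemLp v 2 μ := (memLp_two_iff_integrable_sq hv).2 hv2
  have hint : Integrable (fun x => u x * v x) μ := hmu.integrable_mul hmv
  refine ⟨hint, ?_⟩
  have h2 : (2 : ℝ).HolderConjugate 2 := Real.HolderConjugate.two_two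
  have e2 : ENNReal.ofReal 2 = 2 := by simp
  have h := integral_mul_le_Lp_mul_Lq_of_nonneg h2 (μ := μ) (f := fun x => |u x|)
    (g := fun x => |v x|) (Eventually.of_forall fun x => abs_nonneg _)
    (Eventually.of_forall fun x => abs_nonneg _) (by rw [e2]; exact hmu.abs)
    (by rw [e2]; exact hmv.abs)
  have e3 : ∀ w : α → ℝ, (∫ x, |w x| ^ (2 : ℝ) ∂μ) ^ (1 / (2 : ℝ)) =
      Real.sqrt (∫ x, w x ^ 2 ∂μ) := by
    intro w
    rw [Real.sqrt_eq_rpow]
    congr 2
    funext x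
    rw [Real.rpow_two, sq_abs]
  rw [e3 u, e3 v] at h
  calc |∫ x, u x * v x ∂μ| ≤ ∫ x, |u x * v x| ∂μ := abs_integral_le_integral_abs
    _ = ∫ x, |u x| * |v x| ∂μ := by simp only [abs_mul]
    _ ≤ _ := h

lemma int_le_T4 {α : Type*} [MeasurableSpace α] {μ : Measure α} {f g : α → ℝ}
    (hg : Integrable g μ) (h0 : 0 ≤ᵐ[μ] g) (h : f ≤ᵐ[μ] g) : ∫ x, f x ∂μ ≤ ∫ x, g x ∂μ := by
  by_cases hf : Integrable f μ
  · exact integral_mono_ae hf hg h
  · rw [integral_undef hf]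
    exact integral_nonneg_of_ae h0

lemma Wh_eq_T4 {W : ℝ → ℝ} (hW : Adm 1 W) (s : ℝ) :
    Wh 1 W s = (Aw 1 W s + Aw 1 W (-s)) / 2 := by
  have hi : ∀ r : ℝ, Integrable
      (fun τ => W τ * (Real.cos (1 * τ * r) - 1 * τ * Real.sin (1 * τ * r))) := by
    intro r
    refine Integrable.mono' (hW.int.const_mul 2) (hW.cont.mul (by fun_prop)).aestronglyMeasurable
      (Eventually.of_forall fun τ => ?_)
    rw [Real.norm_eq_abs, abs_mul, abs_of_nonneg (hW.nonneg τ)]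
    have h1 := Real.abs_cos_le_one (1 * τ * r)
    have h2 := Real.abs_sin_le_one (1 * τ * r)
    have h4 : |Real.cos (1 * τ * r) - 1 * τ * Real.sin (1 * τ * r)| ≤ 2 * (1 + 1 ^ 2 * τ ^ 2) := by
      calc |Real.cos (1 * τ * r) - 1 * τ * Real.sin (1 * τ * r)|
          ≤ |Real.cos (1 * τ * r)| + |1 * τ * Real.sin (1 * τ * r)| := abs_sub _ _
        _ = |Real.cos (1 * τ * r)| + |1 * τ| * |Real.sin (1 * τ * r)| := by rw [abs_mul (1 * τ)]
        _ ≤ 1 + |1 * τ| * 1 := by gcongr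
        _ ≤ 2 * (1 + 1 ^ 2 * τ ^ 2) := by
            rcases abs_cases (1 * τ) with h | h <;> nlinarith [sq_nonneg (τ - 1), sq_nonneg (τ + 1)]
    have := mul_le_mul_of_nonneg_left h4 (hW.nonneg τ)
    linarith
  have h1 : Aw 1 W s + Aw 1 W (-s) = ∫ τ, 2 * (W τ * Real.cos (1 * τ * s)) := by
    rw [Aw, Aw, ← integral_add (hi s) (hi (-s))]
    congr 1
    funext τ
    rw [show 1 * τ * -s = -(1 * τ * s) by ring, Real.cos_neg, Real.sin_neg]
    ring
  rw [h1, integral_const_mul, Wh]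
  ring

/-- `e^r Ŵ(r)` is nondecreasing -/
lemma Wh_mono_T4 {W : ℝ → ℝ} (hW : Adm 1 W) {r s : ℝ} (h : r ≤ s) :
    Real.exp r * Wh 1 W r ≤ Real.exp s * Wh 1 W s := by
  obtain ⟨-, hA, hp, -⟩ := P.Wh_ptw 1 one_pos W hW
  have h1 := hp s (r - s)
  rw [show s + (r - s) = r by ring] at h1
  have h2 : Real.exp (r - s) ≤ Real.exp (-(r - s)) := Real.exp_le_exp.2 (by linarith)
  have h3 := mul_le_mul_of_nonneg_left h2 (hA s)
  have h4 : Wh 1 W r ≤ Wh 1 W s * Real.exp (s - r) := by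
    rw [Wh_eq_T4 hW s, show s - r = -(r - s) by ring]
    linarith
  calc Real.exp r * Wh 1 W r ≤ Real.exp r * (Wh 1 W s * Real.exp (s - r)) :=
        mul_le_mul_of_nonneg_left h4 (Real.exp_pos r).le
    _ = (Real.exp r * Real.exp (s - r)) * Wh 1 W s := by ring
    _ = Real.exp s * Wh 1 W s := by
        rw [← Real.exp_add]
        congr 2
        ring

theorem hT4 (hA3 : StA3) (hKP : StKP) (hAV : StAV) (hKD : StKD) (hTS : StTS) (hSC : StSC)
    (hWA : StWA) : StT4 := by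
  intro n θ G H hn h0 h1 hG hGc hH hHc
  set W : ℝ → ℝ := Wn n θ with hWdef
  have hW : Adm 1 W := hWA.2 n θ h0 h1
  obtain ⟨hw0, hA, hp, hwc, -, ⟨Cw, hCw⟩, -⟩ := P.Wh_ptw 1 one_pos W hW
  obtain ⟨ν, hν⟩ := hA3 n hn
  obtain ⟨⟨c, hc0, hc1, hkap⟩, -⟩ := hKP n hn
  obtain ⟨hint, heq⟩ := hAV n W G H hW hG hGc hH hHc
  refine ⟨hint, ?_⟩
  rw [heq]
  obtain ⟨hSCi, hSCe⟩ := (hSC n hn).2 W hW
  -- the kernel `κ`
  set κ : ℝ → ℝ := fun d => kap n (Real.exp (-d)) with hκ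
  have hκc : Continuous κ := by
    have : κ = fun d => ∑ i ∈ Finset.range n, c i * Real.exp (-d) ^ i := by
      funext d; exact hkap _
    rw [this]
    fun_prop
  have hκ0 : ∀ d, c 0 ≤ κ d := by
    intro d
    simp only [hκ]
    rw [hkap]
    have h2 := Finset.single_le_sum (f := fun i => c i * Real.exp (-d) ^ i)
      (fun i _ => mul_nonneg (hc0 i) (pow_nonneg (Real.exp_pos _).le _))
      (Finset.mem_range.2 (by omega : 0 < n))
    simpa using h2
  have hκpos : ∀ d, 0 < κ d := fun d => hc1.trans_le (hκ0 d)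
  have hκanti : ∀ d e, d ≤ e → κ e ≤ κ d := by
    intro d e hde
    simp only [hκ]
    rw [hkap, hkap]
    refine Finset.sum_le_sum fun i _ => mul_le_mul_of_nonneg_left ?_ (hc0 i)
    exact pow_le_pow_left₀ (Real.exp_pos _).le (Real.exp_le_exp.2 (by linarith)) i
  -- the weight `ρ`
  set ρ : ℝ → ℝ := fun d => Real.exp (3 * d / 4) * Wh 1 W (d / 4) / κ d with hρ
  have hρ0 : ∀ d, 0 ≤ ρ d := fun d =>
    div_nonneg (mul_nonneg (Real.exp_pos _).le (hw0 _)) (hκpos d).le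
  have hρc : Continuous ρ := by
    refine Continuous.div ?_ hκc fun d => (hκpos d).ne'
    fun_prop
  have hρm : Monotone ρ := by
    intro d e hde
    have e1 : ∀ d : ℝ, Real.exp (3 * d / 4) * Wh 1 W (d / 4) =
        Real.exp (d / 2) * (Real.exp (d / 4) * Wh 1 W (d / 4)) := by
      intro d
      rw [← mul_assoc, ← Real.exp_add]
      congr 2
      ring
    have h2 : Real.exp (3 * d / 4) * Wh 1 W (d / 4) ≤ Real.exp (3 * e / 4) * Wh 1 W (e / 4) := by
      rw [e1, e1]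
      exact mul_le_mul (Real.exp_le_exp.2 (by linarith)) (Wh_mono_T4 hW (by linarith))
        (mul_nonneg (Real.exp_pos _).le (hw0 _)) (Real.exp_pos _).le
    exact div_le_div₀ (mul_nonneg (Real.exp_pos _).le (hw0 _)) h2 (hκpos e) (hκanti d e hde)
  have hρe : ∀ d, ρ d * Real.exp (-d) = Real.exp (-d / 4) * Wh 1 W (d / 4) / κ d := by
    intro d
    simp only [hρ]
    rw [div_mul_eq_mul_div]
    congr 1
    rw [mul_right_comm, ← Real.exp_add]
    congr 2
    ring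
  have hρi : IntegrableOn (fun d => ρ d * Real.exp (-d)) (Ioi 0) := by
    have h2 : IntegrableOn (fun d : ℝ => Cw / c 0 * Real.exp (-(1 / 4) * d)) (Ioi 0) :=
      (integrableOn_exp_mul_Ioi (by norm_num) 0).const_mul _
    refine h2.mono' (by fun_prop) (Eventually.of_forall fun d => ?_)
    rw [Real.norm_eq_abs, abs_of_nonneg (mul_nonneg (hρ0 d) (Real.exp_pos _).le), hρe]
    rw [show -d / 4 = -(1 / 4) * d by ring, mul_div_assoc, mul_comm]
    refine mul_le_mul_of_nonneg_right ?_ (Real.exp_pos _).le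
    exact div_le_div₀ ((hw0 0).trans (hCw 0)) (hCw _) hc1 (hκ0 d)
  obtain ⟨hTc, hTi, hTle⟩ := hTS n ν ρ H hn hν (fun d _ => hρ0 d) (hρm.monotoneOn _) hρi hH hHc
  -- notations
  set X : ℝ → ℝ := fun d => ∫ y, Tst n d H y ^ 2 with hX
  set g4 : ℝ := Real.sqrt (∫ y, ‖G y‖ ^ 4) with hg4
  set h2 : ℝ := Real.sqrt (∫ y, H y ^ 2) with hh2
  have hX0 : ∀ d, 0 ≤ X d := fun d => integral_nonneg fun y => sq_nonneg _
  set A : ℝ → ℝ := fun d => Real.exp (-d / 4) * Wh 1 W (d / 4) * κ d with hAdef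
  have hA0 : ∀ d, 0 ≤ A d := fun d =>
    mul_nonneg (mul_nonneg (Real.exp_pos _).le (hw0 _)) (hκpos d).le
  set Bf : ℝ → ℝ := fun d => ρ d * Real.exp (-d) * X d with hBdef
  have hB0 : ∀ d, 0 ≤ Bf d := fun d =>
    mul_nonneg (mul_nonneg (hρ0 d) (Real.exp_pos _).le) (hX0 d)
  have hG4i : Integrable (fun y => ‖G y‖ ^ 4) := by
    refine Continuous.integrable_of_hasCompactSupport (by fun_prop) ?_
    exact hGc.norm.comp_left (g := fun x : ℝ => x ^ 4) (by norm_num)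
  have hH2i : Integrable (fun y => H y ^ 2) := by
    refine Continuous.integrable_of_hasCompactSupport (by fun_prop) ?_
    exact hHc.comp_left (g := fun x : ℝ => x ^ 2) (by norm_num)
  -- first term
  have t1 : ∫ y, ‖G y‖ ^ 2 * H y ≤ g4 * h2 := by
    have e1 : (fun y => ‖G y‖ ^ 4) = fun y => (‖G y‖ ^ 2) ^ 2 := by
      funext y; ring
    have h3 := (cs_T4 (μ := volume) (u := fun y => ‖G y‖ ^ 2) (v := H)
      (by fun_prop) hH.aestronglyMeasurable (by rw [← e1]; exact hG4i) hH2i).2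
    rw [hg4, e1]
    exact (le_abs_self _).trans h3
  -- pointwise in `d`
  have t2 : ∀ d, 0 < d → Real.exp (-d / 4) * ∫ y, kd W G d y * Tst n d H y ≤
      g4 * (Real.sqrt (A d) * Real.sqrt (Bf d)) := by
    intro d hd
    obtain ⟨k1, k2, k3⟩ := hKD W G d hW hG hGc
    obtain ⟨c1, c2⟩ := hTc d hd.le
    have h3 := (cs_T4 k2 c1.aestronglyMeasurable k1 c2).2
    have h4 : Real.sqrt (∫ y, kd W G d y ^ 2) ≤ Wh 1 W (d / 4) * g4 := by
      calc Real.sqrt (∫ y, kd W G d y ^ 2)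
          ≤ Real.sqrt (Wh 1 W (d / 4) ^ 2 * ∫ y, ‖G y‖ ^ 4) := Real.sqrt_le_sqrt k3
        _ = Wh 1 W (d / 4) * g4 := by rw [Real.sqrt_mul (sq_nonneg _), Real.sqrt_sq (hw0 _)]
    have h5 : Real.sqrt (A d) * Real.sqrt (Bf d) =
        Real.exp (-d / 4) * Wh 1 W (d / 4) * Real.sqrt (X d) := by
      rw [← Real.sqrt_mul (hA0 d)]
      have : A d * Bf d = (Real.exp (-d / 4) * Wh 1 W (d / 4)) ^ 2 * X d := by
        simp only [hAdef, hBdef]
        rw [hρe]
        have := (hκpos d).ne'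
        field_simp
      rw [this, Real.sqrt_mul (sq_nonneg _),
        Real.sqrt_sq (mul_nonneg (Real.exp_pos _).le (hw0 _))]
    rw [h5]
    calc Real.exp (-d / 4) * ∫ y, kd W G d y * Tst n d H y
        ≤ Real.exp (-d / 4) * (Real.sqrt (∫ y, kd W G d y ^ 2) * Real.sqrt (X d)) :=
          mul_le_mul_of_nonneg_left ((le_abs_self _).trans h3) (Real.exp_pos _).le
      _ ≤ Real.exp (-d / 4) * ((Wh 1 W (d / 4) * g4) * Real.sqrt (X d)) := by gcongr
      _ = _ := by ring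
  have hAi : IntegrableOn A (Ioi 0) := hSCi
  have hBi : IntegrableOn Bf (Ioi 0) := hTi
  have hsA : (fun d => Real.sqrt (A d) ^ 2) = A := by
    funext d; exact Real.sq_sqrt (hA0 d)
  have hsB : (fun d => Real.sqrt (Bf d) ^ 2) = Bf := by
    funext d; exact Real.sq_sqrt (hB0 d)
  have cs := cs_T4 (μ := volume.restrict (Ioi (0 : ℝ))) (u := fun d => Real.sqrt (A d))
    (v := fun d => Real.sqrt (Bf d))
    (hAi.aestronglyMeasurable.aemeasurable.sqrt.aestronglyMeasurable)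
    (hBi.aestronglyMeasurable.aemeasurable.sqrt.aestronglyMeasurable)
    (by rw [hsA]; exact hAi) (by rw [hsB]; exact hBi)
  obtain ⟨cs1, cs2⟩ := cs
  rw [hsA, hsB] at cs2
  have t3 : ∫ d in Ioi (0 : ℝ), Real.exp (-d / 4) * ∫ y, kd W G d y * Tst n d H y ≤
      g4 * ∫ d in Ioi (0 : ℝ), Real.sqrt (A d) * Real.sqrt (Bf d) := by
    rw [← integral_const_mul]
    refine int_le_T4 (cs1.const_mul g4) ?_ ?_
    · exact Eventually.of_forall fun d => by
        simp only [Pi.zero_apply]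
        positivity
    · exact (ae_restrict_mem measurableSet_Ioi).mono fun d hd => t2 d hd
  set IA : ℝ := ∫ d in Ioi (0 : ℝ), A d with hIA
  have hIA0 : 0 ≤ IA := integral_nonneg fun d => hA0 d
  have t4 : ∫ d in Ioi (0 : ℝ), Bf d ≤ h2 ^ 2 * IA := by
    have e1 : ∀ d, ρ d * Real.exp (-d) * kap n (Real.exp (-d)) ^ 2 = A d := by
      intro d
      rw [hρe]
      simp only [hAdef, hκ]
      have := (hκpos d).ne'
      simp only [hκ] at this
      field_simp
    have h3 := hTle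
    simp only [e1] at h3
    rw [hh2, Real.sq_sqrt (integral_nonneg fun y => sq_nonneg _)]
    exact h3
  have t5 : ∫ d in Ioi (0 : ℝ), Real.sqrt (A d) * Real.sqrt (Bf d) ≤ h2 * IA := by
    refine (le_abs_self _).trans (cs2.trans ?_)
    have h20 : 0 ≤ h2 := Real.sqrt_nonneg _
    calc Real.sqrt IA * Real.sqrt (∫ d in Ioi (0 : ℝ), Bf d)
        ≤ Real.sqrt IA * Real.sqrt (h2 ^ 2 * IA) := by gcongr
      _ = h2 * IA := by
          rw [Real.sqrt_mul (sq_nonneg _), Real.sqrt_sq h20]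
          calc Real.sqrt IA * (h2 * Real.sqrt IA) = h2 * (Real.sqrt IA * Real.sqrt IA) := by ring
            _ = h2 * IA := by rw [Real.mul_self_sqrt hIA0]
  -- the total
  have hmass : ∫ t, W t * ‖mm n (1 / 4 - Complex.I * (t : ℂ) / 4)‖ ^ 2 = θ := by
    rw [← (P.P_mass θ h0 h1).2]
    congr 1
    funext t
    have h3 : 1 ≤ ‖mm n (1 / 4 - Complex.I * (t : ℂ) / 4)‖ := by
      refine hWA.1 n _ ?_ ?_
      · simp
      · simp
        norm_num
    have h4 : ‖mm n (1 / 4 - Complex.I * (t : ℂ) / 4)‖ ≠ 0 := by linarith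
    rw [hWdef, Wn, div_mul_cancel₀ _ (pow_ne_zero 2 h4)]
  rw [hmass] at hSCe
  have hg0 : 0 ≤ g4 := Real.sqrt_nonneg _
  have hw00 := hw0 0
  calc Wh 1 W 0 * (∫ y, ‖G y‖ ^ 2 * H y) +
      2 * ∫ d in Ioi (0 : ℝ), Real.exp (-d / 4) * ∫ y, kd W G d y * Tst n d H y
      ≤ Wh 1 W 0 * (g4 * h2) + 2 * (g4 * (h2 * IA)) := by
        have := mul_le_mul_of_nonneg_left t1 hw00
        have := mul_le_mul_of_nonneg_left t5 hg0
        linarith
    _ = (Wh 1 W 0 + 2 * IA) * g4 * h2 := by ring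
    _ = θ * g4 * h2 := by
        rw [hIA]
        simp only [hAdef, hκ]
        rw [hSCe]

end Helper69.CR
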