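import Pool.Agent.Helper69.CR.St

/-!
# MP_3dd6d4_an, project CR, module TS: the square function bound
-/

set_option autoImplicit false

open MeasureTheory Set Filter Topology

noncomputable section

namespace Helper69.CR

namespace TS

theorem pp_cont (k : ℕ) : Continuous (pp k) := by
  unfold pp
  exact continuous_finsetSum _ fun i _ => continuous_const.mul (continuous_pow i)

theorem conv_int (H : ℝ → ℝ) (hH : Continuous H) (hHc : HasCompactSupport H) (g : ℝ → ℝ)
    (hg : Continuous g) (y : ℝ) :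
    IntegrableOn (fun v => g v * H (y - v)) (Ioi 0) := by
  have h1 : Continuous fun v => g v * H (y - v) := by fun_prop
  have h2 : HasCompactSupport fun v => H (y - v) := by
    have := hHc.comp_homeomorph (Homeomorph.subLeft y)
    exact this
  exact (h1.integrable_of_hasCompactSupport h2.mul_left).integrableOn

/-- `Tst` is a combination of the `Bst` -/
theorem Tst_eq (n : ℕ) (ν : ℕ → ℝ → ℝ) (hν : NN n ν) (H : ℝ → ℝ) (hH : Continuous H)
    (hHc : HasCompactSupport H) (d y : ℝ) :
    Tst n d H y = ∑ k ∈ Finset.range (2 * n), ν k (Real.exp (-d)) * Bst k H y := by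
  have h1 : ∀ v : ℝ, pp n (Real.exp (-v)) * pp n (Real.exp (-v) * Real.exp (-d)) *
      Real.exp (-v / 2) * H (y - v) = ∑ k ∈ Finset.range (2 * n), ν k (Real.exp (-d)) *
        (pp k (Real.exp (-v)) * Real.exp (-v / 2) * H (y - v)) := by
    intro v
    rw [hν.exp, Finset.sum_mul, Finset.sum_mul]
    exact Finset.sum_congr rfl fun k _ => by ring
  have h2 : ∀ k : ℕ, IntegrableOn
      (fun v : ℝ => ν k (Real.exp (-d)) * (pp k (Real.exp (-v)) * Real.exp (-v / 2) * H (y - v)))
      (Ioi 0) := by
    intro k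
    refine Integrable.const_mul ?_ _
    refine conv_int H hH hHc (fun v => pp k (Real.exp (-v)) * Real.exp (-v / 2)) ?_ y
    have := pp_cont k
    fun_prop
  unfold Tst Bst
  simp only [h1]
  rw [integral_finsetSum _ fun k _ => h2 k, hν.alt, Finset.sum_mul, ← Finset.sum_add_distrib]
  refine Finset.sum_congr rfl fun k _ => ?_
  rw [integral_const_mul]
  ring

theorem prod_int {f g : ℝ → ℝ} (hf : Continuous f) (hg : Continuous g)
    (hf2 : Integrable fun y => f y ^ 2) (hg2 : Integrable fun y => g y ^ 2) :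
    Integrable fun y => f y * g y := by
  refine Integrable.mono' (hf2.add hg2) (hf.mul hg).aestronglyMeasurable ?_
  refine Eventually.of_forall fun y => ?_
  show ‖f y * g y‖ ≤ f y ^ 2 + g y ^ 2
  rw [Real.norm_eq_abs, abs_mul]
  nlinarith [sq_abs (f y), sq_abs (g y), sq_nonneg (|f y| - |g y|), sq_nonneg (|f y| + |g y|)]

/-- the substitution `x = e^{-d}` -/
theorem subst (g : ℝ → ℝ) (hg : Continuous g) (D : ℝ)
    (hint : IntegrableOn (fun d => Real.exp (-d) * g (Real.exp (-d))) (Ioi D)) :
    ∫ d in Ioi D, Real.exp (-d) * g (Real.exp (-d)) = ∫ x in (0 : ℝ)..Real.exp (-D), g x := by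
  set A : ℝ → ℝ := fun x => ∫ t in (0 : ℝ)..x, g t with hA
  have hAd : ∀ x, HasDerivAt A (g x) x := fun x =>
    intervalIntegral.integral_hasDerivAt_right (hg.intervalIntegrable _ _)
      (hg.stronglyMeasurableAtFilter _ _) hg.continuousAt
  have hAc : Continuous A := continuous_iff_continuousAt.2 fun x => (hAd x).continuousAt
  have hder : ∀ d, HasDerivAt (fun d => -A (Real.exp (-d)))
      (Real.exp (-d) * g (Real.exp (-d))) d := by
    intro d
    have h1 : HasDerivAt (fun d : ℝ => Real.exp (-d)) (-Real.exp (-d)) d := by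
      have := (hasDerivAt_neg d).exp
      simpa using this
    have h3 : HasDerivAt (fun d => A (Real.exp (-d))) (g (Real.exp (-d)) * -Real.exp (-d)) d :=
      HasDerivAt.comp (h₂ := A) (h := fun d => Real.exp (-d)) d (hAd (Real.exp (-d))) h1
    have h2 : HasDerivAt (fun d => -A (Real.exp (-d)))
        (-(g (Real.exp (-d)) * -Real.exp (-d))) d := h3.fun_neg
    refine h2.congr_deriv ?_
    ring
  have hlim : Tendsto (fun d => -A (Real.exp (-d))) atTop (𝓝 0) := by
    have h1 : Tendsto (fun d : ℝ => Real.exp (-d)) atTop (𝓝 0) :=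
      Real.tendsto_exp_neg_atTop_nhds_zero
    have h2 : Tendsto (fun d : ℝ => A (Real.exp (-d))) atTop (𝓝 (A 0)) := (hAc.tendsto 0).comp h1
    have h3 : A 0 = 0 := by simp [hA]
    rw [h3] at h2
    simpa using h2.neg
  have h4 := integral_Ioi_of_hasDerivAt_of_tendsto (a := D) (m := 0)
    (hder D).continuousAt.continuousWithinAt (fun d _ => hder d) hint hlim
  rw [h4]
  simp [hA]

theorem bdd_of_cont (g : ℝ → ℝ) (hg : Continuous g) :
    ∃ C : ℝ, 0 ≤ C ∧ ∀ d : ℝ, 0 < d → |g (Real.exp (-d))| ≤ C := by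
  obtain ⟨C, hC⟩ := (isCompact_Icc (a := (0 : ℝ)) (b := 1)).exists_bound_of_continuousOn
    hg.continuousOn
  refine ⟨C, (norm_nonneg _).trans (hC 0 (by simp)), fun d hd => ?_⟩
  refine hC _ ⟨(Real.exp_pos _).le, ?_⟩
  rw [Real.exp_le_one_iff]
  linarith

theorem w_int (w : ℝ → ℝ) (hw : IntegrableOn w (Ioi 0)) (g : ℝ → ℝ) (hg : Continuous g) :
    IntegrableOn (fun d => w d * g (Real.exp (-d))) (Ioi 0) := by
  obtain ⟨C, hC0, hC⟩ := bdd_of_cont g hg
  have hgm : AEStronglyMeasurable (fun d => g (Real.exp (-d))) (volume.restrict (Ioi (0 : ℝ))) :=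
    (hg.comp (Real.continuous_exp.comp continuous_neg)).aestronglyMeasurable
  refine Integrable.mono' (hw.norm.const_mul C) (hw.aestronglyMeasurable.mul hgm) ?_
  filter_upwards [ae_restrict_mem measurableSet_Ioi] with d hd
  rw [norm_mul, mul_comm]
  exact mul_le_mul_of_nonneg_right (hC d hd) (norm_nonneg _)

end TS

open TS in
theorem hTS (hLY : StLY) (hIS : StIS2) (hKP : StKP) : StTS := by
  intro n ν ρ H hn hν hρ hmon hρi hH hHc
  obtain ⟨-, hB⟩ := hIS
  set N : ℝ := ∫ y, H y ^ 2 with hN
  have hbc : ∀ k, Continuous (Bst k H) := fun k => (hB k H hH hHc).1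
  have hb2 : ∀ k, Integrable (fun y => Bst k H y ^ 2) := fun k => (hB k H hH hHc).2.1
  have hbN : ∀ k, ∫ y, Bst k H y ^ 2 = N := fun k => (hB k H hH hHc).2.2
  have hbb : ∀ k l, Integrable (fun y => Bst k H y * Bst l H y) := fun k l =>
    prod_int (hbc k) (hbc l) (hb2 k) (hb2 l)
  set G : ℕ → ℕ → ℝ := fun k l => ∫ y, Bst k H y * Bst l H y with hG
  have hGN : ∀ k l, G k l ≤ N := by
    intro k l
    have h1 : G k l ≤ ∫ y, (1 / 2 * Bst k H y ^ 2 + 1 / 2 * Bst l H y ^ 2) := by
      refine integral_mono (hbb k l) (((hb2 k).const_mul _).add ((hb2 l).const_mul _)) fun y => ?_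
      show Bst k H y * Bst l H y ≤ 1 / 2 * Bst k H y ^ 2 + 1 / 2 * Bst l H y ^ 2
      nlinarith [sq_nonneg (Bst k H y - Bst l H y)]
    rw [integral_add ((hb2 k).const_mul _) ((hb2 l).const_mul _), integral_const_mul,
      integral_const_mul, hbN, hbN] at h1
    linarith
  -- the square of `Tst`
  have hsq : ∀ d y, Tst n d H y ^ 2 = ∑ k ∈ Finset.range (2 * n), ∑ l ∈ Finset.range (2 * n),
      ν k (Real.exp (-d)) * ν l (Real.exp (-d)) * (Bst k H y * Bst l H y) := by
    intro d y
    rw [Tst_eq n ν hν H hH hHc, sq, Finset.sum_mul_sum]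
    exact Finset.sum_congr rfl fun k _ => Finset.sum_congr rfl fun l _ => by ring
  have hTint : ∀ d, Integrable (fun y => Tst n d H y ^ 2) := by
    intro d
    simp only [hsq]
    exact integrable_finsetSum _ fun k _ => integrable_finsetSum _ fun l _ =>
      (hbb k l).const_mul _
  have hTval : ∀ d, ∫ y, Tst n d H y ^ 2 =
      ∑ k ∈ Finset.range (2 * n), ∑ l ∈ Finset.range (2 * n),
        ν k (Real.exp (-d)) * ν l (Real.exp (-d)) * G k l := by
    intro d
    simp only [hsq]
    rw [integral_finsetSum _ fun k _ => integrable_finsetSum _ fun l _ => (hbb k l).const_mul _]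
    refine Finset.sum_congr rfl fun k _ => ?_
    rw [integral_finsetSum _ fun l _ => (hbb k l).const_mul _]
    refine Finset.sum_congr rfl fun l _ => ?_
    rw [integral_const_mul]
  have hTc : ∀ d, Continuous (Tst n d H) := by
    intro d
    have h1 : Tst n d H = fun y => ∑ k ∈ Finset.range (2 * n),
        ν k (Real.exp (-d)) * Bst k H y := by
      ext y
      exact Tst_eq n ν hν H hH hHc d y
    rw [h1]
    exact continuous_finsetSum _ fun k _ => continuous_const.mul (hbc k)
  -- the weights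
  have hgc : ∀ k l, Continuous fun x => ν k x * ν l x := fun k l => (hν.cont k).mul (hν.cont l)
  have hwi : ∀ k l, IntegrableOn (fun d => ρ d * Real.exp (-d) *
      (ν k (Real.exp (-d)) * ν l (Real.exp (-d)))) (Ioi 0) := fun k l =>
    w_int (fun d => ρ d * Real.exp (-d)) hρi (fun x => ν k x * ν l x) (hgc k l)
  have hei : IntegrableOn (fun d : ℝ => Real.exp (-d)) (Ioi 0) := integrableOn_exp_neg_Ioi 0
  have hφi : ∀ k l, IntegrableOn (fun d => Real.exp (-d) *
      (ν k (Real.exp (-d)) * ν l (Real.exp (-d)))) (Ioi 0) := fun k l =>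
    w_int (fun d => Real.exp (-d)) hei (fun x => ν k x * ν l x) (hgc k l)
  have hcpos : ∀ k < 2 * n, ∀ l < 2 * n, 0 ≤ ∫ d in Ioi (0 : ℝ), ρ d * Real.exp (-d) *
      (ν k (Real.exp (-d)) * ν l (Real.exp (-d))) := by
    intro k hk l hl
    have h1 := hLY ρ (fun d => Real.exp (-d) * (ν k (Real.exp (-d)) * ν l (Real.exp (-d)))) hρ
      hmon (by
        have := hgc k l
        have h2 : Continuous fun d : ℝ => (fun x => ν k x * ν l x) (Real.exp (-d)) :=
          this.comp (Real.continuous_exp.comp continuous_neg)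
        exact (Real.continuous_exp.comp continuous_neg).mul h2) (hφi k l)
      (by simpa only [mul_assoc] using hwi k l) (by
        intro D hD
        have h3 := subst (fun x => ν k x * ν l x) (hgc k l) D
          ((hφi k l).mono_set (Ioi_subset_Ioi hD))
        rw [h3]
        refine hν.pos k l hk hl _ (Real.exp_pos _).le ?_
        rw [Real.exp_le_one_iff]
        linarith)
    simpa only [mul_assoc] using h1
  have hkl : ∀ k l, IntegrableOn (fun d => ρ d * Real.exp (-d) *
      (ν k (Real.exp (-d)) * ν l (Real.exp (-d)) * G k l)) (Ioi 0) := by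
    intro k l
    have := (hwi k l).mul_const (G k l)
    refine this.congr (Eventually.of_forall fun d => ?_)
    show ρ d * Real.exp (-d) * (ν k (Real.exp (-d)) * ν l (Real.exp (-d))) * G k l = _
    ring
  have hexp : ∀ d, ρ d * Real.exp (-d) * ∫ y, Tst n d H y ^ 2 =
      ∑ k ∈ Finset.range (2 * n), ∑ l ∈ Finset.range (2 * n), ρ d * Real.exp (-d) *
        (ν k (Real.exp (-d)) * ν l (Real.exp (-d)) * G k l) := by
    intro d
    rw [hTval, Finset.mul_sum]
    exact Finset.sum_congr rfl fun k _ => by rw [Finset.mul_sum]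
  refine ⟨fun d _ => ⟨hTc d, hTint d⟩, ?_, ?_⟩
  · simp only [hexp]
    exact integrable_finsetSum _ fun k _ => integrable_finsetSum _ fun l _ => hkl k l
  · have hL : ∫ d in Ioi (0 : ℝ), ρ d * Real.exp (-d) * (∫ y, Tst n d H y ^ 2) =
        ∑ k ∈ Finset.range (2 * n), ∑ l ∈ Finset.range (2 * n),
          (∫ d in Ioi (0 : ℝ), ρ d * Real.exp (-d) *
            (ν k (Real.exp (-d)) * ν l (Real.exp (-d)))) * G k l := by
      simp only [hexp]
      rw [integral_finsetSum _ fun k _ => integrable_finsetSum _ fun l _ => hkl k l]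
      refine Finset.sum_congr rfl fun k _ => ?_
      rw [integral_finsetSum _ fun l _ => hkl k l]
      refine Finset.sum_congr rfl fun l _ => ?_
      rw [← integral_mul_const]
      refine integral_congr_ae (Eventually.of_forall fun d => ?_)
      show ρ d * Real.exp (-d) * (ν k (Real.exp (-d)) * ν l (Real.exp (-d)) * G k l) = _
      ring
    have hR : ∫ d in Ioi (0 : ℝ), ρ d * Real.exp (-d) * kap n (Real.exp (-d)) ^ 2 =
        ∑ k ∈ Finset.range (2 * n), ∑ l ∈ Finset.range (2 * n),
          (∫ d in Ioi (0 : ℝ), ρ d * Real.exp (-d) *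
            (ν k (Real.exp (-d)) * ν l (Real.exp (-d)))) := by
      have h1 : ∀ d : ℝ, ρ d * Real.exp (-d) * kap n (Real.exp (-d)) ^ 2 =
          ∑ k ∈ Finset.range (2 * n), ∑ l ∈ Finset.range (2 * n), ρ d * Real.exp (-d) *
            (ν k (Real.exp (-d)) * ν l (Real.exp (-d))) := by
        intro d
        rw [(hKP n hn).2 ν hν, sq, Finset.sum_mul_sum, Finset.mul_sum]
        exact Finset.sum_congr rfl fun k _ => by rw [Finset.mul_sum]
      simp only [h1]
      rw [integral_finsetSum _ fun k _ => integrable_finsetSum _ fun l _ => hwi k l]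
      exact Finset.sum_congr rfl fun k _ => integral_finsetSum _ fun l _ => hwi k l
    rw [hL, hR, Finset.mul_sum]
    refine Finset.sum_le_sum fun k hk => ?_
    rw [Finset.mul_sum]
    refine Finset.sum_le_sum fun l hl => ?_
    rw [mul_comm N]
    exact mul_le_mul_of_nonneg_left (hGN k l)
      (hcpos k (Finset.mem_range.1 hk) l (Finset.mem_range.1 hl))

end Helper69.CR
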