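import Pool.Agent.Helper69.CR.St
import Pool.Agent.Helper85.BPM.W2

/-!
# MP_3dd6d4_an, project CR, module WA : the weight is admissible (helper68)
-/

set_option autoImplicit false

open MeasureTheory Complex Filter Topology ProbabilityTheory
open scoped ENNReal NNReal ComplexConjugate

noncomputable section

namespace Helper69.CR

open Helper85.BP Helper85.BP.P

/-- positive definiteness of `‖g‖²`, `g` the Fourier transform of a finite positive density. -/
private theorem density_WA {α : Type*} [MeasurableSpace α] (μ : Measure α) (w φ : α → ℝ)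
    (hw : Integrable w μ) (hw0 : ∀ x, 0 ≤ w x) (hwm : Measurable w) (hφ : Measurable φ)
    {g : ℝ → ℂ}
    (hg : ∀ t : ℝ, g t = ∫ x, (w x : ℂ) * Complex.exp (I * ((t * φ x : ℝ) : ℂ)) ∂μ) :
    PD (fun t => ‖g t‖ ^ 2) := by
  have hdm : Measurable fun x => ENNReal.ofReal (w x) := hwm.ennreal_ofReal
  have hfin : IsFiniteMeasure (μ.withDensity fun x => ENNReal.ofReal (w x)) := by
    apply isFiniteMeasure_withDensity
    exact hw.lintegral_lt_top.ne
  set m : Measure ℝ := (μ.withDensity fun x => ENNReal.ofReal (w x)).map φ with hm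
  have hmf : IsFiniteMeasure m := by
    rw [hm]
    infer_instance
  have hgm : ∀ t : ℝ, g t = charFun m t := by
    intro t
    have hcont : Continuous fun s : ℝ => Complex.exp ((t : ℂ) * (s : ℂ) * I) := by fun_prop
    rw [charFun_apply_real, hm,
      integral_map hφ.aemeasurable hcont.aestronglyMeasurable,
      integral_withDensity_eq_integral_toReal_smul hdm
        (Filter.Eventually.of_forall fun x => ENNReal.ofReal_lt_top), hg t]
    congr 1
    funext x
    rw [ENNReal.toReal_ofReal (hw0 x), Complex.real_smul]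
    congr 2
    push_cast
    ring
  have hneg : ∀ t : ℝ, charFun (m.map fun s => -s) t = charFun m (-t) := by
    intro t
    have hmeas : Measurable fun s : ℝ => -s := measurable_neg
    have hcont : Continuous fun s : ℝ => Complex.exp ((t : ℂ) * (s : ℂ) * I) := by fun_prop
    rw [charFun_apply_real, charFun_apply_real, integral_map hmeas.aemeasurable
      hcont.aestronglyMeasurable]
    congr 1
    funext s
    congr 1
    push_cast
    ring
  have hfin2 : IsFiniteMeasure (m.map fun s => -s) := inferInstance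
  rw [W1_iff]
  refine ⟨m.conv (m.map fun s => -s), inferInstance, fun t => ?_⟩
  rw [charFun_conv, hneg, charFun_neg, ← hgm t, Complex.mul_conj, Complex.normSq_eq_norm_sq]

/-- `|Γ(a+icτ)/Γ(a+1/2+icτ)|²` is positive definite. -/
private theorem beta_WA (a c : ℝ) (ha : 0 < a) :
    PD (fun t => ‖Complex.Gamma ((a : ℂ) + I * ((c * t : ℝ) : ℂ))‖ ^ 2 /
      ‖Complex.Gamma (((a + 1 / 2 : ℝ) : ℂ) + I * ((c * t : ℝ) : ℂ))‖ ^ 2) := by
  set w : ℝ → ℝ := fun x => |x| ^ (a - 1) * |1 - x| ^ ((1 : ℝ) / 2 - 1) with hw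
  have hae : ∀ᵐ x : ℝ ∂(volume.restrict (Set.Ioc (0 : ℝ) 1)), 0 < x ∧ 0 < 1 - x := by
    have hne : ∀ᵐ x : ℝ ∂(volume.restrict (Set.Ioc (0 : ℝ) 1)), x ∈ Set.Ioc (0 : ℝ) 1 :=
      ae_restrict_mem measurableSet_Ioc
    have hne1 : ∀ᵐ x : ℝ ∂(volume.restrict (Set.Ioc (0 : ℝ) 1)), x ≠ 1 :=
      ae_restrict_of_ae (Measure.ae_ne volume 1)
    filter_upwards [hne, hne1] with x hx hx1
    have := hx.2
    have := lt_of_le_of_ne this hx1
    exact ⟨hx.1, by linarith⟩
  have hwI : Integrable w (volume.restrict (Set.Ioc 0 1)) := by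
    have h1 := betaIntegral_convergent (u := (a : ℂ)) (v := (((1 : ℝ) / 2 : ℝ) : ℂ))
      (by simpa using ha) (by norm_num)
    rw [intervalIntegrable_iff_integrableOn_Ioc_of_le zero_le_one] at h1
    refine h1.norm.congr ?_
    filter_upwards [hae] with x hx
    obtain ⟨hx0, hx2⟩ := hx
    rw [hw]
    simp only
    rw [abs_of_pos hx0, abs_of_pos hx2, norm_mul]
    rw [Complex.norm_cpow_eq_rpow_re_of_pos hx0,
      show (1 : ℂ) - (x : ℂ) = ((1 - x : ℝ) : ℂ) by push_cast; ring,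
      Complex.norm_cpow_eq_rpow_re_of_pos hx2]
    simp
  have hB := density_WA (volume.restrict (Set.Ioc 0 1)) w (fun x => c * Real.log x) hwI
    (fun x => by positivity) (by rw [hw]; fun_prop) (by fun_prop)
    (g := fun t => betaIntegral ((a : ℂ) + I * ((c * t : ℝ) : ℂ)) ((1 / 2 : ℝ) : ℂ)) (by
      intro t
      unfold betaIntegral
      rw [intervalIntegral.integral_of_le zero_le_one]
      apply integral_congr_ae
      filter_upwards [hae] with x hx
      obtain ⟨hx0, hx2⟩ := hx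
      have hx0' : (x : ℂ) ≠ 0 := by exact_mod_cast hx0.ne'
      have hx2' : ((1 - x : ℝ) : ℂ) ≠ 0 := by exact_mod_cast hx2.ne'
      rw [hw]
      simp only
      rw [abs_of_pos hx0, abs_of_pos hx2,
        show (1 : ℂ) - (x : ℂ) = ((1 - x : ℝ) : ℂ) by push_cast; ring,
        Complex.cpow_def_of_ne_zero hx0', Complex.cpow_def_of_ne_zero hx2',
        Real.rpow_def_of_pos hx0, Real.rpow_def_of_pos hx2, ← Complex.ofReal_log hx0.le,
        ← Complex.ofReal_log hx2.le]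
      push_cast
      rw [← Complex.exp_add, ← Complex.exp_add, ← Complex.exp_add]
      congr 1
      ring)
  have hC := PD_smul (1 / Real.pi) (by positivity) hB
  convert hC using 2 with t
  have hre1 : 0 < ((a : ℂ) + I * ((c * t : ℝ) : ℂ)).re := by simpa using ha
  have hre2 : 0 < (((1 / 2 : ℝ) : ℂ)).re := by norm_num
  have h1 := Gamma_mul_Gamma_eq_betaIntegral hre1 hre2
  have h3 : (a : ℂ) + I * ((c * t : ℝ) : ℂ) + ((1 / 2 : ℝ) : ℂ) =
      ((a + 1 / 2 : ℝ) : ℂ) + I * ((c * t : ℝ) : ℂ) := by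
    push_cast
    ring
  rw [h3] at h1
  have h4 : Complex.Gamma ((1 / 2 : ℝ) : ℂ) = ((Real.sqrt Real.pi : ℝ) : ℂ) := by
    rw [Complex.Gamma_ofReal, Real.Gamma_one_half_eq]
  have h5 := congrArg (fun z : ℂ => ‖z‖ ^ 2) h1
  simp only [norm_mul, mul_pow] at h5
  rw [h4, Complex.norm_real, Real.norm_eq_abs, sq_abs, Real.sq_sqrt Real.pi_pos.le] at h5
  have hne : Complex.Gamma (((a + 1 / 2 : ℝ) : ℂ) + I * ((c * t : ℝ) : ℂ)) ≠ 0 := by
    apply Complex.Gamma_ne_zero_of_re_pos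
    simp
    linarith
  have hpos : 0 < ‖Complex.Gamma (((a + 1 / 2 : ℝ) : ℂ) + I * ((c * t : ℝ) : ℂ))‖ ^ 2 := by
    positivity
  have hpi := Real.pi_pos
  generalize ‖Complex.Gamma (((a + 1 / 2 : ℝ) : ℂ) + I * ((c * t : ℝ) : ℂ))‖ ^ 2 = X at *
  generalize ‖Complex.Gamma ((a : ℂ) + I * ((c * t : ℝ) : ℂ))‖ ^ 2 = Y at *
  rw [div_eq_iff hpos.ne']
  field_simp
  linarith

private theorem gamma_prod_WA (a y : ℝ) (ha : 0 < a) (n : ℕ) :
    ‖Complex.Gamma (((n + a : ℝ) : ℂ) + I * (y : ℂ))‖ ^ 2 =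
      (∏ k ∈ Finset.range n, (((k : ℝ) + a) ^ 2 + y ^ 2)) *
        ‖Complex.Gamma ((a : ℂ) + I * (y : ℂ))‖ ^ 2 := by
  induction n with
  | zero => simp
  | succ n ih =>
    have h1 : (((n + 1 : ℕ) + a : ℝ) : ℂ) + I * (y : ℂ) =
        ((((n : ℝ) + a : ℝ) : ℂ) + I * (y : ℂ)) + 1 := by
      push_cast
      ring
    have hre : ((((n : ℝ) + a : ℝ) : ℂ) + I * (y : ℂ)).re = n + a := by simp
    have hne : (((n : ℝ) + a : ℝ) : ℂ) + I * (y : ℂ) ≠ 0 := by
      intro h
      have h2 := congrArg Complex.re h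
      rw [hre, Complex.zero_re] at h2
      have : (0 : ℝ) ≤ n := Nat.cast_nonneg n
      linarith
    rw [h1, Complex.Gamma_add_one _ hne, norm_mul, mul_pow, ih, Finset.prod_range_succ]
    have h3 : ‖(((n : ℝ) + a : ℝ) : ℂ) + I * (y : ℂ)‖ ^ 2 = ((n : ℝ) + a) ^ 2 + y ^ 2 := by
      rw [← Complex.normSq_eq_norm_sq, Complex.normSq_apply]
      simp
      ring
    rw [h3]
    ring

private theorem mm_sq_WA (n : ℕ) (τ : ℝ) :
    ‖mm n (1 / 4 - Complex.I * (τ : ℂ) / 4)‖ ^ 2 =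
      (∏ k ∈ Finset.range n, (((k : ℝ) + 3 / 4) ^ 2 + (τ / 4) ^ 2)) /
        ∏ k ∈ Finset.range n, (((k : ℝ) + 1 / 4) ^ 2 + (τ / 4) ^ 2) := by
  unfold mm
  rw [norm_prod, ← Finset.prod_pow, ← Finset.prod_div_distrib]
  refine Finset.prod_congr rfl fun k _ => ?_
  rw [norm_div, div_pow, ← Complex.normSq_eq_norm_sq, ← Complex.normSq_eq_norm_sq,
    Complex.normSq_apply, Complex.normSq_apply]
  congr 1
  · simp
    ring
  · simp
    ring

private theorem quarter_WA (τ : ℝ) :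
    ‖Complex.Gamma (((1 / 4 : ℝ) : ℂ) + I * ((1 / 4 * τ : ℝ) : ℂ))‖ ^ 2 *
      ‖Complex.Gamma (((3 / 4 : ℝ) : ℂ) + I * ((1 / 4 * τ : ℝ) : ℂ))‖ ^ 2 =
      2 * Real.pi ^ 2 / Real.cosh (Real.pi * (1 / 2 * τ)) := by
  have h := W2_Q (1 / 2) (1 / 2 * τ) (by norm_num) (by norm_num)
  rw [show Real.pi * (1 / 2) = Real.pi / 2 by ring, Real.cos_pi_div_two, add_zero] at h
  rw [← h]
  have e1 : ((1 + 1 / 2) / 2 : ℝ) = 3 / 4 := by norm_num
  have e2 : ((1 - 1 / 2) / 2 : ℝ) = 1 / 4 := by norm_num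
  have e3 : (1 / 2 * (1 / 2 * τ) : ℝ) = 1 / 4 * τ := by ring
  rw [e1, e2, e3]
  ring

private theorem one_le_mm_WA (n : ℕ) (a : ℂ) (h0 : 0 < a.re) (h1 : a.re ≤ 1 / 2) :
    1 ≤ ‖mm n a‖ := by
  unfold mm
  rw [norm_prod]
  have h : ∀ k ∈ Finset.range n, (1 : ℝ) ≤ ‖((k : ℂ) + 1 - a) / ((k : ℂ) + a)‖ := by
    intro k _
    have hk : (0 : ℝ) ≤ k := Nat.cast_nonneg k
    have hre : ((k : ℂ) + a).re = k + a.re := by simp
    have hne : (k : ℂ) + a ≠ 0 := by
      intro h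
      have h2 := congrArg Complex.re h
      rw [hre, Complex.zero_re] at h2
      linarith
    rw [norm_div, one_le_div (norm_pos_iff.mpr hne)]
    apply le_of_sq_le_sq _ (norm_nonneg _)
    rw [← Complex.normSq_eq_norm_sq, ← Complex.normSq_eq_norm_sq, Complex.normSq_apply,
      Complex.normSq_apply]
    simp
    nlinarith
  calc (1 : ℝ) = ∏ _k ∈ Finset.range n, (1 : ℝ) := by simp
    _ ≤ _ := Finset.prod_le_prod (fun _ _ => zero_le_one) h

theorem hWA : StWA := by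
  refine ⟨one_le_mm_WA, fun n θ h0 h1 => ?_⟩
  obtain ⟨-, hc, -, hpos, -, heven, -⟩ := P_facts θ h0 h1
  set N : ℝ → ℝ := fun τ => ∏ k ∈ Finset.range n, (((k : ℝ) + 1 / 4) ^ 2 + (τ / 4) ^ 2) with hN
  set D : ℝ → ℝ := fun τ => ∏ k ∈ Finset.range n, (((k : ℝ) + 3 / 4) ^ 2 + (τ / 4) ^ 2) with hD
  have hNpos : ∀ τ, 0 < N τ := fun τ => Finset.prod_pos fun k _ => by positivity
  have hDpos : ∀ τ, 0 < D τ := fun τ => Finset.prod_pos fun k _ => by positivity
  have hWn : ∀ τ, Wn n θ τ = P1 θ τ * (N τ / D τ) := by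
    intro τ
    unfold Wn
    rw [mm_sq_WA, div_div_eq_mul_div, mul_div_assoc]
  have hNc : Continuous N := continuous_finsetProd _ fun k _ => by fun_prop
  have hDc : Continuous D := continuous_finsetProd _ fun k _ => by fun_prop
  have hcW : Continuous (Wn n θ) := by
    rw [show Wn n θ = fun τ => P1 θ τ * (N τ / D τ) from funext hWn]
    exact hc.mul (hNc.div hDc fun τ => (hDpos τ).ne')
  have hrat1 : ∀ τ, N τ / D τ ≤ 1 := by
    intro τ
    rw [div_le_one (hDpos τ)]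
    apply Finset.prod_le_prod
    · intro k _
      positivity
    · intro k _
      have hk : (0 : ℝ) ≤ k := Nat.cast_nonneg k
      nlinarith
  have hW0 : ∀ τ, 0 ≤ Wn n θ τ := fun τ => by
    rw [hWn]
    exact mul_nonneg (hpos τ).le (div_nonneg (hNpos τ).le (hDpos τ).le)
  have hint : Integrable (fun τ => (1 + (1 : ℝ) ^ 2 * τ ^ 2) * Wn n θ τ) := by
    refine W2_int 1 θ h0 h1 zero_le_one (by norm_num) _ hcW hW0 (fun τ => ?_)
    rw [hWn]
    calc P1 θ τ * (N τ / D τ) ≤ P1 θ τ * 1 :=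
          mul_le_mul_of_nonneg_left (hrat1 τ) (hpos τ).le
      _ = P1 θ τ := mul_one _
  have hsin : 0 ≤ Real.sin (Real.pi * θ) := by
    apply Real.sin_nonneg_of_nonneg_of_le_pi
    · positivity
    · nlinarith [Real.pi_pos]
  have hcos : 0 ≤ 1 - Real.cos (Real.pi * θ) := by
    have := Real.cos_le_one (Real.pi * θ)
    linarith
  have hPD : PD (fun τ => (1 + (1 : ℝ) ^ 2 * τ ^ 2) * Wn n θ τ) := by
    have g1 := PD_gamma (3 / 2) (1 / 2) (by norm_num)
    have g2 := PD_gamma ((1 + θ) / 2) (1 / 2) (by linarith)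
    have g3 := PD_gamma ((1 - θ) / 2) (1 / 2) (by linarith)
    have g4 := PD_smul ((1 - Real.cos (Real.pi * θ)) / (2 * Real.pi ^ 2)) (by positivity)
      (PD_mul g2 g3)
    have g5 := PD_add (PD_const 1 zero_le_one) g4
    have g6 := PD_gamma (3 / 4) (1 / 4) (by norm_num)
    have g7 := beta_WA (n + 1 / 4) (1 / 4) (by positivity)
    have g8 := PD_smul (Real.sin (Real.pi * θ) / (2 * Real.pi ^ 3)) (by positivity)
      (PD_mul (PD_mul g1 g5) (PD_mul (PD_mul g6 g6) g7))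
    convert g8 using 2 with τ
    rw [hWn, W2_Q θ τ h0 h1, W2_threehalf (1 / 2 * τ)]
    have eA := gamma_prod_WA (1 / 4) (1 / 4 * τ) (by norm_num) n
    have eB := gamma_prod_WA (3 / 4) (1 / 4 * τ) (by norm_num) n
    have eQ := quarter_WA τ
    have eB' : (((n : ℝ) + 1 / 4 + 1 / 2 : ℝ) : ℂ) = (((n : ℝ) + 3 / 4 : ℝ) : ℂ) := by
      push_cast
      ring
    rw [eB', eA, eB]
    have hNN : (∏ k ∈ Finset.range n, (((k : ℝ) + 1 / 4) ^ 2 + (1 / 4 * τ) ^ 2)) = N τ := by
      rw [hN]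
      refine Finset.prod_congr rfl fun k _ => by ring
    have hDD : (∏ k ∈ Finset.range n, (((k : ℝ) + 3 / 4) ^ 2 + (1 / 4 * τ) ^ 2)) = D τ := by
      rw [hD]
      refine Finset.prod_congr rfl fun k _ => by ring
    rw [hNN, hDD]
    have hA0 : 0 < ‖Complex.Gamma (((1 / 4 : ℝ) : ℂ) + I * ((1 / 4 * τ : ℝ) : ℂ))‖ ^ 2 := by
      have : Complex.Gamma (((1 / 4 : ℝ) : ℂ) + I * ((1 / 4 * τ : ℝ) : ℂ)) ≠ 0 := by
        apply Complex.Gamma_ne_zero_of_re_pos
        simp
      positivity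
    have hB0 : 0 < ‖Complex.Gamma (((3 / 4 : ℝ) : ℂ) + I * ((1 / 4 * τ : ℝ) : ℂ))‖ ^ 2 := by
      have : Complex.Gamma (((3 / 4 : ℝ) : ℂ) + I * ((1 / 4 * τ : ℝ) : ℂ)) ≠ 0 := by
        apply Complex.Gamma_ne_zero_of_re_pos
        simp
      positivity
    have hC := Real.cosh_pos (Real.pi * (1 / 2 * τ))
    have hDen := W2_den_pos θ τ h0 h1
    have hcc : Real.cosh (Real.pi * τ) = 2 * Real.cosh (Real.pi * (1 / 2 * τ)) ^ 2 - 1 := by
      have h2 := Real.cosh_two_mul (Real.pi * (1 / 2 * τ))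
      have h3 := Real.cosh_sq (Real.pi * (1 / 2 * τ))
      rw [show Real.pi * τ = 2 * (Real.pi * (1 / 2 * τ)) by ring, h2]
      linarith
    unfold P1
    have hpi := Real.pi_pos
    have hNp := hNpos τ
    have hDp := hDpos τ
    rw [hcc] at hDen ⊢
    generalize ‖Complex.Gamma (((1 / 4 : ℝ) : ℂ) + I * ((1 / 4 * τ : ℝ) : ℂ))‖ ^ 2 = A0 at *
    generalize ‖Complex.Gamma (((3 / 4 : ℝ) : ℂ) + I * ((1 / 4 * τ : ℝ) : ℂ))‖ ^ 2 = B0 at *
    generalize Real.cosh (Real.pi * (1 / 2 * τ)) = C at *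
    generalize Real.cos (Real.pi * θ) = c at *
    generalize Real.sin (Real.pi * θ) = S at *
    generalize N τ = N0 at *
    generalize D τ = D0 at *
    have hA0' : A0 = 2 * Real.pi ^ 2 / C / B0 := by
      rw [eq_div_iff hB0.ne', eQ]
    rw [hA0']
    field_simp
    ring
  constructor
  · exact hcW
  · exact hW0
  · intro τ
    rw [hWn, hWn, heven τ]
    have hNe : N (-τ) = N τ := by
      rw [hN]
      refine Finset.prod_congr rfl fun k _ => by ring
    have hDe : D (-τ) = D τ := by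
      rw [hD]
      refine Finset.prod_congr rfl fun k _ => by ring
    rw [hNe, hDe]
  · exact hint
  · intro s
    have := PD_integral_nonneg hPD hint s
    simpa only [one_mul] using this

end Helper69.CR
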