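import Pool.Agent.Helper69.CR.St

/-!
# MP_3dd6d4_an, project CR, module A1 (helper62): the Christoffel-Darboux identity
-/

set_option autoImplicit false

namespace Helper69.CR

open MeasureTheory Finset

private lemma int_prod_A1 (N : ℕ) (a b : ℕ → ℝ) (s t : ℝ) :
    ∫ x in (0 : ℝ)..1, (∑ i ∈ range N, a i * (s * x) ^ i) * (∑ k ∈ range N, b k * (t * x) ^ k) =
      ∑ i ∈ range N, ∑ k ∈ range N, a i * b k * s ^ i * t ^ k / ((i : ℝ) + k + 1) := by
  have h1 : ∀ x : ℝ, (∑ i ∈ range N, a i * (s * x) ^ i) * (∑ k ∈ range N, b k * (t * x) ^ k) =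
      ∑ i ∈ range N, ∑ k ∈ range N, (a i * b k * s ^ i * t ^ k) * x ^ (i + k) := by
    intro x
    rw [sum_mul_sum]
    refine sum_congr rfl fun i _ => sum_congr rfl fun k _ => ?_
    rw [mul_pow, mul_pow, pow_add]
    ring
  simp_rw [h1]
  rw [intervalIntegral.integral_finsetSum]
  · refine sum_congr rfl fun i _ => ?_
    rw [intervalIntegral.integral_finsetSum]
    · refine sum_congr rfl fun k _ => ?_
      rw [intervalIntegral.integral_const_mul, integral_pow]
      have : ((i : ℝ) + k + 1) ≠ 0 := by positivity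
      push_cast
      rw [one_pow, zero_pow (by omega), sub_zero]
      ring
    · intro k _
      exact (Continuous.intervalIntegrable (by fun_prop) _ _)
  · intro i _
    exact (Continuous.intervalIntegrable (by fun_prop) _ _)

private lemma pc_low_A1 {n i : ℕ} (h : i < n) : pc n i = lc n i * ((n : ℝ) - i) := by
  unfold pc lc
  have h1 : ((n - i).factorial : ℝ) = ((n : ℝ) - i) * ((n - 1 - i).factorial : ℝ) := by
    have : n - i = (n - 1 - i) + 1 := by omega
    rw [this, Nat.factorial_succ]
    push_cast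
    have h2 : ((n - 1 - i : ℕ) : ℝ) = (n : ℝ) - 1 - i := by
      rw [Nat.sub_sub, Nat.cast_sub (by omega)]
      push_cast; ring
    rw [h2]; ring
  rw [h1]
  have h3 : ((n : ℝ) - i) ≠ 0 := by
    have : (i : ℝ) < n := by exact_mod_cast h
    linarith
  have h4 : ((n - 1 - i).factorial : ℝ) ≠ 0 := by positivity
  have h5 : (i.factorial : ℝ) ≠ 0 := by positivity
  field_simp

private lemma pc_high_A1 {n i : ℕ} (h : i < n + 1) : pc (n + 1) i = lc n i * ((n : ℝ) + 1 + i) := by
  unfold pc lc
  have h0 : n + 1 - 1 - i = n - i := by omega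
  have h1 : ((n + 1 + i).factorial : ℝ) = ((n : ℝ) + 1 + i) * ((n + i).factorial : ℝ) := by
    have : n + 1 + i = (n + i) + 1 := by omega
    rw [this, Nat.factorial_succ]
    push_cast; ring
  rw [h0, h1]
  ring

private lemma pp_low_A1 (n : ℕ) (s : ℝ) :
    pp n s = ∑ i ∈ range (n + 1), (lc n i * ((n : ℝ) - i)) * s ^ i := by
  rw [sum_range_succ]
  unfold pp
  rw [sub_self, mul_zero, zero_mul, add_zero]
  exact sum_congr rfl fun i hi => by rw [pc_low_A1 (mem_range.1 hi)]

private lemma pp_high_A1 (n : ℕ) (s : ℝ) :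
    pp (n + 1) s = ∑ i ∈ range (n + 1), (lc n i * ((n : ℝ) + 1 + i)) * s ^ i := by
  unfold pp
  exact sum_congr rfl fun i hi => by rw [pc_high_A1 (mem_range.1 hi)]

theorem hA1 : StA1 := by
  intro n s t
  induction n with
  | zero => simp [pp]
  | succ n ih =>
    rw [sum_range_succ, ← ih]
    simp_rw [pp_high_A1, pp_low_A1 n]
    rw [int_prod_A1, int_prod_A1]
    unfold LL
    have hR : (2 * (n : ℝ) + 1) * (∑ i ∈ range (n + 1), lc n i * s ^ i) *
        (∑ i ∈ range (n + 1), lc n i * t ^ i) =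
        ∑ i ∈ range (n + 1), ∑ k ∈ range (n + 1),
          (2 * (n : ℝ) + 1) * (lc n i * s ^ i) * (lc n k * t ^ k) := by
      rw [mul_assoc, sum_mul_sum, mul_sum]
      refine sum_congr rfl fun i _ => ?_
      rw [mul_sum]
      exact sum_congr rfl fun k _ => by ring
    rw [hR, ← sum_add_distrib]
    refine sum_congr rfl fun i _ => ?_
    rw [← sum_add_distrib]
    refine sum_congr rfl fun k _ => ?_
    have : ((i : ℝ) + k + 1) ≠ 0 := by positivity
    field_simp
    ring

end Helper69.CR
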