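import Pool.Agent.Helper69.CR.M_DC

/-!
# MP_3dd6d4_an, project CR: the doubling step and all `p ≥ 2` for `n = 1, 2`
-/

set_option autoImplicit false

noncomputable section

namespace Helper69.CR.DB

open MeasureTheory Set Filter Topology Complex
open Pool.Agent.Helper68.BA
open scoped ENNReal

/-- abbreviation -/
def Nm (p : ℝ) (v : ℝ → ℂ) : ℝ≥0∞ := eLpNorm v (ENNReal.ofReal p) mu

lemma Nm_mul {p : ℝ} (hp : 0 < p) {u v : ℝ → ℂ} (hu : Continuous u) (hv : Continuous v) :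
    Nm (p / 2) (fun y => u y * v y) ≤ Nm p u * Nm p v := by
  have ht : (ENNReal.ofReal p).HolderTriple (ENNReal.ofReal p) (ENNReal.ofReal (p / 2)) := by
    constructor
    rw [ENNReal.ofReal_div_of_pos (by norm_num), ENNReal.ofReal_ofNat,
      ENNReal.inv_div (Or.inl (by norm_num)) (Or.inl (by norm_num)), ENNReal.div_eq_inv_mul,
      mul_two]
  have h := eLpNorm_smul_le_mul_eLpNorm (p := ENNReal.ofReal p) (q := ENNReal.ofReal p)
    (r := ENNReal.ofReal (p / 2)) (μ := mu) (f := v) (φ := u) hv.aestronglyMeasurable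
    hu.aestronglyMeasurable
  exact h

lemma Nm_conj (p : ℝ) (v : ℝ → ℂ) : Nm p (fun y => (starRingEnd ℂ) (v y)) = Nm p v := by
  unfold Nm
  refine eLpNorm_congr_norm_ae (Eventually.of_forall fun y => ?_)
  exact Complex.norm_conj _

lemma Nm_sq {p : ℝ} (hp : 0 < p) (v : ℝ → ℂ) :
    Nm (p / 2) (fun y => v y * (starRingEnd ℂ) (v y)) = Nm p v ^ 2 := by
  unfold Nm
  have h1 : eLpNorm (fun y => v y * (starRingEnd ℂ) (v y)) (ENNReal.ofReal (p / 2)) mu =
      eLpNorm (fun y => ‖v y‖ ^ (2 : ℝ)) (ENNReal.ofReal (p / 2)) mu := by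
    refine eLpNorm_congr_norm_ae (Eventually.of_forall fun y => ?_)
    rw [norm_mul, Complex.norm_conj, Real.norm_eq_abs, Real.rpow_two, abs_pow, abs_norm, sq]
  rw [h1, eLpNorm_norm_rpow _ (by norm_num : (0 : ℝ) < 2), ← ENNReal.ofReal_mul (by positivity),
    div_mul_cancel₀ _ (by norm_num : (2 : ℝ) ≠ 0)]
  norm_num

lemma Nm_add {r : ℝ} (hr : 1 ≤ r) {u v : ℝ → ℂ} (hu : Continuous u) (hv : Continuous v) :
    Nm r (fun y => u y + v y) ≤ Nm r u + Nm r v := by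
  unfold Nm
  refine eLpNorm_add_le hu.aestronglyMeasurable hv.aestronglyMeasurable ?_
  rw [← ENNReal.ofReal_one]
  exact ENNReal.ofReal_le_ofReal hr

lemma Nm_cmul (r : ℝ) (c : ℝ) (hc : 0 ≤ c) (v : ℝ → ℂ) :
    Nm r (fun y => (c : ℂ) * v y) = ENNReal.ofReal c * Nm r v := by
  unfold Nm
  have h := eLpNorm_const_smul (c : ℂ) v (ENNReal.ofReal r) mu
  have e : ‖(c : ℂ)‖ₑ = ENNReal.ofReal c := by
    rw [← ofReal_norm, Complex.norm_real, Real.norm_eq_abs, abs_of_nonneg hc]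
  rw [e] at h
  exact h

lemma le_of_sq {K N : ℝ≥0∞} (h : K ^ 2 ≤ N ^ 2) : K ≤ N := by
  have h1 : K ^ (2 : ℝ) ≤ N ^ (2 : ℝ) := by
    rw [ENNReal.rpow_ofNat, ENNReal.rpow_ofNat]
    exact h
  exact (ENNReal.rpow_le_rpow_iff (by norm_num)).1 h1

lemma Bop1_conj (g : ℝ → ℂ) (y : ℝ) :
    Bop 1 (fun y => (starRingEnd ℂ) (g y)) y = (starRingEnd ℂ) (Bop 1 g y) := by
  rw [Bop1, Bop1, RR_conj, map_add, map_neg]

lemma Bop2_conj {g : ℝ → ℂ} (hg : NB g) (y : ℝ) :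
    Bop 2 (fun y => (starRingEnd ℂ) (g y)) y = (starRingEnd ℂ) (Bop 2 g y) := by
  rw [Bop2 hg.conj, Bop2 hg, RR_conj, RR_conj, map_sub, map_add, map_mul, map_mul, map_ofNat,
    map_ofNat]

lemma Cn1 (a : ℝ) : Cn 1 a = (1 - a) / a := by
  simp [Cn]

lemma Cn2 (a : ℝ) : Cn 2 a = (1 - a) / a * ((2 - a) / (1 + a)) := by
  simp only [Cn, Finset.prod_range_succ, Finset.prod_range_zero]
  norm_num

/-- `R_1 B_1 v = R_0 v - 2 R_1 v` -/
lemma RR1_Bop1 {v : ℝ → ℂ} (vc : Continuous v) (vs : HasCompactSupport v) (y : ℝ) :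
    RR 1 (Bop 1 v) y = RR 0 v y - 2 * RR 1 v y := by
  have hv := NB.of_cpt vc vs
  have h0 := NB_RR 0 vc vs
  have e : Bop 1 v = fun y => (-1) * v y + RR 0 v y := by
    funext y
    rw [Bop1]
    ring
  have hd : ∀ y, HasDerivAt (RR 0 v) ((-1) * v y) y := by
    intro y
    refine (RR_hasDerivAt 0 vc vs y).congr_deriv ?_
    push_cast
    ring
  have h1 := RR_deriv 1 h0 (hv.const_mul (-1)) hd y
  rw [e, RR_add 1 (hv.const_mul (-1)) h0, RR_mul]
  rw [RR_mul] at h1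
  push_cast at h1
  linear_combination (-1) * h1

lemma alg2 {c c' d ρ : ℝ} (hc : 0 ≤ c) (hc' : 0 ≤ c') (hd : 0 ≤ d) (hρ : 0 ≤ ρ) :
    ENNReal.ofReal (1 + 4 * (c * ρ) + c' * (6 * ρ ^ 2 + 4 * (ρ * d))) =
      1 + 4 * (ENNReal.ofReal c * ENNReal.ofReal ρ) + ENNReal.ofReal c' *
        (6 * ENNReal.ofReal ρ ^ 2 + 4 * (ENNReal.ofReal ρ * ENNReal.ofReal d)) := by
  rw [ENNReal.ofReal_add (by positivity) (by positivity),
    ENNReal.ofReal_add zero_le_one (by positivity),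
    ENNReal.ofReal_mul (by norm_num : (0 : ℝ) ≤ 4), ENNReal.ofReal_mul hc,
    ENNReal.ofReal_mul hc', ENNReal.ofReal_add (by positivity) (by positivity),
    ENNReal.ofReal_mul (by norm_num : (0 : ℝ) ≤ 6), ENNReal.ofReal_mul (by norm_num : (0 : ℝ) ≤ 4),
    ENNReal.ofReal_mul hρ, ENNReal.ofReal_pow hρ, ENNReal.ofReal_one, ENNReal.ofReal_ofNat,
    ENNReal.ofReal_ofNat]

theorem double1 {p : ℝ} (hp : 4 ≤ p) (h : OneD 1 (p / 2)) {g : ℝ → ℂ} (gc : Continuous g)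
    (gs : HasCompactSupport g) : Nm p (Bop 1 g) ≤ ENNReal.ofReal (Cn 1 (1 / p)) * Nm p g := by
  have hp0 : 0 < p := by linarith
  have hr1 : 1 ≤ p / 2 := by linarith
  set k : ℝ → ℂ := fun y => (starRingEnd ℂ) (g y) with hk
  have kc : Continuous k := Complex.continuous_conj.comp gc
  have ks : HasCompactSupport k := gs.comp_left (g := fun z : ℂ => (starRingEnd ℂ) z) (by simp)
  have ng := NB.of_cpt gc gs
  have nk := NB.of_cpt kc ks
  have n1 : NB (fun y => g y * RR 0 k y) := ng.mul (NB_RR 0 kc ks).1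
  have n2 : NB (fun y => k y * RR 0 g y) := nk.mul (NB_RR 0 gc gs).1
  have hR : ∀ {v : ℝ → ℂ}, NB v → Nm p (RR 0 v) ≤ ENNReal.ofReal p * Nm p v := by
    intro v hv
    have h1 := RR_bound 0 le_rfl (by linarith : 1 < p) hv
    rw [zero_add, one_div_one_div] at h1
    exact h1
  have hNk : Nm p k = Nm p g := Nm_conj p g
  refine le_of_sq ?_
  rw [← Nm_sq hp0]
  have e1 : (fun y => Bop 1 g y * (starRingEnd ℂ) (Bop 1 g y)) = fun y => g y * k y +
      Bop 1 (fun y => g y * RR 0 k y + k y * RR 0 g y) y := by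
    funext y
    rw [← Bop1_conj]
    exact cotlar1 gc gs kc ks y
  rw [e1]
  have hC1 : 0 ≤ Cn 1 (1 / (p / 2)) := Cn_nonneg 1 _ (by positivity) (by
    rw [div_le_one (by linarith)]; exact hr1)
  calc Nm (p / 2) (fun y => g y * k y + Bop 1 (fun y => g y * RR 0 k y + k y * RR 0 g y) y)
      ≤ Nm (p / 2) (fun y => g y * k y) +
          Nm (p / 2) (Bop 1 (fun y => g y * RR 0 k y + k y * RR 0 g y)) :=
        Nm_add hr1 (gc.mul kc) (NB_Bop1 (n1.add n2)).1
    _ ≤ Nm p g * Nm p k + ENNReal.ofReal (Cn 1 (1 / (p / 2))) *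
          (Nm p g * (ENNReal.ofReal p * Nm p k) + Nm p k * (ENNReal.ofReal p * Nm p g)) := by
        gcongr
        · exact Nm_mul hp0 gc kc
        · refine (OneD_bound h hr1 (n1.add n2)).trans ?_
          gcongr
          refine (Nm_add hr1 n1.1 n2.1).trans ?_
          gcongr
          · exact (Nm_mul hp0 gc (NB_RR 0 kc ks).1).trans (by gcongr; exact hR nk)
          · exact (Nm_mul hp0 kc (NB_RR 0 gc gs).1).trans (by gcongr; exact hR ng)
    _ = (1 + ENNReal.ofReal (Cn 1 (1 / (p / 2))) * (2 * ENNReal.ofReal p)) * Nm p g ^ 2 := by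
        rw [hNk]
        ring
    _ = (ENNReal.ofReal (Cn 1 (1 / p)) * Nm p g) ^ 2 := by
        rw [mul_pow]
        congr 1
        rw [← ENNReal.ofReal_one, ← ENNReal.ofReal_ofNat 2, ← ENNReal.ofReal_mul (by norm_num),
          ← ENNReal.ofReal_mul hC1, ← ENNReal.ofReal_add zero_le_one (by positivity),
          ← ENNReal.ofReal_pow (Cn_nonneg 1 _ (by positivity) (by
            rw [div_le_one hp0]; linarith))]
        congr 1
        rw [Cn1, Cn1]
        field_simp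
        ring

theorem double2 {p : ℝ} (hp : 4 ≤ p) (h1 : OneD 1 (p / 2)) (h2 : OneD 2 (p / 2))
    (h1p : OneD 1 p) {g : ℝ → ℂ} (gc : Continuous g)
    (gs : HasCompactSupport g) : Nm p (Bop 2 g) ≤ ENNReal.ofReal (Cn 2 (1 / p)) * Nm p g := by
  have hp0 : 0 < p := by linarith
  have hr1 : 1 ≤ p / 2 := by linarith
  set k : ℝ → ℂ := fun y => (starRingEnd ℂ) (g y) with hk
  have kc : Continuous k := Complex.continuous_conj.comp gc
  have ks : HasCompactSupport k := gs.comp_left (g := fun z : ℂ => (starRingEnd ℂ) z) (by simp)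
  have ng := NB.of_cpt gc gs
  have nk := NB.of_cpt kc ks
  have rg := NB_RR 1 gc gs
  have rk := NB_RR 1 kc ks
  have n1 : NB (fun y => g y * RR 1 k y) := ng.mul rk.1
  have n2 : NB (fun y => k y * RR 1 g y) := nk.mul rg.1
  set ρ : ℝ := 1 / (1 + 1 / p) with hρ
  have hρ0 : 0 ≤ ρ := by positivity
  have hR : ∀ {v : ℝ → ℂ}, NB v → Nm p (RR 1 v) ≤ ENNReal.ofReal ρ * Nm p v := by
    intro v hv
    exact RR_bound 1 zero_le_one (by linarith : 1 < p) hv
  have hNk : Nm p k = Nm p g := Nm_conj p g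
  have hCr1 : 0 ≤ Cn 1 (1 / (p / 2)) := Cn_nonneg 1 _ (by positivity) (by
    rw [div_le_one (by linarith)]; exact hr1)
  have hCr2 : 0 ≤ Cn 2 (1 / (p / 2)) := Cn_nonneg 2 _ (by positivity) (by
    rw [div_le_one (by linarith)]; exact hr1)
  have hCp1 : 0 ≤ Cn 1 (1 / p) := Cn_nonneg 1 _ (by positivity) (by
    rw [div_le_one hp0]; linarith)
  have hCp2 : 0 ≤ Cn 2 (1 / p) := Cn_nonneg 2 _ (by positivity) (by
    rw [div_le_one hp0]; linarith)
  -- `Q v = R_0 v - 2 R_1 v = R_1 B_1 v`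
  have hQ : ∀ {v : ℝ → ℂ}, Continuous v → HasCompactSupport v →
      NB (fun y => RR 0 v y - 2 * RR 1 v y) ∧ Nm p (fun y => RR 0 v y - 2 * RR 1 v y) ≤
        ENNReal.ofReal ρ * (ENNReal.ofReal (Cn 1 (1 / p)) * Nm p v) := by
    intro v vc vs
    have e : (fun y => RR 0 v y - 2 * RR 1 v y) = RR 1 (Bop 1 v) :=
      funext fun y => (RR1_Bop1 vc vs y).symm
    rw [e]
    have nb := NB_Bop1 (NB.of_cpt vc vs)
    refine ⟨NB_RR' 1 nb, (hR nb).trans ?_⟩
    gcongr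
    exact OneD_bound h1p (by linarith) (NB.of_cpt vc vs)
  obtain ⟨qg, qg'⟩ := hQ gc gs
  obtain ⟨qk, qk'⟩ := hQ kc ks
  rw [hNk] at qk'
  have m1 : NB (fun y => 6 * (RR 1 g y * RR 1 k y)) := (rg.mul rk.1).const_mul 6
  have m2 : NB (fun y => 2 * (g y * (RR 0 k y - 2 * RR 1 k y))) := (ng.mul qk.1).const_mul 2
  have m3 : NB (fun y => 2 * (k y * (RR 0 g y - 2 * RR 1 g y))) := (nk.mul qg.1).const_mul 2
  refine le_of_sq ?_
  rw [← Nm_sq hp0]
  have e1 : (fun y => Bop 2 g y * (starRingEnd ℂ) (Bop 2 g y)) = fun y =>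
      (g y * k y + ((2 : ℝ) : ℂ) * Bop 1 (fun y => g y * RR 1 k y + k y * RR 1 g y) y) +
      Bop 2 (fun y => 6 * (RR 1 g y * RR 1 k y) +
        (2 * (g y * (RR 0 k y - 2 * RR 1 k y)) + 2 * (k y * (RR 0 g y - 2 * RR 1 g y)))) y := by
    funext y
    rw [← Bop2_conj ng]
    have := cotlar2 gc gs kc ks y
    push_cast
    exact this
  rw [e1]
  set N : ℝ≥0∞ := Nm p g with hN
  set c1 : ℝ≥0∞ := ENNReal.ofReal (Cn 1 (1 / (p / 2))) with hc1
  set c2 : ℝ≥0∞ := ENNReal.ofReal (Cn 2 (1 / (p / 2))) with hc2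
  set d1 : ℝ≥0∞ := ENNReal.ofReal (Cn 1 (1 / p)) with hd1
  set R : ℝ≥0∞ := ENNReal.ofReal ρ with hRdef
  have b1 : Nm (p / 2) (Bop 1 (fun y => g y * RR 1 k y + k y * RR 1 g y)) ≤
      c1 * (N * (R * N) + N * (R * N)) := by
    refine (OneD_bound h1 hr1 (n1.add n2)).trans ?_
    gcongr
    refine (Nm_add hr1 n1.1 n2.1).trans ?_
    gcongr
    · refine (Nm_mul hp0 gc rk.1).trans ?_
      gcongr
      exact (hR nk).trans (le_of_eq (by rw [hNk]))
    · refine (Nm_mul hp0 kc rg.1).trans ?_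
      rw [hNk]
      gcongr
      exact hR ng
  have b2 : Nm (p / 2) (Bop 2 (fun y => 6 * (RR 1 g y * RR 1 k y) +
      (2 * (g y * (RR 0 k y - 2 * RR 1 k y)) + 2 * (k y * (RR 0 g y - 2 * RR 1 g y))))) ≤
      c2 * (6 * ((R * N) * (R * N)) + (2 * (N * (R * (d1 * N))) + 2 * (N * (R * (d1 * N))))) := by
    refine (OneD_bound h2 hr1 (m1.add (m2.add m3))).trans ?_
    gcongr
    refine (Nm_add hr1 m1.1 (m2.add m3).1).trans ?_
    gcongr
    · have h6 := Nm_cmul (p / 2) 6 (by norm_num) (fun y => RR 1 g y * RR 1 k y)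
      push_cast at h6
      rw [h6, ENNReal.ofReal_ofNat]
      gcongr
      refine (Nm_mul hp0 rg.1 rk.1).trans ?_
      gcongr
      · exact hR ng
      · exact (hR nk).trans (le_of_eq (by rw [hNk]))
    · refine (Nm_add hr1 m2.1 m3.1).trans ?_
      gcongr
      · have h6 := Nm_cmul (p / 2) 2 (by norm_num) (fun y => g y * (RR 0 k y - 2 * RR 1 k y))
        push_cast at h6
        rw [h6, ENNReal.ofReal_ofNat]
        gcongr
        refine (Nm_mul hp0 gc qk.1).trans ?_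
        gcongr
      · have h6 := Nm_cmul (p / 2) 2 (by norm_num) (fun y => k y * (RR 0 g y - 2 * RR 1 g y))
        push_cast at h6
        rw [h6, ENNReal.ofReal_ofNat]
        gcongr
        refine (Nm_mul hp0 kc qg.1).trans ?_
        rw [hNk]
        gcongr
  have nB1 := (NB_Bop1 (n1.add n2)).1
  have nB2 := (NB_Bop2 (m1.add (m2.add m3))).1
  generalize Bop 1 (fun y => g y * RR 1 k y + k y * RR 1 g y) = V1 at b1 nB1 ⊢
  generalize Bop 2 (fun y => 6 * (RR 1 g y * RR 1 k y) +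
      (2 * (g y * (RR 0 k y - 2 * RR 1 k y)) + 2 * (k y * (RR 0 g y - 2 * RR 1 g y)))) = V2
      at b2 nB2 ⊢
  have cV : Continuous (fun y => ((2 : ℝ) : ℂ) * V1 y) := continuous_const.mul nB1
  have t1 : Nm (p / 2) (fun y => (g y * k y + ((2 : ℝ) : ℂ) * V1 y) + V2 y) ≤
      Nm (p / 2) (fun y => g y * k y + ((2 : ℝ) : ℂ) * V1 y) + Nm (p / 2) V2 :=
    Nm_add hr1 ((gc.mul kc).add cV) nB2
  have t2 : Nm (p / 2) (fun y => g y * k y + ((2 : ℝ) : ℂ) * V1 y) ≤
      Nm (p / 2) (fun y => g y * k y) + Nm (p / 2) (fun y => ((2 : ℝ) : ℂ) * V1 y) :=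
    Nm_add hr1 (gc.mul kc) cV
  have t3 : Nm (p / 2) (fun y => ((2 : ℝ) : ℂ) * V1 y) = 2 * Nm (p / 2) V1 := by
    rw [Nm_cmul (p / 2) 2 (by norm_num) V1, ENNReal.ofReal_ofNat]
  have t4 : Nm (p / 2) (fun y => g y * k y) ≤ N * N :=
    (Nm_mul hp0 gc kc).trans (le_of_eq (by rw [hNk]))
  calc Nm (p / 2) (fun y => (g y * k y + ((2 : ℝ) : ℂ) * V1 y) + V2 y)
      ≤ (Nm (p / 2) (fun y => g y * k y) + 2 * Nm (p / 2) V1) + Nm (p / 2) V2 := by
        rw [← t3]
        exact t1.trans (add_le_add_left t2 _)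
    _ ≤ (N * N + 2 * (c1 * (N * (R * N) + N * (R * N)))) +
        c2 * (6 * ((R * N) * (R * N)) +
          (2 * (N * (R * (d1 * N))) + 2 * (N * (R * (d1 * N))))) :=
        add_le_add (add_le_add t4 (mul_le_mul_right b1 _)) b2
    _ = (1 + 4 * (c1 * R) + c2 * (6 * R ^ 2 + 4 * (R * d1))) * N ^ 2 := by ring
    _ = (ENNReal.ofReal (Cn 2 (1 / p)) * N) ^ 2 := by
        rw [mul_pow]
        congr 1
        rw [hc1, hc2, hd1, hRdef, ← alg2 hCr1 hCr2 hCp1 hρ0, ← ENNReal.ofReal_pow hCp2]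
        congr 1
        rw [Cn1, Cn1, Cn2, Cn2, hρ]
        have h5 : 1 + p ≠ 0 := by linarith
        have h6 : 2 + p ≠ 0 := by linarith
        have h7 : p ≠ 0 := hp0.ne'
        have h8 : 1 + 1 / p ≠ 0 := by positivity
        have h9 : 1 + 1 / (p / 2) ≠ 0 := by positivity
        field_simp
        ring

/-- sharp bound for `n = 1, 2` and all `p ≥ 2` -/
theorem all_p (hEN : StEN) (hIS : StIS2) (p : ℝ) (hp : 2 ≤ p) : OneD 1 p ∧ OneD 2 p := by
  have key : ∀ j : ℕ, ∀ p : ℝ, 2 ≤ p → p ≤ 4 * 2 ^ j → OneD 1 p ∧ OneD 2 p := by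
    intro j
    induction j with
    | zero =>
      intro p hp hp4
      rw [pow_zero, mul_one] at hp4
      exact ⟨fun f hf hi => hEN 1 p f le_rfl hp hp4 hf hi,
        fun f hf hi => hEN 2 p f (by norm_num) hp hp4 hf hi⟩
    | succ j ih =>
      intro p hp hpj
      rcases le_total p 4 with h4 | h4
      · exact ⟨fun f hf hi => hEN 1 p f le_rfl hp h4 hf hi,
          fun f hf hi => hEN 2 p f (by norm_num) hp h4 hf hi⟩
      · obtain ⟨h1, h2⟩ := ih (p / 2) (by linarith) (by rw [pow_succ] at hpj; linarith)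
        have h1p : OneD 1 p := OneD_of_cpt hIS 1 p (by linarith) fun f hf hs => double1 h4 h1 hf hs
        exact ⟨h1p, OneD_of_cpt hIS 2 p (by linarith) fun f hf hs => double2 h4 h1 h2 h1p hf hs⟩
  obtain ⟨j, hj⟩ := pow_unbounded_of_one_lt (p / 4) (by norm_num : (1 : ℝ) < 2)
  exact key j p hp (by linarith)

end Helper69.CR.DB
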