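import Pool.Agent.Helper35.QP.Top
import Pool.Agent.Helper69.CR.M_A1
import Pool.Agent.Helper69.CR.M_A2
import Pool.Agent.Helper69.CR.M_A3
import Pool.Agent.Helper69.CR.M_AV
import Pool.Agent.Helper69.CR.M_DD
import Pool.Agent.Helper69.CR.M_IS2
import Pool.Agent.Helper69.CR.M_KD
import Pool.Agent.Helper69.CR.M_KP
import Pool.Agent.Helper69.CR.M_KR
import Pool.Agent.Helper69.CR.M_LY
import Pool.Agent.Helper69.CR.M_NU
import Pool.Agent.Helper69.CR.M_PF
import Pool.Agent.Helper69.CR.M_PR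
import Pool.Agent.Helper69.CR.M_PZ
import Pool.Agent.Helper69.CR.M_SC
import Pool.Agent.Helper69.CR.M_ST
import Pool.Agent.Helper69.CR.M_T4
import Pool.Agent.Helper69.CR.M_TS
import Pool.Agent.Helper69.CR.M_WA

/-!
# MP_3dd6d4_an, project CR: the sharp estimate on the critical mode, closed form
-/

set_option autoImplicit false

noncomputable section

namespace Helper69.CR

theorem hEN' : StEN :=
  hEN (hST (hT4 (hA3 Pool.Agent.Helper35.QP.hQ hA1 (hA2 hKR)) (hKP hPF) (hAV hPR) hKD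
    (hTS hLY (hIS2 hKR) (hKP hPF)) (hSC hPF) hWA) hPZ (hIS2 hKR) hWA hPF) (hIS2 hKR)

/-- the one-dimensional estimate with the sharp constant: `2 ≤ p ≤ 4`, or `n ≤ 2` and `p ≥ 2` -/
theorem oneD_sharp (n : ℕ) (hn : 1 ≤ n) (p : ℝ) (hp : 2 ≤ p) (h : p ≤ 4 ∨ n ≤ 2) : OneD n p := by
  rcases h with h | h
  · exact fun f hf hi => hEN' n p f hn hp h hf hi
  · obtain ⟨h1, h2⟩ := DB.all_p hEN' (hIS2 hKR) p hp
    interval_cases n
    · exact h1
    · exact h2

/-- the sharp estimate for `T^n` (frozen form) on Schwartz functions of mode `2n` -/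
theorem crit_sharp (n : ℕ) (hn : 1 ≤ n) (p : ℝ) (hp : 2 ≤ p) (h : p ≤ 4 ∨ n ≤ 2)
    (f : SchwartzMap ℂ ℂ)
    (hf : ∀ (θ : ℝ) (z : ℂ),
      f (Complex.exp (θ * Complex.I) * z) = Complex.exp (((2 * n : ℕ) : ℂ) * θ * Complex.I) * f z) :
    MeasureTheory.eLpNorm
        (fun z : ℂ => ∫ ξ : ℂ,
          Complex.exp (2 * (Real.pi : ℂ) * Complex.I * ((z.re * ξ.re + z.im * ξ.im : ℝ) : ℂ)) *
            ((starRingEnd ℂ ξ / ξ) ^ n *
              ∫ w : ℂ, Complex.exp (-(2 * (Real.pi : ℂ) * Complex.I *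
                ((w.re * ξ.re + w.im * ξ.im : ℝ) : ℂ))) * f w))
        (ENNReal.ofReal p) MeasureTheory.volume
      ≤ ENNReal.ofReal (Cn n (1 / p)) *
        MeasureTheory.eLpNorm (fun z : ℂ => f z) (ENNReal.ofReal p) MeasureTheory.volume :=
  crit_mode hKR n hn p hp (oneD_sharp n hn p hp h) f hf

end Helper69.CR
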