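import Pool.Agent.Helper69.CR.M_FI
import Pool.Agent.Helper69.CR.M_EN
import Pool.Agent.Helper22.BAM.IS

/-!
# MP_3dd6d4_an, project CR: the doubling `p/2 → p` for `n = 1, 2` on the critical mode
(helper62's positive identity)
-/

set_option autoImplicit false

noncomputable section

namespace Helper69.CR.DB

open MeasureTheory Set Filter Topology Complex
open Pool.Agent.Helper68.BA
open scoped ENNReal

/-- continuous, vanishing for large `y` -/
def NB (v : ℝ → ℂ) : Prop := Continuous v ∧ ∃ M : ℝ, ∀ y, M ≤ y → v y = 0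

lemma NB.add {u v : ℝ → ℂ} (hu : NB u) (hv : NB v) : NB (fun y => u y + v y) := by
  obtain ⟨c1, M1, h1⟩ := hu
  obtain ⟨c2, M2, h2⟩ := hv
  refine ⟨c1.add c2, max M1 M2, fun y hy => ?_⟩
  beta_reduce
  rw [h1 y (le_trans (le_max_left _ _) hy), h2 y (le_trans (le_max_right _ _) hy), add_zero]

lemma NB.mul {u v : ℝ → ℂ} (hu : NB u) (hv : Continuous v) : NB (fun y => u y * v y) := by
  obtain ⟨c1, M1, h1⟩ := hu
  exact ⟨c1.mul hv, M1, fun y hy => by beta_reduce; rw [h1 y hy, zero_mul]⟩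

lemma NB.const_mul {v : ℝ → ℂ} (c : ℂ) (hv : NB v) : NB (fun y => c * v y) := by
  obtain ⟨c1, M1, h1⟩ := hv
  exact ⟨continuous_const.mul c1, M1, fun y hy => by beta_reduce; rw [h1 y hy, mul_zero]⟩

lemma NB.neg {v : ℝ → ℂ} (hv : NB v) : NB (fun y => -v y) := by
  obtain ⟨c1, M1, h1⟩ := hv
  exact ⟨c1.neg, M1, fun y hy => by beta_reduce; rw [h1 y hy, neg_zero]⟩

lemma NB.conj {v : ℝ → ℂ} (hv : NB v) : NB (fun y => (starRingEnd ℂ) (v y)) := by
  obtain ⟨c1, M1, h1⟩ := hv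
  exact ⟨Complex.continuous_conj.comp c1, M1, fun y hy => by beta_reduce; rw [h1 y hy, map_zero]⟩

lemma NB.of_cpt {v : ℝ → ℂ} (hc : Continuous v) (hs : HasCompactSupport v) : NB v := by
  obtain ⟨M, hM⟩ := hs.isCompact.isBounded.subset_closedBall 0
  refine ⟨hc, M + 1, fun y hy => ?_⟩
  by_contra h
  have h1 : y ∈ tsupport v := subset_tsupport v h
  have h2 := hM h1
  rw [mem_closedBall_zero_iff, Real.norm_eq_abs] at h2
  have := le_abs_self y
  linarith

/-- `∫_0^∞ e^{-βu} v(y+u) du` -/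
def RR (β : ℝ) (v : ℝ → ℂ) (y : ℝ) : ℂ :=
  ∫ u in Ioi (0 : ℝ), (Real.exp (-β * u) : ℂ) * v (y + u)

lemma int_NB (β : ℝ) {v : ℝ → ℂ} (hv : NB v) (y : ℝ) :
    IntegrableOn (fun u : ℝ => (Real.exp (-β * u) : ℂ) * v (y + u)) (Ioi 0) := by
  obtain ⟨c, M, h⟩ := hv
  have hc : Continuous (fun u : ℝ => (Real.exp (-β * u) : ℂ) * v (y + u)) := by
    have : Continuous fun u : ℝ => (Real.exp (-β * u) : ℂ) :=
      Complex.continuous_ofReal.comp (by fun_prop)
    exact this.mul (c.comp (by fun_prop))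
  have h1 : IntegrableOn (fun u : ℝ => (Real.exp (-β * u) : ℂ) * v (y + u))
      (Ioc 0 (max 0 (M - y))) := (hc.integrableOn_Icc).mono_set Ioc_subset_Icc_self
  have h2 : IntegrableOn (fun u : ℝ => (Real.exp (-β * u) : ℂ) * v (y + u))
      (Ioi (max 0 (M - y))) := by
    refine (integrableOn_zero (μ := volume) (s := Ioi (max 0 (M - y)))).congr_fun (fun u hu => ?_)
      measurableSet_Ioi
    have hu' : max 0 (M - y) < u := hu
    have h3 : M ≤ y + u := by
      have := le_max_right 0 (M - y)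
      linarith
    rw [h _ h3, mul_zero]
  have h3 := h1.union h2
  rwa [Ioc_union_Ioi_eq_Ioi (le_max_left _ _)] at h3

lemma RR_add (β : ℝ) {u v : ℝ → ℂ} (hu : NB u) (hv : NB v) (y : ℝ) :
    RR β (fun y => u y + v y) y = RR β u y + RR β v y := by
  unfold RR
  rw [← integral_add (int_NB β hu y) (int_NB β hv y)]
  congr 1
  funext t
  ring

lemma RR_mul (β : ℝ) (c : ℂ) (v : ℝ → ℂ) (y : ℝ) :
    RR β (fun y => c * v y) y = c * RR β v y := by
  unfold RR
  rw [← integral_const_mul]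
  congr 1
  funext t
  ring

lemma RR_conj (β : ℝ) (v : ℝ → ℂ) (y : ℝ) :
    RR β (fun y => (starRingEnd ℂ) (v y)) y = (starRingEnd ℂ) (RR β v y) := by
  unfold RR
  rw [← integral_conj]
  congr 1
  funext t
  rw [map_mul, Complex.conj_ofReal]

/-- the formula `R_β (F') = -F + β R_β F` -/
lemma RR_deriv (β : ℝ) {F F' : ℝ → ℂ} (hF : NB F) (hF' : NB F') (hd : ∀ y, HasDerivAt F (F' y) y)
    (y : ℝ) : RR β F' y = -F y + β * RR β F y := by
  have h1 : ∀ u : ℝ, HasDerivAt (fun u : ℝ => (Real.exp (-β * u) : ℂ) * F (y + u))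
      ((Real.exp (-β * u) : ℂ) * F' (y + u) - β * ((Real.exp (-β * u) : ℂ) * F (y + u))) u := by
    intro u
    have e1 : HasDerivAt (fun u : ℝ => Real.exp (-β * u)) (Real.exp (-β * u) * (-β * 1)) u :=
      ((hasDerivAt_id u).const_mul (-β)).exp
    have e2 := e1.ofReal_comp
    have e3 : HasDerivAt (fun u : ℝ => F (y + u)) (F' (y + u)) u :=
      (hd (y + u)).comp_const_add y u
    have e4 := e2.mul e3
    refine e4.congr_deriv ?_
    push_cast
    ring
  have hi := int_NB β hF y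
  have hi' := int_NB β hF' y
  have h2 : Tendsto (fun u : ℝ => (Real.exp (-β * u) : ℂ) * F (y + u)) atTop (𝓝 0) := by
    obtain ⟨c, M, h⟩ := hF
    refine tendsto_const_nhds.congr' ?_
    filter_upwards [eventually_ge_atTop (M - y)] with u hu
    rw [h _ (by linarith), mul_zero]
  have h3 := integral_Ioi_of_hasDerivAt_of_tendsto' (a := 0) (fun u _ => h1 u)
    (hi'.sub (hi.const_mul (β : ℂ))) h2
  rw [integral_sub hi' (hi.const_mul (β : ℂ)), integral_const_mul] at h3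
  have h4 : RR β F' y - β * RR β F y = 0 - F y := by
    unfold RR
    rw [h3]
    simp
  linear_combination h4

lemma EE_eq_RR (β : ℝ) (v : ℝ → ℂ) (y : ℝ) : IS.EE β v y = RR β v y := rfl

lemma RR_hasDerivAt (β : ℝ) {v : ℝ → ℂ} (hc : Continuous v) (hs : HasCompactSupport v) (y : ℝ) :
    HasDerivAt (RR β v) (β * RR β v y - v y) y := IS.EE_hasDerivAt β hc hs y

lemma NB_RR (β : ℝ) {v : ℝ → ℂ} (hc : Continuous v) (hs : HasCompactSupport v) : NB (RR β v) := by
  obtain ⟨-, M, h⟩ := NB.of_cpt hc hs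
  refine ⟨continuous_iff_continuousAt.2 fun y => (RR_hasDerivAt β hc hs y).continuousAt, M,
    fun y hy => ?_⟩
  unfold RR
  rw [setIntegral_congr_fun (g := fun _ => (0 : ℂ)) measurableSet_Ioi]
  · simp
  · intro u hu
    have hu' : (0 : ℝ) < u := hu
    simp only
    rw [h _ (by linarith), mul_zero]

lemma Bop1 {v : ℝ → ℂ} (y : ℝ) : Bop 1 v y = -v y + RR 0 v y := by
  unfold Bop RR
  rw [pow_one, neg_one_mul]
  congr 2
  funext u
  simp [pp, pc]

lemma Bop2 {v : ℝ → ℂ} (hv : NB v) (y : ℝ) : Bop 2 v y = v y + 2 * RR 0 v y - 6 * RR 1 v y := by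
  have h1 := (int_NB 0 hv y).const_mul (2 : ℂ)
  have h2 := (int_NB 1 hv y).const_mul (6 : ℂ)
  unfold Bop RR
  rw [← integral_const_mul, ← integral_const_mul, add_sub_assoc, ← integral_sub h1 h2]
  norm_num
  congr 1
  funext u
  have : pp 2 (Real.exp (-u)) = 2 - 6 * Real.exp (-u) := by
    simp [pp, pc, Finset.sum_range_succ, Nat.factorial]
    ring
  rw [this]
  push_cast
  ring

section ident

variable {g h : ℝ → ℂ} (gc : Continuous g) (gs : HasCompactSupport g) (hc : Continuous h)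
  (hs : HasCompactSupport h)

include gc gs hc hs

/-- `R_0(g H_0 + h G_0) = G_0 H_0` -/
lemma id0 (y : ℝ) : RR 0 (fun y => g y * RR 0 h y + h y * RR 0 g y) y = RR 0 g y * RR 0 h y := by
  have hd : ∀ y, HasDerivAt (fun y => RR 0 g y * RR 0 h y)
      (-(g y * RR 0 h y + h y * RR 0 g y)) y := by
    intro y
    refine ((RR_hasDerivAt 0 gc gs y).mul (RR_hasDerivAt 0 hc hs y)).congr_deriv ?_
    push_cast
    ring
  have n1 : NB (fun y => g y * RR 0 h y + h y * RR 0 g y) :=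
    ((NB.of_cpt gc gs).mul (NB_RR 0 hc hs).1).add ((NB.of_cpt hc hs).mul (NB_RR 0 gc gs).1)
  have n2 : NB (fun y => RR 0 g y * RR 0 h y) := (NB_RR 0 gc gs).mul (NB_RR 0 hc hs).1
  have h1 := RR_deriv 0 n2 n1.neg hd y
  have h2 := RR_mul 0 (-1) (fun y => g y * RR 0 h y + h y * RR 0 g y) y
  simp only [neg_one_mul] at h2
  rw [h2] at h1
  push_cast at h1
  linear_combination -h1

/-- `R_0(g H_1 + h G_1) = 2 R_0(G_1 H_1) + G_1 H_1` -/
lemma id1 (y : ℝ) : RR 0 (fun y => g y * RR 1 h y + h y * RR 1 g y) y =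
    2 * RR 0 (fun y => RR 1 g y * RR 1 h y) y + RR 1 g y * RR 1 h y := by
  have hd : ∀ y, HasDerivAt (fun y => RR 1 g y * RR 1 h y)
      (2 * (RR 1 g y * RR 1 h y) + (-1) * (g y * RR 1 h y + h y * RR 1 g y)) y := by
    intro y
    refine ((RR_hasDerivAt 1 gc gs y).mul (RR_hasDerivAt 1 hc hs y)).congr_deriv ?_
    push_cast
    ring
  have n1 : NB (fun y => g y * RR 1 h y + h y * RR 1 g y) :=
    ((NB.of_cpt gc gs).mul (NB_RR 1 hc hs).1).add ((NB.of_cpt hc hs).mul (NB_RR 1 gc gs).1)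
  have n2 : NB (fun y => RR 1 g y * RR 1 h y) := (NB_RR 1 gc gs).mul (NB_RR 1 hc hs).1
  have h1 := RR_deriv 0 n2 ((n2.const_mul 2).add (n1.const_mul (-1))) hd y
  rw [RR_add 0 (n2.const_mul 2) (n1.const_mul (-1)), RR_mul, RR_mul] at h1
  push_cast at h1
  linear_combination -h1

/-- `R_1(g H_1 + h G_1) = R_1(G_1 H_1) + G_1 H_1` -/
lemma id2 (y : ℝ) : RR 1 (fun y => g y * RR 1 h y + h y * RR 1 g y) y =
    RR 1 (fun y => RR 1 g y * RR 1 h y) y + RR 1 g y * RR 1 h y := by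
  have hd : ∀ y, HasDerivAt (fun y => RR 1 g y * RR 1 h y)
      (2 * (RR 1 g y * RR 1 h y) + (-1) * (g y * RR 1 h y + h y * RR 1 g y)) y := by
    intro y
    refine ((RR_hasDerivAt 1 gc gs y).mul (RR_hasDerivAt 1 hc hs y)).congr_deriv ?_
    push_cast
    ring
  have n1 : NB (fun y => g y * RR 1 h y + h y * RR 1 g y) :=
    ((NB.of_cpt gc gs).mul (NB_RR 1 hc hs).1).add ((NB.of_cpt hc hs).mul (NB_RR 1 gc gs).1)
  have n2 : NB (fun y => RR 1 g y * RR 1 h y) := (NB_RR 1 gc gs).mul (NB_RR 1 hc hs).1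
  have h1 := RR_deriv 1 n2 ((n2.const_mul 2).add (n1.const_mul (-1))) hd y
  rw [RR_add 1 (n2.const_mul 2) (n1.const_mul (-1)), RR_mul, RR_mul] at h1
  push_cast at h1
  linear_combination -h1

/-- `R_1(g H_1 + h G_0) = G_0 H_1` -/
lemma id3 (y : ℝ) : RR 1 (fun y => g y * RR 1 h y + h y * RR 0 g y) y = RR 0 g y * RR 1 h y := by
  have hd : ∀ y, HasDerivAt (fun y => RR 0 g y * RR 1 h y)
      (RR 0 g y * RR 1 h y + (-1) * (g y * RR 1 h y + h y * RR 0 g y)) y := by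
    intro y
    refine ((RR_hasDerivAt 0 gc gs y).mul (RR_hasDerivAt 1 hc hs y)).congr_deriv ?_
    push_cast
    ring
  have n1 : NB (fun y => g y * RR 1 h y + h y * RR 0 g y) :=
    ((NB.of_cpt gc gs).mul (NB_RR 1 hc hs).1).add ((NB.of_cpt hc hs).mul (NB_RR 0 gc gs).1)
  have n2 : NB (fun y => RR 0 g y * RR 1 h y) := (NB_RR 0 gc gs).mul (NB_RR 1 hc hs).1
  have h1 := RR_deriv 1 n2 (n2.add (n1.const_mul (-1))) hd y
  rw [RR_add 1 n2 (n1.const_mul (-1)), RR_mul] at h1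
  push_cast at h1
  linear_combination -h1

/-- the Cotlar identity for `n = 1` -/
lemma cotlar1 (y : ℝ) : Bop 1 g y * Bop 1 h y =
    g y * h y + Bop 1 (fun y => g y * RR 0 h y + h y * RR 0 g y) y := by
  rw [Bop1, Bop1, Bop1, id0 gc gs hc hs]
  ring

/-- helper62's identity for `n = 2` -/
lemma cotlar2 (y : ℝ) : Bop 2 g y * Bop 2 h y =
    g y * h y + 2 * Bop 1 (fun y => g y * RR 1 h y + h y * RR 1 g y) y +
      Bop 2 (fun y => 6 * (RR 1 g y * RR 1 h y) +
        (2 * (g y * (RR 0 h y - 2 * RR 1 h y)) + 2 * (h y * (RR 0 g y - 2 * RR 1 g y)))) y := by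
  have n11 : NB (fun y => g y * RR 1 h y) := (NB.of_cpt gc gs).mul (NB_RR 1 hc hs).1
  have n12 : NB (fun y => h y * RR 1 g y) := (NB.of_cpt hc hs).mul (NB_RR 1 gc gs).1
  have n01 : NB (fun y => g y * RR 0 h y) := (NB.of_cpt gc gs).mul (NB_RR 0 hc hs).1
  have n02 : NB (fun y => h y * RR 0 g y) := (NB.of_cpt hc hs).mul (NB_RR 0 gc gs).1
  have n2 : NB (fun y => RR 1 g y * RR 1 h y) := (NB_RR 1 gc gs).mul (NB_RR 1 hc hs).1
  have a1 : NB (fun y => g y * RR 1 h y + h y * RR 1 g y) := n11.add n12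
  have a0 : NB (fun y => g y * RR 0 h y + h y * RR 0 g y) := n01.add n02
  have ew : (fun y => 6 * (RR 1 g y * RR 1 h y) +
        (2 * (g y * (RR 0 h y - 2 * RR 1 h y)) + 2 * (h y * (RR 0 g y - 2 * RR 1 g y)))) =
      fun y => 6 * (RR 1 g y * RR 1 h y) + (2 * (g y * RR 0 h y + h y * RR 0 g y) +
        (-4) * (g y * RR 1 h y + h y * RR 1 g y)) := by
    funext y
    ring
  have hw : NB (fun y => 6 * (RR 1 g y * RR 1 h y) + (2 * (g y * RR 0 h y + h y * RR 0 g y) +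
        (-4) * (g y * RR 1 h y + h y * RR 1 g y))) :=
    (n2.const_mul 6).add ((a0.const_mul 2).add (a1.const_mul (-4)))
  have e0 : ∀ β : ℝ, RR β (fun y => 6 * (RR 1 g y * RR 1 h y) +
      (2 * (g y * RR 0 h y + h y * RR 0 g y) + (-4) * (g y * RR 1 h y + h y * RR 1 g y))) y =
      6 * RR β (fun y => RR 1 g y * RR 1 h y) y +
        (2 * RR β (fun y => g y * RR 0 h y + h y * RR 0 g y) y +
          (-4) * RR β (fun y => g y * RR 1 h y + h y * RR 1 g y) y) := by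
    intro β
    rw [RR_add β (n2.const_mul 6) ((a0.const_mul 2).add (a1.const_mul (-4))),
      RR_add β (a0.const_mul 2) (a1.const_mul (-4)), RR_mul, RR_mul, RR_mul]
  have e1 : RR 1 (fun y => g y * RR 0 h y + h y * RR 0 g y) y +
      RR 1 (fun y => g y * RR 1 h y + h y * RR 1 g y) y =
      RR 0 g y * RR 1 h y + RR 0 h y * RR 1 g y := by
    rw [← id3 gc gs hc hs, ← id3 hc hs gc gs, ← RR_add 1 a0 a1, ← RR_add 1 (n11.add n02)
      (n12.add n01)]
    congr 1
    funext y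
    ring
  rw [ew, Bop2 hw, Bop2 (NB.of_cpt gc gs), Bop2 (NB.of_cpt hc hs), Bop1, e0, e0,
    id0 gc gs hc hs, id1 gc gs hc hs]
  have e2 := id2 gc gs hc hs y
  linear_combination 12 * e1 - 36 * e2

end ident

end Helper69.CR.DB
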