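import Pool.Agent.Helper69.CR.M_DB

/-!
# MP_3dd6d4_an, project CR: all `p ≥ 2` for `n = 1, 2` on the critical mode
-/

set_option autoImplicit false

noncomputable section

namespace Helper69.CR.DB

open MeasureTheory Set Filter Topology Complex
open Pool.Agent.Helper68.BA
open scoped ENNReal

/-! ### continuity for functions vanishing for large `y` -/

lemma RR_hasDerivAt_NB (β : ℝ) {v : ℝ → ℂ} (hv : NB v) (y : ℝ) :
    HasDerivAt (RR β v) (β * RR β v y - v y) y := by
  obtain ⟨c, M, h⟩ := hv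
  set χ : ℝ → ℝ := fun x => max 0 (min 1 (x - (y - 1) + 1)) with hχ
  set w : ℝ → ℂ := fun x => (χ x : ℂ) * v x with hw
  have hχc : Continuous χ := by fun_prop
  have hwc : Continuous w := (Complex.continuous_ofReal.comp hχc).mul c
  have hχ1 : ∀ x, y - 1 ≤ x → χ x = 1 := by
    intro x hx
    simp only [hχ]
    rw [min_eq_left (by linarith), max_eq_right zero_le_one]
  have hχ0 : ∀ x, x ≤ y - 2 → χ x = 0 := by
    intro x hx
    simp only [hχ]
    exact max_eq_left ((min_le_right _ _).trans (by linarith))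
  have hws : HasCompactSupport w := by
    refine HasCompactSupport.intro (isCompact_Icc (a := y - 2) (b := M)) fun x hx => ?_
    simp only [hw]
    by_cases h1 : x ≤ y - 2
    · rw [hχ0 x h1]; simp
    · have h2 : M ≤ x := by
        by_contra h3
        exact hx ⟨by linarith, by linarith⟩
      rw [h x h2, mul_zero]
  have heq : ∀ x, y - 1 ≤ x → RR β v x = RR β w x := by
    intro x hx
    unfold RR
    refine setIntegral_congr_fun measurableSet_Ioi fun u hu => ?_
    have hu' : (0 : ℝ) < u := hu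
    simp only [hw]
    rw [hχ1 (x + u) (by linarith), Complex.ofReal_one, one_mul]
  have h1 := RR_hasDerivAt β hwc hws y
  rw [← heq y (by linarith), show w y = v y by simp only [hw]; rw [hχ1 y (by linarith)]; simp] at h1
  refine h1.congr_of_eventuallyEq ?_
  filter_upwards [eventually_ge_nhds (show y - 1 < y by linarith)] with x hx
  exact heq x hx

lemma NB_RR' (β : ℝ) {v : ℝ → ℂ} (hv : NB v) : NB (RR β v) := by
  obtain ⟨c, M, h⟩ := id hv
  refine ⟨continuous_iff_continuousAt.2 fun y => (RR_hasDerivAt_NB β hv y).continuousAt, M,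
    fun y hy => ?_⟩
  unfold RR
  rw [setIntegral_congr_fun (g := fun _ => (0 : ℂ)) measurableSet_Ioi]
  · simp
  · intro u hu
    have hu' : (0 : ℝ) < u := hu
    simp only
    rw [h _ (by linarith), mul_zero]

lemma NB_Bop1 {v : ℝ → ℂ} (hv : NB v) : NB (Bop 1 v) := by
  have : Bop 1 v = fun y => -v y + RR 0 v y := funext fun y => Bop1 y
  rw [this]
  exact hv.neg.add (NB_RR' 0 hv)

lemma NB_Bop2 {v : ℝ → ℂ} (hv : NB v) : NB (Bop 2 v) := by
  have : Bop 2 v = fun y => v y + (2 * RR 0 v y + (-6) * RR 1 v y) := by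
    funext y
    rw [Bop2 hv]
    ring
  rw [this]
  exact hv.add (((NB_RR' 0 hv).const_mul 2).add ((NB_RR' 1 hv).const_mul (-6)))

/-! ### the measure `e^y dy` -/

/-- `e^y dy` -/
def mu : Measure ℝ := volume.withDensity (fun y => ENNReal.ofReal (Real.exp y))

lemma lint_mu (F : ℝ → ℝ≥0∞) : ∫⁻ y, F y ∂mu = ∫⁻ y, ENNReal.ofReal (Real.exp y) * F y := by
  unfold mu
  rw [lintegral_withDensity_eq_lintegral_mul_non_measurable _ (by fun_prop)
    (Eventually.of_forall fun x => ENNReal.ofReal_lt_top)]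
  rfl

lemma eL {p : ℝ} (hp : 0 < p) (v : ℝ → ℂ) : eLpNorm v (ENNReal.ofReal p) mu =
    (∫⁻ y, ENNReal.ofReal (‖v y‖ ^ p * Real.exp y)) ^ (1 / p) := by
  rw [eLpNorm_eq_lintegral_rpow_enorm_toReal (by simpa using hp) ENNReal.ofReal_ne_top,
    ENNReal.toReal_ofReal hp.le, lint_mu]
  congr 1
  refine lintegral_congr fun y => ?_
  rw [← ofReal_norm, ENNReal.ofReal_rpow_of_nonneg (norm_nonneg _) hp.le, mul_comm,
    ENNReal.ofReal_mul (by positivity)]

lemma OneD_bound {n : ℕ} {r : ℝ} (h : OneD n r) (hr : 1 ≤ r) {v : ℝ → ℂ} (hv : NB v) :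
    eLpNorm (Bop n v) (ENNReal.ofReal r) mu ≤
      ENNReal.ofReal (Cn n (1 / r)) * eLpNorm v (ENNReal.ofReal r) mu := by
  have hr0 : 0 < r := by linarith
  have hC : 0 ≤ Cn n (1 / r) := Cn_nonneg n _ (by positivity) (by rw [div_le_one hr0]; exact hr)
  rw [eL hr0, eL hr0]
  have e1 : ENNReal.ofReal (Cn n (1 / r)) = ENNReal.ofReal (Cn n (1 / r) ^ r) ^ (1 / r) := by
    rw [ENNReal.ofReal_rpow_of_nonneg (by positivity) (by positivity), ← Real.rpow_mul hC,
      mul_one_div_cancel hr0.ne', Real.rpow_one]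
  rw [e1, ← ENNReal.mul_rpow_of_nonneg _ _ (by positivity)]
  refine ENNReal.rpow_le_rpow (h v hv.1 fun y => ?_) (by positivity)
  have := int_NB 0 hv y
  simpa using this

lemma OneD_of_cpt (hIS : StIS2) (n : ℕ) (p : ℝ) (hp : 1 ≤ p)
    (h : ∀ f : ℝ → ℂ, Continuous f → HasCompactSupport f →
      eLpNorm (Bop n f) (ENNReal.ofReal p) mu ≤
        ENNReal.ofReal (Cn n (1 / p)) * eLpNorm f (ENNReal.ofReal p) mu) : OneD n p := by
  intro f hf hi
  have hp0 : 0 < p := by linarith
  have hC : 0 ≤ Cn n (1 / p) := Cn_nonneg n _ (by positivity) (by rw [div_le_one hp0]; exact hp)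
  have hcont : ∀ j, Continuous (fun x => ((chi_EN j x : ℝ) : ℂ) * f x) := by
    intro j
    have h1 := chi_cont_EN j
    fun_prop
  have hsupp : ∀ j, HasCompactSupport (fun x => ((chi_EN j x : ℝ) : ℂ) * f x) := by
    intro j
    apply HasCompactSupport.mul_right
    exact (chi_supp_EN j).comp_left (g := fun r : ℝ => (r : ℂ)) (by simp)
  apply fatou_EN
    (F := fun j y => ‖Bop n (fun x => ((chi_EN j x : ℝ) : ℂ) * f x) y‖ ^ p * Real.exp y)
    (B := fun _ => ENNReal.ofReal (Cn n (1 / p) ^ p) *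
      ∫⁻ y, ENNReal.ofReal (‖f y‖ ^ p * Real.exp y))
  · intro j
    exact meas_EN hIS n p _ (hcont j) (hsupp j)
  · intro y
    apply Tendsto.mul_const
    exact ((Bop_lim_EN n f hf y (hi y)).norm).rpow_const (Or.inr hp0.le)
  · intro j
    have h1 := h _ (hcont j) (hsupp j)
    rw [eL hp0, eL hp0] at h1
    have h2 := ENNReal.rpow_le_rpow h1 hp0.le
    rw [← ENNReal.rpow_mul, one_div_mul_cancel hp0.ne', ENNReal.rpow_one,
      ENNReal.mul_rpow_of_nonneg _ _ hp0.le, ← ENNReal.rpow_mul, one_div_mul_cancel hp0.ne',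
      ENNReal.rpow_one, ENNReal.ofReal_rpow_of_nonneg hC hp0.le] at h2
    refine h2.trans ?_
    gcongr with y
    rw [norm_mul, Complex.norm_real, Real.norm_eq_abs, abs_of_nonneg (chi_nonneg_EN _ _)]
    have h3 := chi_le_EN j y
    have h4 := chi_nonneg_EN j y
    nlinarith [norm_nonneg (f y)]
  · exact tendsto_const_nhds

/-! ### the positive operators -/

lemma RR_bound (β : ℝ) (hβ : 0 ≤ β) {p : ℝ} (hp : 1 < p) {v : ℝ → ℂ} (hv : NB v) :
    eLpNorm (RR β v) (ENNReal.ofReal p) mu ≤
      ENNReal.ofReal (1 / (β + 1 / p)) * eLpNorm v (ENNReal.ofReal p) mu := by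
  have hp0 : 0 < p := by linarith
  set l : ℝ := β + 1 / p with hl
  have hl0 : 0 < l := by positivity
  -- the measure `e^{-lu} du` on `(0,∞)`
  set E : ℝ → ℝ≥0∞ := fun u => ENNReal.ofReal (Real.exp (-l * u)) with hE
  have hEm : Measurable E := by fun_prop
  have hEint : ∫⁻ u in Ioi (0 : ℝ), E u = ENNReal.ofReal (1 / l) := by
    have h1 := integrableOn_exp_mul_Ioi (a := -l) (by linarith) 0
    rw [← ofReal_integral_eq_lintegral_ofReal h1 (Eventually.of_forall fun u => (Real.exp_pos _).le),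
      integral_exp_mul_Ioi (by linarith)]
    congr 1
    rw [mul_zero, Real.exp_zero]
    field_simp
  have hvm : Measurable v := hv.1.measurable
  set Z : ℝ → ℝ → ℝ≥0∞ := fun y u => ENNReal.ofReal (Real.exp (u / p)) * ‖v (y + u)‖ₑ with hZ
  have hZm : Measurable (Function.uncurry Z) := by
    simp only [hZ]
    have h1 : Measurable fun q : ℝ × ℝ => v (q.1 + q.2) := hvm.comp (by fun_prop)
    have h2 : Measurable fun q : ℝ × ℝ => ENNReal.ofReal (Real.exp (q.2 / p)) := by fun_prop
    exact h2.mul h1.enorm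
  -- pointwise
  have hpt : ∀ y, ‖RR β v y‖ₑ ^ p ≤ ENNReal.ofReal (1 / l) ^ (p - 1) *
      ∫⁻ u in Ioi (0 : ℝ), E u * Z y u ^ p := by
    intro y
    have hZy : Measurable (Z y) := hZm.comp measurable_prodMk_left
    have h1 : ‖RR β v y‖ₑ ≤ ∫⁻ u in Ioi (0 : ℝ), E u * Z y u := by
      unfold RR
      refine (enorm_integral_le_lintegral_enorm _).trans (le_of_eq ?_)
      refine lintegral_congr fun u => ?_
      simp only [hE, hZ]
      rw [enorm_mul, ← mul_assoc, ← ENNReal.ofReal_mul (Real.exp_pos _).le, ← Real.exp_add]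
      congr 1
      rw [← ofReal_norm, Complex.norm_real, Real.norm_eq_abs, abs_of_pos (Real.exp_pos _)]
      congr 2
      rw [hl]
      ring
    have hq : p.HolderConjugate (p / (p - 1)) := Real.HolderConjugate.conjExponent hp
    have h2 := ENNReal.lintegral_mul_le_Lp_mul_Lq (volume.restrict (Ioi (0 : ℝ))) hq
      (f := fun u => E u ^ (1 / p) * Z y u) (g := fun u => E u ^ (1 / (p / (p - 1))))
      ((hEm.pow_const _).mul hZy).aemeasurable (hEm.pow_const _).aemeasurable
    have h3 : ∀ u, E u ^ (1 / p) * Z y u * E u ^ (1 / (p / (p - 1))) = E u * Z y u := by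
      intro u
      have h4 : E u ^ (1 / p) * E u ^ (1 / (p / (p - 1))) = E u := by
        have hE0 : E u ≠ 0 := by
          simp only [hE]
          exact (ENNReal.ofReal_pos.2 (Real.exp_pos _)).ne'
        rw [← ENNReal.rpow_add _ _ hE0 ENNReal.ofReal_ne_top]
        have : 1 / p + 1 / (p / (p - 1)) = 1 := by
          have : p - 1 ≠ 0 := by linarith
          field_simp
          ring
        rw [this, ENNReal.rpow_one]
      calc E u ^ (1 / p) * Z y u * E u ^ (1 / (p / (p - 1)))
          = (E u ^ (1 / p) * E u ^ (1 / (p / (p - 1)))) * Z y u := by ring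
        _ = _ := by rw [h4]
    have h5 : ∀ u, (E u ^ (1 / p) * Z y u) ^ p = E u * Z y u ^ p := by
      intro u
      rw [ENNReal.mul_rpow_of_nonneg _ _ hp0.le, ← ENNReal.rpow_mul, one_div_mul_cancel hp0.ne',
        ENNReal.rpow_one]
    have h6 : ∀ u, (E u ^ (1 / (p / (p - 1)))) ^ (p / (p - 1)) = E u := by
      intro u
      rw [← ENNReal.rpow_mul, one_div_mul_cancel hq.symm.ne_zero, ENNReal.rpow_one]
    simp only [Pi.mul_apply, h3, h5, h6] at h2
    rw [hEint] at h2
    have h7 := ENNReal.rpow_le_rpow (h1.trans h2) hp0.le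
    refine h7.trans (le_of_eq ?_)
    rw [ENNReal.mul_rpow_of_nonneg _ _ hp0.le, ← ENNReal.rpow_mul, one_div_mul_cancel hp0.ne',
      ENNReal.rpow_one, ← ENNReal.rpow_mul, mul_comm]
    congr 2
    have : p - 1 ≠ 0 := by linarith
    field_simp
  -- integrate
  have hint : ∫⁻ y, ‖RR β v y‖ₑ ^ p ∂mu ≤
      ENNReal.ofReal (1 / l) ^ p * ∫⁻ y, ‖v y‖ₑ ^ p ∂mu := by
    rw [lint_mu, lint_mu]
    calc ∫⁻ y, ENNReal.ofReal (Real.exp y) * ‖RR β v y‖ₑ ^ p
        ≤ ∫⁻ y, ENNReal.ofReal (Real.exp y) * (ENNReal.ofReal (1 / l) ^ (p - 1) *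
            ∫⁻ u in Ioi (0 : ℝ), E u * Z y u ^ p) := lintegral_mono fun y => by
          gcongr
          exact hpt y
      _ = ∫⁻ y, ∫⁻ u in Ioi (0 : ℝ), ENNReal.ofReal (1 / l) ^ (p - 1) *
            (E u * (ENNReal.ofReal (Real.exp (y + u)) * ‖v (y + u)‖ₑ ^ p)) := by
          refine lintegral_congr fun y => ?_
          rw [← mul_assoc, ← lintegral_const_mul']
          · refine lintegral_congr fun u => ?_
            simp only [hZ]
            rw [ENNReal.mul_rpow_of_nonneg _ _ hp0.le,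
              ENNReal.ofReal_rpow_of_nonneg (Real.exp_pos _).le hp0.le, ← Real.exp_mul,
              div_mul_cancel₀ _ hp0.ne', Real.exp_add,
              ENNReal.ofReal_mul (Real.exp_pos _).le]
            ring
          · exact ENNReal.mul_ne_top ENNReal.ofReal_ne_top
              (ENNReal.rpow_ne_top_of_nonneg (by linarith) ENNReal.ofReal_ne_top)
      _ = ∫⁻ u in Ioi (0 : ℝ), ∫⁻ y, ENNReal.ofReal (1 / l) ^ (p - 1) *
            (E u * (ENNReal.ofReal (Real.exp (y + u)) * ‖v (y + u)‖ₑ ^ p)) := by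
          refine lintegral_lintegral_swap ?_
          have h1 : Measurable fun q : ℝ × ℝ => v (q.1 + q.2) := hvm.comp (by fun_prop)
          have h2 : Measurable fun q : ℝ × ℝ => ENNReal.ofReal (Real.exp (q.1 + q.2)) := by
            fun_prop
          have h3 : Measurable fun q : ℝ × ℝ => E q.2 := hEm.comp measurable_snd
          exact (((h3.mul (h2.mul (h1.enorm.pow_const p))).const_mul _)).aemeasurable
      _ = ∫⁻ u in Ioi (0 : ℝ), ENNReal.ofReal (1 / l) ^ (p - 1) *
            (E u * ∫⁻ y, ENNReal.ofReal (Real.exp y) * ‖v y‖ₑ ^ p) := by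
          refine lintegral_congr fun u => ?_
          rw [lintegral_const_mul', lintegral_const_mul',
            lintegral_add_right_eq_self (μ := (volume : Measure ℝ))
              (fun y : ℝ => ENNReal.ofReal (Real.exp y) * ‖v y‖ₑ ^ p) u]
          · exact ENNReal.ofReal_ne_top
          · exact ENNReal.rpow_ne_top_of_nonneg (by linarith) ENNReal.ofReal_ne_top
      _ = ENNReal.ofReal (1 / l) ^ p * ∫⁻ y, ENNReal.ofReal (Real.exp y) * ‖v y‖ₑ ^ p := by
          rw [lintegral_const_mul' _ _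
            (ENNReal.rpow_ne_top_of_nonneg (by linarith) ENNReal.ofReal_ne_top),
            lintegral_mul_const _ hEm, hEint, ← mul_assoc]
          congr 1
          have h0 : ENNReal.ofReal (1 / l) ≠ 0 := by
            rw [ENNReal.ofReal_ne_zero_iff]
            positivity
          nth_rewrite 2 [← ENNReal.rpow_one (ENNReal.ofReal (1 / l))]
          rw [← ENNReal.rpow_add _ _ h0 ENNReal.ofReal_ne_top]
          congr 1
          ring
  rw [eLpNorm_eq_lintegral_rpow_enorm_toReal (by simpa using hp0) ENNReal.ofReal_ne_top,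
    eLpNorm_eq_lintegral_rpow_enorm_toReal (by simpa using hp0) ENNReal.ofReal_ne_top,
    ENNReal.toReal_ofReal hp0.le]
  have h1 := ENNReal.rpow_le_rpow hint (by positivity : (0 : ℝ) ≤ 1 / p)
  rw [ENNReal.mul_rpow_of_nonneg _ _ (by positivity), ← ENNReal.rpow_mul,
    mul_one_div_cancel hp0.ne', ENNReal.rpow_one] at h1
  exact h1

end Helper69.CR.DB
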