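import Pool.Agent.Helper69.CR.St

set_option autoImplicit false

open MeasureTheory Set Filter Topology

noncomputable section

namespace Helper69.CR

open Helper85.BP

private lemma pp_cont_PR (n : ℕ) : Continuous (pp n) := by
  unfold pp
  fun_prop

private lemma bdd_PR {E : Type*} [NormedAddCommGroup E] (φ : ℝ → E) (hc : HasCompactSupport φ) :
    ∃ R : ℝ, 0 < R ∧ ∀ x, R < |x| → φ x = 0 := by
  obtain ⟨R, hR⟩ := hc.isCompact.isBounded.subset_closedBall 0
  refine ⟨max R 1, by positivity, fun x hx => ?_⟩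
  by_contra h
  have h1 : x ∈ tsupport φ := subset_tsupport _ h
  have h2 := hR h1
  rw [Metric.mem_closedBall, dist_zero_right, Real.norm_eq_abs] at h2
  exact absurd (lt_of_le_of_lt (le_max_left R 1) hx) (not_lt.mpr h2)

private lemma shift_PR (φ : ℝ → ℂ) (v : ℝ) :
    ∫ d in Ioi (0:ℝ), φ (v + d) = ∫ u in Ioi v, φ u := by
  have h := (measurePreserving_add_left volume v).setIntegral_preimage_emb
    (measurableEmbedding_addLeft v) φ (Ioi v)
  rw [← h]
  simp

private lemma sq_PR (φ : ℝ → ℂ) (hφ : Continuous φ) (hc : HasCompactSupport φ) :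
    ‖∫ u in Ioi (0:ℝ), φ u‖ ^ 2 =
      2 * ∫ v in Ioi (0:ℝ), ∫ d in Ioi (0:ℝ), (φ v * (starRingEnd ℂ) (φ (v + d))).re := by
  have hint : Integrable φ := hφ.integrable_of_hasCompactSupport hc
  obtain ⟨R, hR0, hR⟩ := bdd_PR φ hc
  set A := ∫ u in Ioi (0:ℝ), φ u with hA
  set Φ : ℝ → ℂ := fun v => A - ∫ u in (0:ℝ)..v, φ u with hΦ
  have h1 : ∀ v, ∫ d in Ioi (0:ℝ), φ (v + d) = Φ v := by
    intro v
    rw [shift_PR]
    have h2 := intervalIntegral.integral_interval_add_Ioi (hint.integrableOn (s := Ioi (0:ℝ)))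
      (hint.integrableOn (s := Ioi v))
    simp only [hΦ]
    rw [hA, ← h2]
    ring
  have hd : ∀ v, HasDerivAt Φ (-φ v) v := by
    intro v
    have h3 := intervalIntegral.integral_hasDerivAt_right (hint.intervalIntegrable (a := 0) (b := v))
      (hφ.stronglyMeasurableAtFilter _ _) hφ.continuousAt
    have h4 := h3.const_sub A
    exact h4
  have hΦ0 : ∀ v, R < v → Φ v = 0 := by
    intro v hv
    rw [← h1 v]
    have : ∀ d ∈ Ioi (0:ℝ), φ (v + d) = 0 := by
      intro d hd
      apply hR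
      rw [abs_of_pos (by linarith [mem_Ioi.mp hd])]
      linarith [mem_Ioi.mp hd]
    rw [setIntegral_congr_fun measurableSet_Ioi this]
    simp
  have hΦc : Continuous Φ := continuous_iff_continuousAt.mpr fun v => (hd v).continuousAt
  have hN : ∀ v, HasDerivAt (fun x => ‖Φ x‖ ^ 2) (2 * inner ℝ (Φ v) (-φ v)) v := fun v => (hd v).norm_sq
  have hint2 : Integrable (fun v => 2 * inner ℝ (Φ v) (-φ v)) := by
    apply Continuous.integrable_of_hasCompactSupport
    · fun_prop
    · refine hc.mono ?_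
      intro x hx
      simp only [Function.mem_support] at hx ⊢
      intro h0
      apply hx
      rw [h0]
      simp
  have hlim : Tendsto (fun x => ‖Φ x‖ ^ 2) atTop (𝓝 0) := by
    apply tendsto_const_nhds.congr'
    filter_upwards [eventually_gt_atTop R] with v hv
    rw [hΦ0 v hv]
    simp
  have key := integral_Ioi_of_hasDerivAt_of_tendsto' (a := 0) (fun x _ => hN x) hint2.integrableOn hlim
  have hΦ00 : Φ 0 = A := by simp [hΦ]
  rw [hΦ00] at key
  have key2 : ‖A‖ ^ 2 = 2 * ∫ v in Ioi (0:ℝ), inner ℝ (Φ v) (φ v) := by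
    have : ∫ x in Ioi (0:ℝ), 2 * inner ℝ (Φ x) (-φ x) = -(2 * ∫ v in Ioi (0:ℝ), inner ℝ (Φ v) (φ v)) := by
      rw [← integral_const_mul, ← integral_neg]
      congr 1
      ext v
      rw [inner_neg_right]
      ring
    rw [this] at key
    linarith
  rw [key2]
  congr 1
  apply setIntegral_congr_fun measurableSet_Ioi
  intro v _
  have hs : Integrable (fun d => φ (v + d)) := hint.comp_add_left v
  show inner ℝ (Φ v) (φ v) = ∫ d in Ioi (0:ℝ), (φ v * (starRingEnd ℂ) (φ (v + d))).re
  have e1 : ∫ d in Ioi (0:ℝ), (φ v * (starRingEnd ℂ) (φ (v + d))).re =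
      (∫ d in Ioi (0:ℝ), φ v * (starRingEnd ℂ) (φ (v + d))).re := by
    have hi : IntegrableOn (fun d => φ v * (starRingEnd ℂ) (φ (v + d))) (Ioi (0:ℝ)) := by
      apply Integrable.integrableOn
      apply Integrable.const_mul
      exact (Complex.conjCLE.toContinuousLinearMap.integrable_comp hs)
    exact Complex.reCLM.integral_comp_comm hi
  rw [e1, integral_const_mul, integral_conj, h1 v, Complex.inner, mul_comm]

/-- `k_d(y)` without weight -/
private def kk_PR (g : ℝ → ℂ) (d y : ℝ) : ℝ := (g y * (starRingEnd ℂ) (g (y + d))).re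

private def f_PR (g : ℝ → ℂ) (x : ℝ) : ℂ := (Real.exp (-x / 4) : ℂ) * g x

private def q_PR (n : ℕ) (v : ℝ) : ℝ := pp n (Real.exp (-v))

private lemma q_cont_PR (n : ℕ) : Continuous (q_PR n) := by
  unfold q_PR
  exact (pp_cont_PR n).comp (by fun_prop)

private lemma ff_PR (g : ℝ → ℂ) (x d : ℝ) :
    (f_PR g x * (starRingEnd ℂ) (f_PR g (x + d))).re =
      Real.exp (-x / 2) * Real.exp (-d / 4) * kk_PR g d x := by
  have e : f_PR g x * (starRingEnd ℂ) (f_PR g (x + d)) =
      ((Real.exp (-x / 2) * Real.exp (-d / 4) : ℝ) : ℂ) * (g x * (starRingEnd ℂ) (g (x + d))) := by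
    have e1 : Real.exp (-x / 2) * Real.exp (-d / 4) = Real.exp (-x / 4) * Real.exp (-(x + d) / 4) := by
      rw [← Real.exp_add, ← Real.exp_add]
      congr 1
      ring
    rw [e1]
    unfold f_PR
    rw [map_mul, Complex.conj_ofReal]
    push_cast
    ring
  rw [e, Complex.re_ofReal_mul]
  rfl

private lemma B_PR (n : ℕ) (g : ℝ → ℂ) (hg : Continuous g) (hgc : HasCompactSupport g) (y : ℝ) :
    Real.exp (y / 2) * ‖Bop n (fun x => (Real.exp (-x / 4) : ℂ) * g x) y‖ ^ 2 =
      ‖g y‖ ^ 2 + 2 * (∫ d in Ioi (0 : ℝ), (-1) ^ n * q_PR n d * Real.exp (-d / 4) * kk_PR g d y) +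
        2 * ∫ v in Ioi (0 : ℝ), ∫ d in Ioi (0 : ℝ),
          q_PR n v * q_PR n (v + d) * Real.exp (-v / 2) * Real.exp (-d / 4) * kk_PR g d (y + v) := by
  have hq := q_cont_PR n
  have hf : Continuous (f_PR g) := by
    unfold f_PR
    fun_prop
  have hfc : HasCompactSupport (f_PR g) := by
    unfold f_PR
    exact hgc.mul_left
  set φ : ℝ → ℂ := fun u => ((q_PR n u : ℝ) : ℂ) * f_PR g (y + u) with hφ
  have hφ1 : Continuous φ := by
    rw [hφ]
    fun_prop
  have hφ2 : HasCompactSupport φ := by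
    rw [hφ]
    apply HasCompactSupport.mul_left
    exact hfc.comp_homeomorph (Homeomorph.addLeft y)
  have hint : Integrable φ := hφ1.integrable_of_hasCompactSupport hφ2
  have hB : Bop n (fun x => (Real.exp (-x / 4) : ℂ) * g x) y =
      (-1) ^ n * f_PR g y + ∫ u in Ioi (0:ℝ), φ u := rfl
  have hexp : ∀ a b : ℂ, ‖(-1) ^ n * a + b‖ ^ 2 =
      ‖a‖ ^ 2 + 2 * ((-1) ^ n * (a * (starRingEnd ℂ) b).re) + ‖b‖ ^ 2 := by
    intro a b
    rcases neg_one_pow_eq_or ℂ n with h | h
    · have h' : ((-1 : ℝ)) ^ n = 1 := by exact_mod_cast h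
      rw [h, h', ← Complex.normSq_eq_norm_sq, ← Complex.normSq_eq_norm_sq,
        ← Complex.normSq_eq_norm_sq, one_mul, Complex.normSq_add]
      ring
    · have h' : ((-1 : ℝ)) ^ n = -1 := by exact_mod_cast h
      rw [h, h', ← Complex.normSq_eq_norm_sq, ← Complex.normSq_eq_norm_sq,
        ← Complex.normSq_eq_norm_sq, Complex.normSq_add, neg_one_mul, Complex.normSq_neg, neg_mul, Complex.neg_re]
      ring
  rw [hB, hexp, mul_add, mul_add]
  have t1 : Real.exp (y / 2) * ‖f_PR g y‖ ^ 2 = ‖g y‖ ^ 2 := by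
    unfold f_PR
    rw [norm_mul, Complex.norm_real, Real.norm_eq_abs, abs_of_pos (Real.exp_pos _), mul_pow, ← mul_assoc,
      ← Real.exp_nat_mul, ← Real.exp_add]
    have : y / 2 + ((2 : ℕ) : ℝ) * (-y / 4) = 0 := by push_cast; ring
    rw [this, Real.exp_zero, one_mul]
  have t2 : Real.exp (y / 2) * (2 * ((-1) ^ n * (f_PR g y * (starRingEnd ℂ) (∫ u in Ioi (0:ℝ), φ u)).re)) =
      2 * (∫ d in Ioi (0 : ℝ), (-1) ^ n * q_PR n d * Real.exp (-d / 4) * kk_PR g d y) := by
    have e1 : (f_PR g y * (starRingEnd ℂ) (∫ u in Ioi (0:ℝ), φ u)).re =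
        ∫ d in Ioi (0:ℝ), (f_PR g y * (starRingEnd ℂ) (φ d)).re := by
      have hi : IntegrableOn (fun d => f_PR g y * (starRingEnd ℂ) (φ d)) (Ioi (0:ℝ)) := by
        apply Integrable.integrableOn
        apply Integrable.const_mul
        exact (Complex.conjCLE.toContinuousLinearMap.integrable_comp hint)
      rw [← integral_conj, ← integral_const_mul]
      exact (Complex.reCLM.integral_comp_comm hi).symm
    rw [e1, ← mul_assoc, mul_comm (Real.exp (y/2)) 2, mul_assoc, ← mul_assoc (Real.exp (y/2)), ← integral_const_mul]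
    congr 1
    apply integral_congr_ae
    filter_upwards with d
    have e2 : f_PR g y * (starRingEnd ℂ) (φ d) =
        ((q_PR n d : ℝ) : ℂ) * (f_PR g y * (starRingEnd ℂ) (f_PR g (y + d))) := by
      rw [hφ]
      simp only []
      rw [map_mul, Complex.conj_ofReal]
      ring
    rw [e2, Complex.re_ofReal_mul, ff_PR]
    have e3 : Real.exp (y / 2) * Real.exp (-y / 2) = 1 := by
      rw [← Real.exp_add]
      have : y / 2 + -y / 2 = 0 := by ring
      rw [this, Real.exp_zero]
    calc _ = (Real.exp (y / 2) * Real.exp (-y / 2)) * ((-1) ^ n * q_PR n d * Real.exp (-d / 4) * kk_PR g d y) := by ring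
      _ = _ := by rw [e3, one_mul]
  have t3 : Real.exp (y / 2) * ‖∫ u in Ioi (0:ℝ), φ u‖ ^ 2 =
      2 * ∫ v in Ioi (0 : ℝ), ∫ d in Ioi (0 : ℝ),
          q_PR n v * q_PR n (v + d) * Real.exp (-v / 2) * Real.exp (-d / 4) * kk_PR g d (y + v) := by
    rw [sq_PR φ hφ1 hφ2, ← mul_assoc, mul_comm (Real.exp (y/2)) 2, mul_assoc, ← integral_const_mul]
    congr 1
    apply integral_congr_ae
    filter_upwards with v
    rw [← integral_const_mul]
    apply integral_congr_ae
    filter_upwards with d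
    have e2 : φ v * (starRingEnd ℂ) (φ (v + d)) =
        ((q_PR n v * q_PR n (v + d) : ℝ) : ℂ) * (f_PR g (y + v) * (starRingEnd ℂ) (f_PR g (y + v + d))) := by
      rw [hφ]
      simp only []
      rw [map_mul, Complex.conj_ofReal, add_assoc y v d]
      push_cast
      ring
    rw [e2, Complex.re_ofReal_mul, ff_PR]
    have e3 : Real.exp (y / 2) * Real.exp (-(y + v) / 2) = Real.exp (-v / 2) := by
      rw [← Real.exp_add]
      congr 1
      ring
    calc _ = (Real.exp (y / 2) * Real.exp (-(y + v) / 2)) * (q_PR n v * q_PR n (v + d) * Real.exp (-d / 4) * kk_PR g d (y + v)) := by ring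
      _ = _ := by rw [e3]; ring
  rw [t1, t2, t3]

private lemma kk_cont_PR (g : ℝ → ℂ) (hg : Continuous g) : Continuous (fun p : ℝ × ℝ => kk_PR g p.1 p.2) := by
  unfold kk_PR
  fun_prop

theorem hPR : StPR := by
  intro n g H hg hgc hH hHc
  have hq := q_cont_PR n
  have hk := kk_cont_PR g hg
  obtain ⟨R1, hR1, hgR⟩ := bdd_PR g hgc
  obtain ⟨R2, hR2, hHR⟩ := bdd_PR H hHc
  have k0 : ∀ d y, R1 < |y| → kk_PR g d y = 0 := by
    intro d y h
    unfold kk_PR
    rw [hgR y h]
    simp
  have k1 : ∀ d y, R1 < |y + d| → kk_PR g d y = 0 := by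
    intro d y h
    unfold kk_PR
    rw [hgR _ h]
    simp
  -- the two kernels
  set a2 : ℝ → ℝ → ℝ := fun d y => (-1) ^ n * q_PR n d * Real.exp (-d / 4) * kk_PR g d y * H y with ha2
  set Ψ : ℝ → ℝ × ℝ → ℝ := fun y p => q_PR n p.2 * q_PR n (p.2 + p.1) * Real.exp (-p.2 / 2) *
    Real.exp (-p.1 / 4) * kk_PR g p.1 (y + p.2) * H y with hΨ
  have ka2 : Continuous (Function.uncurry a2) := by
    have : Continuous (fun p : ℝ × ℝ => (-1) ^ n * q_PR n p.1 * Real.exp (-p.1 / 4) * kk_PR g p.1 p.2 * H p.2) := by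
      fun_prop
    exact this
  have ca2 : HasCompactSupport (Function.uncurry a2) := by
    apply HasCompactSupport.intro (K := Icc (-(2 * R1)) (2 * R1) ×ˢ Icc (-R1) R1)
      (isCompact_Icc.prod isCompact_Icc)
    rintro ⟨d, y⟩ hp
    show (-1) ^ n * q_PR n d * Real.exp (-d / 4) * kk_PR g d y * H y = 0
    have : kk_PR g d y = 0 := by
      by_contra hne
      apply hp
      have h1 : |y| ≤ R1 := not_lt.mp fun h => hne (k0 d y h)
      have h2 : |y + d| ≤ R1 := not_lt.mp fun h => hne (k1 d y h)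
      rw [abs_le] at h1 h2
      exact ⟨⟨by linarith [h1.2, h2.1], by linarith [h1.1, h2.2]⟩, ⟨h1.1, h1.2⟩⟩
    rw [this]
    ring
  have kΨ : Continuous (Function.uncurry Ψ) := by
    have hk3 : Continuous (fun p : ℝ × ℝ × ℝ => kk_PR g p.2.1 (p.1 + p.2.2)) :=
      hk.comp (f := fun p : ℝ × ℝ × ℝ => (p.2.1, p.1 + p.2.2)) (by fun_prop)
    have : Continuous (fun p : ℝ × ℝ × ℝ => q_PR n p.2.2 * q_PR n (p.2.2 + p.2.1) * Real.exp (-p.2.2 / 2) *
      Real.exp (-p.2.1 / 4) * kk_PR g p.2.1 (p.1 + p.2.2) * H p.1) := by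
      fun_prop
    exact this
  have cΨ : HasCompactSupport (Function.uncurry Ψ) := by
    apply HasCompactSupport.intro (K := Icc (-R2) R2 ×ˢ (Icc (-(2 * R1)) (2 * R1) ×ˢ Icc (-(R1 + R2)) (R1 + R2)))
      (isCompact_Icc.prod (isCompact_Icc.prod isCompact_Icc))
    rintro ⟨y, d, v⟩ hp
    show q_PR n v * q_PR n (v + d) * Real.exp (-v / 2) *
      Real.exp (-d / 4) * kk_PR g d (y + v) * H y = 0
    by_contra hne
    have hne1 : kk_PR g d (y + v) ≠ 0 := by
      intro h
      apply hne
      rw [h]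
      ring
    have hne2 : H y ≠ 0 := by
      intro h
      apply hne
      rw [h]
      ring
    apply hp
    have h1 : |y + v| ≤ R1 := not_lt.mp fun h => hne1 (k0 d _ h)
    have h2 : |y + v + d| ≤ R1 := not_lt.mp fun h => hne1 (k1 d _ h)
    have h3 : |y| ≤ R2 := not_lt.mp fun h => hne2 (hHR y h)
    rw [abs_le] at h1 h2 h3
    exact ⟨⟨h3.1, h3.2⟩, ⟨by linarith [h1.2, h2.1], by linarith [h1.1, h2.2]⟩,
      ⟨by linarith [h1.1, h3.2], by linarith [h1.2, h3.1]⟩⟩
  set μ : Measure ℝ := volume.restrict (Ioi (0:ℝ)) with hμ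
  -- integrability
  have ia2 : Integrable (Function.uncurry a2) (μ.prod volume) := by
    have h := ka2.integrable_of_hasCompactSupport (μ := (volume : Measure ℝ).prod volume) ca2
    have e : μ.prod (volume : Measure ℝ) = ((volume : Measure ℝ).prod volume).restrict (Ioi 0 ×ˢ univ) := by
      rw [← Measure.prod_restrict, Measure.restrict_univ]
    rw [e]
    exact h.restrict
  have iΨ : Integrable (Function.uncurry Ψ) ((volume : Measure ℝ).prod (μ.prod μ)) := by
    have h := kΨ.integrable_of_hasCompactSupport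
      (μ := (volume : Measure ℝ).prod ((volume : Measure ℝ).prod volume)) cΨ
    have e : (volume : Measure ℝ).prod (μ.prod μ) =
        ((volume : Measure ℝ).prod ((volume : Measure ℝ).prod volume)).restrict
          (univ ×ˢ (Ioi 0 ×ˢ Ioi 0)) := by
      rw [← Measure.prod_restrict, Measure.restrict_univ, ← Measure.prod_restrict]
    rw [e]
    exact h.restrict
  -- integrability of the pieces as functions of `y`
  have I1 : Integrable (fun y => ‖g y‖ ^ 2 * H y) := by
    apply Continuous.integrable_of_hasCompactSupport (by fun_prop)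
    exact hHc.mul_left
  have I2 : Integrable (fun y => ∫ d, a2 d y ∂μ) := ia2.integral_prod_right
  have I3 : Integrable (fun y => ∫ p, Ψ y p ∂(μ.prod μ)) := iΨ.integral_prod_left
  have P : ∀ y, Real.exp (y / 2) * ‖Bop n (fun x => (Real.exp (-x / 4) : ℂ) * g x) y‖ ^ 2 * H y =
      ‖g y‖ ^ 2 * H y + 2 * (∫ d, a2 d y ∂μ) + 2 * ∫ p, Ψ y p ∂(μ.prod μ) := by
    intro y
    have hy : Integrable (Ψ y) (μ.prod μ) := by
      have h := (kΨ.comp (f := fun p : ℝ × ℝ => (y, p)) (by fun_prop))
      have hc : HasCompactSupport (Ψ y) := by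
        apply HasCompactSupport.intro (K := Prod.snd '' (tsupport (Function.uncurry Ψ)))
          (cΨ.isCompact.image continuous_snd)
        intro p hp
        by_contra hne
        apply hp
        exact ⟨(y, p), subset_tsupport _ hne, rfl⟩
      have h2 := Continuous.integrable_of_hasCompactSupport (μ := (volume : Measure ℝ).prod volume)
        (f := Ψ y) h hc
      have e : μ.prod μ = ((volume : Measure ℝ).prod volume).restrict (Ioi 0 ×ˢ Ioi 0) := by
        rw [← Measure.prod_restrict]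
      rw [e]
      exact h2.restrict
    rw [B_PR n g hg hgc y, add_mul, add_mul, integral_prod_symm _ hy]
    congr 1
    · congr 1
      rw [mul_assoc, ← integral_mul_const]
    · rw [mul_assoc, ← integral_mul_const]
      congr 1
      apply integral_congr_ae
      filter_upwards with v
      rw [← integral_mul_const]
  have L : ∫ y, Real.exp (y / 2) * ‖Bop n (fun x => (Real.exp (-x / 4) : ℂ) * g x) y‖ ^ 2 * H y =
      (∫ y, ‖g y‖ ^ 2 * H y) + 2 * (∫ y, ∫ d, a2 d y ∂μ) + 2 * ∫ y, ∫ p, Ψ y p ∂(μ.prod μ) := by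
    simp_rw [P]
    have A1 : Integrable (fun y => ‖g y‖ ^ 2 * H y + 2 * ∫ d, a2 d y ∂μ) := I1.add (I2.const_mul 2)
    have A2 : Integrable (fun y => 2 * ∫ p, Ψ y p ∂(μ.prod μ)) := I3.const_mul 2
    have B1 := integral_add A1 A2
    have B2 := integral_add I1 (I2.const_mul 2)
    rw [B1, B2, integral_const_mul, integral_const_mul]
  rw [L, add_assoc, ← mul_add]
  congr 2
  -- swap
  have S2 : ∫ y, (∫ d, a2 d y ∂μ) = ∫ d, (∫ y, a2 d y) ∂μ := (integral_integral_swap ia2).symm
  have S3 : ∫ y, (∫ p, Ψ y p ∂(μ.prod μ)) = ∫ d, (∫ v, (∫ y, Ψ y (d, v)) ∂μ) ∂μ := by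
    rw [integral_integral_swap iΨ]
    exact integral_prod _ iΨ.integral_prod_right
  have I4 : Integrable (fun d => ∫ y, a2 d y) μ := ia2.integral_prod_left
  have I5 : Integrable (fun d => ∫ v, (∫ y, Ψ y (d, v)) ∂μ) μ :=
    iΨ.integral_prod_right.integral_prod_left
  rw [S2, S3, ← integral_add I4 I5]
  apply integral_congr_ae
  filter_upwards with d
  -- for fixed `d`
  set F : ℝ → ℝ → ℝ := fun v y => q_PR n v * q_PR n (v + d) * Real.exp (-v / 2) *
    Real.exp (-d / 4) * kk_PR g d y * H (y - v) with hF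
  have kd1 : Continuous (fun y => kk_PR g d y) := hk.comp (f := fun y : ℝ => (d, y)) (by fun_prop)
  have kF : Continuous (Function.uncurry F) := by
    have : Continuous (fun p : ℝ × ℝ => q_PR n p.1 * q_PR n (p.1 + d) * Real.exp (-p.1 / 2) *
      Real.exp (-d / 4) * kk_PR g d p.2 * H (p.2 - p.1)) := by
      fun_prop
    exact this
  have cF : HasCompactSupport (Function.uncurry F) := by
    apply HasCompactSupport.intro (K := Icc (-(R1 + R2)) (R1 + R2) ×ˢ Icc (-R1) R1)
      (isCompact_Icc.prod isCompact_Icc)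
    rintro ⟨v, y⟩ hp
    show q_PR n v * q_PR n (v + d) * Real.exp (-v / 2) *
      Real.exp (-d / 4) * kk_PR g d y * H (y - v) = 0
    by_contra hne
    have hne1 : kk_PR g d y ≠ 0 := by
      intro h
      apply hne
      rw [h]
      ring
    have hne2 : H (y - v) ≠ 0 := by
      intro h
      apply hne
      rw [h]
      ring
    apply hp
    have h1 : |y| ≤ R1 := not_lt.mp fun h => hne1 (k0 d _ h)
    have h3 : |y - v| ≤ R2 := not_lt.mp fun h => hne2 (hHR _ h)
    rw [abs_le] at h1 h3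
    exact ⟨⟨by linarith [h1.1, h3.2], by linarith [h1.2, h3.1]⟩, ⟨h1.1, h1.2⟩⟩
  have iF : Integrable (Function.uncurry F) (μ.prod volume) := by
    have h := kF.integrable_of_hasCompactSupport (μ := (volume : Measure ℝ).prod volume) cF
    have e : μ.prod (volume : Measure ℝ) = ((volume : Measure ℝ).prod volume).restrict (Ioi 0 ×ˢ univ) := by
      rw [← Measure.prod_restrict, Measure.restrict_univ]
    rw [e]
    exact h.restrict
  have e1 : ∀ v, (∫ y, Ψ y (d, v)) = ∫ y, F v y := by
    intro v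
    rw [← integral_sub_right_eq_self (fun y => Ψ y (d, v)) v]
    apply integral_congr_ae
    filter_upwards with y
    show q_PR n v * q_PR n (v + d) * Real.exp (-v / 2) *
      Real.exp (-d / 4) * kk_PR g d (y - v + v) * H (y - v) = _
    rw [sub_add_cancel]
  have e2 : ∫ v, (∫ y, Ψ y (d, v)) ∂μ = ∫ y, (∫ v, F v y ∂μ) := by
    simp_rw [e1]
    exact integral_integral_swap iF
  have I6 : Integrable (fun y => ∫ v, F v y ∂μ) := iF.integral_prod_right
  have I7 : Integrable (fun y => a2 d y) := by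
    have hc : Continuous (fun y => a2 d y) := ka2.comp (f := fun y : ℝ => (d, y)) (by fun_prop)
    apply hc.integrable_of_hasCompactSupport
    exact hHc.mul_left
  show (∫ y, a2 d y) + ∫ v, (∫ y, Ψ y (d, v)) ∂μ = _
  rw [e2, ← integral_add I7 I6, ← integral_const_mul]
  apply integral_congr_ae
  filter_upwards with y
  show (-1) ^ n * q_PR n d * Real.exp (-d / 4) * kk_PR g d y * H y + ∫ v, F v y ∂μ =
    Real.exp (-d / 4) * (kk_PR g d y * ((-1) ^ n * pp n (Real.exp (-d)) * H y +
    ∫ v in Ioi (0 : ℝ), pp n (Real.exp (-v)) * pp n (Real.exp (-v) * Real.exp (-d)) *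
      Real.exp (-v / 2) * H (y - v)))
  have e3 : ∫ v, F v y ∂μ = Real.exp (-d / 4) * (kk_PR g d y *
    ∫ v in Ioi (0 : ℝ), pp n (Real.exp (-v)) * pp n (Real.exp (-v) * Real.exp (-d)) *
      Real.exp (-v / 2) * H (y - v)) := by
    rw [← integral_const_mul, ← integral_const_mul]
    apply integral_congr_ae
    filter_upwards with v
    have e4 : Real.exp (-v) * Real.exp (-d) = Real.exp (-(v + d)) := by
      rw [← Real.exp_add]
      congr 1
      ring
    rw [e4]
    show pp n (Real.exp (-v)) * pp n (Real.exp (-(v + d))) * Real.exp (-v / 2) *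
      Real.exp (-d / 4) * kk_PR g d y * H (y - v) = _
    ring
  rw [e3]
  show (-1) ^ n * pp n (Real.exp (-d)) * Real.exp (-d / 4) * kk_PR g d y * H y + _ = _
  ring

end Helper69.CR
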